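import Mathlib

namespace Pool.Agent.Helper619.Weyl

/-- An approximate ring homomorphism along a filter. -/
structure Apx {A : Type*} [DivisionRing A] {I : Type*} (F : Filter I) {B : I → Type*}
    [∀ i, DivisionRing (B i)] (R : A → ∀ i, B i) : Prop where
  one : ∀ᶠ i in F, R 1 i = 1
  add : ∀ a b, ∀ᶠ i in F, R (a + b) i = R a i + R b i
  mul : ∀ a b, ∀ᶠ i in F, R (a * b) i = R a i * R b i

namespace Apx

variable {A : Type*} [DivisionRing A] {I : Type*} {F : Filter I} {B : I → Type*}
  [∀ i, DivisionRing (B i)] {R R' : A → ∀ i, B i}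

theorem zero (h : Apx F R) : ∀ᶠ i in F, R 0 i = 0 := by
  filter_upwards [h.add 0 0] with i hi
  rw [add_zero] at hi
  exact left_eq_add.1 hi

theorem neg (h : Apx F R) (a : A) : ∀ᶠ i in F, R (-a) i = -R a i := by
  filter_upwards [h.add a (-a), h.zero] with i hi h0
  rw [add_neg_cancel, h0] at hi
  exact eq_neg_of_add_eq_zero_right hi.symm

theorem sub (h : Apx F R) (a b : A) : ∀ᶠ i in F, R (a - b) i = R a i - R b i := by
  filter_upwards [h.add a (-b), h.neg b] with i hi h0
  rw [sub_eq_add_neg, hi, h0, sub_eq_add_neg]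

theorem inv (h : Apx F R) (a : A) : ∀ᶠ i in F, R a⁻¹ i = (R a i)⁻¹ := by
  rcases eq_or_ne a 0 with rfl | ha
  · filter_upwards [h.zero] with i hi
    rw [inv_zero, hi, inv_zero]
  · filter_upwards [h.mul a a⁻¹, h.one] with i hi h1
    rw [mul_inv_cancel₀ ha, h1] at hi
    exact eq_inv_of_mul_eq_one_right hi.symm

theorem ne_zero (h : Apx F R) (a : A) (ha : a ≠ 0) : ∀ᶠ i in F, R a i ≠ 0 := by
  filter_upwards [h.mul a a⁻¹, h.one] with i hi h1 h0
  rw [mul_inv_cancel₀ ha, h1, h0, zero_mul] at hi
  exact one_ne_zero hi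

theorem pow (h : Apx F R) (a : A) (n : ℕ) : ∀ᶠ i in F, R (a ^ n) i = R a i ^ n := by
  induction n with
  | zero =>
    filter_upwards [h.one] with i hi
    rw [pow_zero, pow_zero, hi]
  | succ n ih =>
    filter_upwards [ih, h.mul (a ^ n) a] with i hi hm
    rw [pow_succ, pow_succ, hm, hi]

theorem natCast (h : Apx F R) (n : ℕ) : ∀ᶠ i in F, R (n : A) i = (n : B i) := by
  induction n with
  | zero =>
    filter_upwards [h.zero] with i hi
    rw [Nat.cast_zero, Nat.cast_zero, hi]
  | succ n ih =>
    filter_upwards [ih, h.add (n : A) 1, h.one] with i hi hm h1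
    rw [Nat.cast_succ, Nat.cast_succ, hm, hi, h1]

theorem comp {A' : Type*} [DivisionRing A'] (h : Apx F R) (f : A' →+* A) :
    Apx F (fun a => R (f a)) where
  one := by
    filter_upwards [h.one] with i hi
    rw [map_one, hi]
  add a b := by
    filter_upwards [h.add (f a) (f b)] with i hi
    rw [map_add, hi]
  mul a b := by
    filter_upwards [h.mul (f a) (f b)] with i hi
    rw [map_mul, hi]

theorem map {B' : I → Type*} [∀ i, DivisionRing (B' i)] (h : Apx F R) (f : ∀ i, B i →+* B' i) :
    Apx F (fun a i => f i (R a i)) where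
  one := by
    filter_upwards [h.one] with i hi
    rw [hi, map_one]
  add a b := by
    filter_upwards [h.add a b] with i hi
    rw [hi, map_add]
  mul a b := by
    filter_upwards [h.mul a b] with i hi
    rw [hi, map_mul]

/-- the elements whose images are eventually in given division subrings -/
theorem mem_of_closure (h : Apx F R) (S : ∀ i, Subfield (B i)) (s : Set A)
    (hs : ∀ a ∈ s, ∀ᶠ i in F, R a i ∈ S i) (a : A) (ha : a ∈ Subfield.closure s) :
    ∀ᶠ i in F, R a i ∈ S i := by
  induction ha using Subfield.closure_induction with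
  | mem x hx => exact hs x hx
  | one =>
    filter_upwards [h.one] with i hi
    rw [hi]; exact one_mem _
  | add x y _ _ hx hy =>
    filter_upwards [hx, hy, h.add x y] with i h1 h2 h3
    rw [h3]; exact add_mem h1 h2
  | neg x _ hx =>
    filter_upwards [hx, h.neg x] with i h1 h3
    rw [h3]; exact neg_mem h1
  | inv x _ hx =>
    filter_upwards [hx, h.inv x] with i h1 h3
    rw [h3]; exact inv_mem h1
  | mul x y _ _ hx hy =>
    filter_upwards [hx, hy, h.mul x y] with i h1 h2 h3
    rw [h3]; exact mul_mem h1 h2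

theorem ext_closure (h : Apx F R) (h' : Apx F R') (s : Set A)
    (hs : ∀ a ∈ s, ∀ᶠ i in F, R a i = R' a i) (a : A) (ha : a ∈ Subfield.closure s) :
    ∀ᶠ i in F, R a i = R' a i := by
  induction ha using Subfield.closure_induction with
  | mem x hx => exact hs x hx
  | one =>
    filter_upwards [h.one, h'.one] with i hi hi'
    rw [hi, hi']
  | add x y _ _ hx hy =>
    filter_upwards [hx, hy, h.add x y, h'.add x y] with i h1 h2 h3 h4
    rw [h3, h4, h1, h2]
  | neg x _ hx =>
    filter_upwards [hx, h.neg x, h'.neg x] with i h1 h3 h4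
    rw [h3, h4, h1]
  | inv x _ hx =>
    filter_upwards [hx, h.inv x, h'.inv x] with i h1 h3 h4
    rw [h3, h4, h1]
  | mul x y _ _ hx hy =>
    filter_upwards [hx, hy, h.mul x y, h'.mul x y] with i h1 h2 h3 h4
    rw [h3, h4, h1, h2]

end Apx

end Pool.Agent.Helper619.Weyl
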