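import Mathlib

namespace Pool.Agent.Helper619.Weyl.Pair

/-- In a division ring of characteristic zero with an endomorphism `τ` inverting `ξ` and
negating `g`, where `ξ g = (g + 4) ξ`, there are `τ`-fixed elements `u ≠ 0`, `v` with
`u v = (v + 2) u`. -/
theorem exists_pair {D : Type*} [DivisionRing D] [CharZero D] (τ : D →+* D) (g ξ : D)
    (hξ : ξ ≠ 0) (hg : ξ * g = (g + 4) * ξ) (hτg : τ g = -g) (hτξ : τ ξ = ξ⁻¹) :
    ∃ u v : D, τ u = u ∧ τ v = v ∧ u ≠ 0 ∧ u * v = (v + 2) * u := by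
  have h4 : (4 : D) ≠ 0 := by norm_num
  have h2 : (2 : D) ≠ 0 := by norm_num
  have hξ1 : ξ - 1 ≠ 0 := by
    intro h
    have : ξ = 1 := sub_eq_zero.1 h
    rw [this, one_mul, mul_one, left_eq_add] at hg
    exact h4 hg
  have hξ2 : ξ + 1 ≠ 0 := by
    intro h
    have : ξ = -1 := eq_neg_of_add_eq_zero_left h
    rw [this, neg_one_mul, mul_neg_one, neg_inj, left_eq_add] at hg
    exact h4 hg
  set w := (ξ - 1)⁻¹ with hw
  have hwξ : w * (ξ - 1) = 1 := inv_mul_cancel₀ hξ1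
  have hξw : (ξ - 1) * w = 1 := mul_inv_cancel₀ hξ1
  have hcw : ξ * w = w * ξ := by
    have h5 : ξ * w = 1 + w := by
      have := hξw
      rw [sub_mul, one_mul] at this
      rw [← this]; abel
    have h6 : w * ξ = 1 + w := by
      have := hwξ
      rw [mul_sub, mul_one] at this
      rw [← this]; abel
    rw [h5, h6]
  -- ζ = (ξ+1) w
  set ζ := (ξ + 1) * w with hζ
  have hζ0 : ζ ≠ 0 := mul_ne_zero hξ2 (inv_ne_zero hξ1)
  have hζeq : ζ = 1 + 2 * w := by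
    have h5 : ξ * w = 1 + w := by
      have := hξw
      rw [sub_mul, one_mul] at this
      rw [← this]; abel
    rw [hζ, add_mul, h5, one_mul]
    noncomm_ring
  have hgw : w * g - g * w = -(4 * (w * (ξ * w))) := by
    have h5 : (ξ - 1) * g = g * (ξ - 1) + 4 * ξ := by
      rw [sub_mul, hg, one_mul]
      noncomm_ring
    have h6 : g * w = w * g + w * (4 * ξ) * w := by
      calc g * w = w * ((ξ - 1) * g) * w := by rw [← mul_assoc w, hwξ, one_mul]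
        _ = w * (g * (ξ - 1) + 4 * ξ) * w := by rw [h5]
        _ = w * g * ((ξ - 1) * w) + w * (4 * ξ) * w := by noncomm_ring
        _ = w * g + w * (4 * ξ) * w := by rw [hξw, mul_one]
    rw [h6]
    noncomm_ring
  have hζg : ζ * g - g * ζ = -(8 * (w * (ξ * w))) := by
    have : ζ * g - g * ζ = 2 * (w * g - g * w) := by
      rw [hζeq]; noncomm_ring
    rw [this, hgw]; noncomm_ring
  have hζ2 : 1 - ζ ^ 2 = -(4 * (w * (ξ * w))) := by
    have h5 : ξ * w = 1 + w := by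
      have := hξw
      rw [sub_mul, one_mul] at this
      rw [← this]; abel
    rw [hζeq, h5]
    noncomm_ring
  have hζg2 : ζ * g - g * ζ = 2 * (1 - ζ ^ 2) := by
    rw [hζg, hζ2]; noncomm_ring
  have hne : 1 - ζ ^ 2 ≠ 0 := by
    rw [hζ2, neg_ne_zero]
    exact mul_ne_zero h4 (mul_ne_zero (inv_ne_zero hξ1) (mul_ne_zero hξ (inv_ne_zero hξ1)))
  set c := (2 * (1 - ζ ^ 2))⁻¹ with hc
  have hcne : 2 * (1 - ζ ^ 2) ≠ 0 := mul_ne_zero h2 hne
  have hζc : ζ * c = c * ζ := by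
    have h5 : Commute ζ (2 * (1 - ζ ^ 2)) := by
      show ζ * (2 * (1 - ζ ^ 2)) = (2 * (1 - ζ ^ 2)) * ζ
      noncomm_ring
    exact h5.inv_right₀
  -- δ = c g
  have hδ : ζ * (c * g) - (c * g) * ζ = 1 := by
    calc ζ * (c * g) - (c * g) * ζ = c * (ζ * g - g * ζ) := by
          rw [← mul_assoc, hζc]; noncomm_ring
      _ = 1 := by rw [hζg2, hc, inv_mul_cancel₀ hcne]
  have hτ1 : τ ζ = -ζ := by
    rw [hζ, hw, map_mul, map_inv₀, map_add, map_sub, map_one, hτξ]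
    have e1 : ξ⁻¹ + 1 = (ξ + 1) * ξ⁻¹ := by
      rw [add_mul, mul_inv_cancel₀ hξ, one_mul, add_comm]
    have e2 : ξ⁻¹ - 1 = ξ⁻¹ * (-(ξ - 1)) := by
      rw [neg_sub, mul_sub, inv_mul_cancel₀ hξ, mul_one]
    rw [e1, e2, mul_inv_rev, inv_inv, mul_assoc]
    have e3 : ξ⁻¹ * ((-(ξ - 1))⁻¹ * ξ) = (-(ξ - 1))⁻¹ := by
      have h5 : Commute ξ (-(ξ - 1)) := by
        show ξ * (-(ξ - 1)) = (-(ξ - 1)) * ξ
        noncomm_ring
      rw [← (h5.inv_right₀).eq, inv_mul_cancel_left₀ hξ]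
    rw [e3, inv_neg, mul_neg]
  have hτc : τ c = c := by
    rw [hc, map_inv₀, map_mul, map_sub, map_pow, hτ1, map_one]
    have : τ 2 = 2 := map_ofNat τ 2
    rw [this, neg_sq]
  have hζδ : ζ * (c * g) = (c * g) * ζ + 1 := by rw [← hδ]; abel
  refine ⟨ζ ^ 2, ζ * (c * g), ?_, ?_, pow_ne_zero _ hζ0, ?_⟩
  · rw [map_pow, hτ1, neg_sq]
  · rw [map_mul τ ζ (c * g), map_mul τ c g, hτ1, hτc, hτg]; noncomm_ring
  · -- v u = ζ δ ζ²
    set δ := c * g with hδd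
    have h7 : δ * ζ = ζ * δ - 1 := by rw [hζδ]; abel
    have h8 : ζ * δ * ζ ^ 2 = ζ ^ 2 * (ζ * δ) - 2 * ζ ^ 2 := by
      calc ζ * δ * ζ ^ 2 = ζ * (δ * ζ) * ζ := by noncomm_ring
        _ = ζ * (ζ * δ - 1) * ζ := by rw [h7]
        _ = ζ * ζ * (δ * ζ) - ζ * ζ := by noncomm_ring
        _ = ζ * ζ * (ζ * δ - 1) - ζ * ζ := by rw [h7]
        _ = ζ ^ 2 * (ζ * δ) - 2 * ζ ^ 2 := by noncomm_ring
    rw [add_mul, h8]; abel

end Pool.Agent.Helper619.Weyl.Pair
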