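import Mathlib

namespace Pool.Agent.Helper619.Weyl.W7

open Multiplicative Finset in
theorem skew_coeff_mul {R : Type*} [CommRing R] [MulSemiringAction (Multiplicative ℕ) R]
    (f g : SkewPolynomial R) (n : ℕ) :
    SkewPolynomial.coeff (f * g) n = ∑ p ∈ antidiagonal n,
      SkewPolynomial.coeff f p.1 * (ofAdd p.1 • SkewPolynomial.coeff g p.2) := by
  have h := SkewMonoidAlgebra.coeff_mul_antidiagonal_of_finset f g (ofAdd n)
    (show Finset (Multiplicative ℕ × Multiplicative ℕ) from HasAntidiagonal.antidiagonal (A := ℕ) n) (by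
      intro p
      exact HasAntidiagonal.mem_antidiagonal (A := ℕ) (n := n) (a := ((p.1 : ℕ), (p.2 : ℕ))))
  exact h

theorem skew_top {R : Type*} [CommRing R] (f : SkewPolynomial R) (hf : f ≠ 0) :
    ∃ m, SkewPolynomial.coeff f m ≠ 0 ∧ ∀ k, m < k → SkewPolynomial.coeff f k = 0 := by
  have hs : f.support.Nonempty := by
    rw [Finset.nonempty_iff_ne_empty]
    intro h
    exact hf (SkewPolynomial.support_eq_empty.mp h)
  refine ⟨f.support.max' hs, ?_, ?_⟩
  · exact SkewPolynomial.mem_support_iff.mp (Finset.max'_mem _ hs)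
  · intro k hk
    by_contra h
    exact absurd (Finset.le_max' _ k (SkewPolynomial.mem_support_iff.mpr h)) (by omega)

theorem skew_bound {R : Type*} [CommRing R] (f : SkewPolynomial R) :
    ∃ m, ∀ k, m < k → SkewPolynomial.coeff f k = 0 := by
  by_cases hf : f = 0
  · subst hf
    exact ⟨0, fun k _ => SkewPolynomial.coeff_zero k⟩
  · obtain ⟨m, -, h⟩ := skew_top f hf
    exact ⟨m, h⟩

theorem skew_inj {R : Type*} [CommRing R] [MulSemiringAction (Multiplicative ℕ) R]
    (hinj : ∀ a : R, Multiplicative.ofAdd 1 • a = 0 → a = 0) (m : ℕ) :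
    ∀ a : R, Multiplicative.ofAdd m • a = 0 → a = 0 := by
  induction m with
  | zero =>
    intro a ha
    have : (Multiplicative.ofAdd 0 : Multiplicative ℕ) = 1 := rfl
    rw [this, one_smul] at ha
    exact ha
  | succ m ih =>
    intro a ha
    have : (Multiplicative.ofAdd (m + 1) : Multiplicative ℕ) =
      Multiplicative.ofAdd m * Multiplicative.ofAdd 1 := rfl
    rw [this, mul_smul] at ha
    exact hinj a (ih _ ha)

theorem skew_mul_ne_zero {R : Type*} [CommRing R] [IsDomain R]
    [MulSemiringAction (Multiplicative ℕ) R]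
    (hinj : ∀ a : R, Multiplicative.ofAdd 1 • a = 0 → a = 0) (f g : SkewPolynomial R)
    (hf : f ≠ 0) (hg : g ≠ 0) : f * g ≠ 0 := by
  obtain ⟨m, hm, hm'⟩ := skew_top f hf
  obtain ⟨n, hn, hn'⟩ := skew_top g hg
  intro h
  have h1 := skew_coeff_mul f g (m + n)
  rw [h, SkewPolynomial.coeff_zero, Finset.sum_eq_single (m, n)] at h1
  · rcases mul_eq_zero.mp h1.symm with h2 | h2
    · exact hm h2
    · exact hn (skew_inj hinj m _ h2)
  · rintro ⟨i, j⟩ hij hne
    rw [Finset.HasAntidiagonal.mem_antidiagonal] at hij
    simp only at hij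
    show SkewPolynomial.coeff f i * (Multiplicative.ofAdd i • SkewPolynomial.coeff g j) = 0
    rcases lt_trichotomy i m with h2 | h2 | h2
    · rw [hn' j (by omega), smul_zero, mul_zero]
    · exfalso
      apply hne
      rw [Prod.mk.injEq]
      omega
    · rw [hm' i h2, zero_mul]
  · intro h2
    exact absurd (Finset.HasAntidiagonal.mem_antidiagonal.mpr (rfl : ((m, n) : ℕ × ℕ).1 + ((m, n) : ℕ × ℕ).2 = m + n)) h2

open SkewPolynomial in
theorem skew_ore {R : Type*} [CommRing R] [IsDomain R]
    [MulSemiringAction (Multiplicative ℕ) R]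
    (hinj : ∀ a : R, Multiplicative.ofAdd 1 • a = 0 → a = 0) (r s : SkewPolynomial R)
    (hs : s ≠ 0) : ∃ r' s' : SkewPolynomial R, s' ≠ 0 ∧ s' * r = r' * s := by
  obtain ⟨N1, hN1⟩ := skew_bound r
  obtain ⟨N2, hN2⟩ := skew_bound s
  let N := max N1 N2
  have hr : ∀ k, N < k → coeff r k = 0 := fun k hk => hN1 k (lt_of_le_of_lt (le_max_left _ _) hk)
  have hs' : ∀ k, N < k → coeff s k = 0 := fun k hk => hN2 k (lt_of_le_of_lt (le_max_right _ _) hk)
  let S : (Fin (N + 1) → R) →ₗ[R] SkewPolynomial R :=
    ∑ i : Fin (N + 1), (monomial (i : ℕ)).comp (LinearMap.proj i)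
  have hS : ∀ b k, coeff (S b) k = ∑ i : Fin (N + 1), if (i : ℕ) = k then b i else 0 := by
    intro b k
    have h1 : S b = ∑ i : Fin (N + 1), monomial (i : ℕ) (b i) := by
      simp [S, LinearMap.sum_apply]
    rw [h1]
    have h2 : ∀ t : Finset (Fin (N + 1)), coeff (∑ i ∈ t, monomial (i : ℕ) (b i)) k =
        ∑ i ∈ t, if (i : ℕ) = k then b i else 0 := by
      intro t
      induction t using Finset.induction_on with
      | empty => simp
      | insert a t ha ih =>
        rw [Finset.sum_insert ha, Finset.sum_insert ha, ← ih, ← coeff_monomial]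
        exact congrFun (congrArg DFunLike.coe (SkewMonoidAlgebra.coeff_add _ _)) _
    exact h2 _
  have hS1 : ∀ b (i : Fin (N + 1)), coeff (S b) i = b i := by
    intro b i
    rw [hS, Finset.sum_eq_single i]
    · simp
    · intro j _ hj
      rw [if_neg (fun h => hj (Fin.ext h))]
    · intro h
      exact absurd (Finset.mem_univ _) h
  have hS2 : ∀ b k, N < k → coeff (S b) k = 0 := by
    intro b k hk
    rw [hS]
    refine Finset.sum_eq_zero (fun i _ => ?_)
    rw [if_neg]
    have := i.2
    omega
  let T : ((Fin (N + 1) ⊕ Fin (N + 1)) → R) →ₗ[R] (Fin (2 * N + 1) → R) :=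
    { toFun := fun a k => coeff (S (fun i => a (Sum.inl i)) * r - S (fun i => a (Sum.inr i)) * s) k
      map_add' := by
        intro a b
        funext k
        have h1 : S (fun i => (a + b) (Sum.inl i)) = S (fun i => a (Sum.inl i)) +
            S (fun i => b (Sum.inl i)) :=
          map_add S (fun i => a (Sum.inl i)) (fun i => b (Sum.inl i))
        have h2 : S (fun i => (a + b) (Sum.inr i)) = S (fun i => a (Sum.inr i)) +
            S (fun i => b (Sum.inr i)) :=
          map_add S (fun i => a (Sum.inr i)) (fun i => b (Sum.inr i))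
        show coeff (S (fun i => (a + b) (Sum.inl i)) * r - S (fun i => (a + b) (Sum.inr i)) * s) k =
          coeff (S (fun i => a (Sum.inl i)) * r - S (fun i => a (Sum.inr i)) * s) k +
          coeff (S (fun i => b (Sum.inl i)) * r - S (fun i => b (Sum.inr i)) * s) k
        rw [h1, h2]
        have h3 : (S (fun i => a (Sum.inl i)) + S (fun i => b (Sum.inl i))) * r -
            (S (fun i => a (Sum.inr i)) + S (fun i => b (Sum.inr i))) * s =
            (S (fun i => a (Sum.inl i)) * r - S (fun i => a (Sum.inr i)) * s) +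
            (S (fun i => b (Sum.inl i)) * r - S (fun i => b (Sum.inr i)) * s) := by
          rw [add_mul, add_mul]; abel
        rw [h3]
        exact congrFun (congrArg DFunLike.coe (SkewMonoidAlgebra.coeff_add _ _)) _
      map_smul' := by
        intro c a
        funext k
        have h1 : S (fun i => (c • a) (Sum.inl i)) = c • S (fun i => a (Sum.inl i)) :=
          map_smul S c (fun i => a (Sum.inl i))
        have h2 : S (fun i => (c • a) (Sum.inr i)) = c • S (fun i => a (Sum.inr i)) :=
          map_smul S c (fun i => a (Sum.inr i))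
        show coeff (S (fun i => (c • a) (Sum.inl i)) * r - S (fun i => (c • a) (Sum.inr i)) * s) k =
          c * coeff (S (fun i => a (Sum.inl i)) * r - S (fun i => a (Sum.inr i)) * s) k
        rw [h1, h2, smul_mul_assoc, smul_mul_assoc, ← smul_sub]
        exact congrFun (congrArg DFunLike.coe (SkewMonoidAlgebra.coeff_smul _ _)) _ }
  have hT : ¬ Function.Injective T := by
    intro h
    have := card_le_of_injective R T h
    rw [Fintype.card_sum, Fintype.card_fin, Fintype.card_fin] at this
    omega
  obtain ⟨a, ha0, ha⟩ : ∃ a, a ≠ 0 ∧ T a = 0 := by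
    by_contra hcon
    push Not at hcon
    apply hT
    rw [injective_iff_map_eq_zero]
    intro a ha
    by_contra hne
    exact hcon a hne ha
  set A := S (fun i => a (Sum.inl i)) with hA
  set B := S (fun i => a (Sum.inr i)) with hB
  have hAB : A * r - B * s = 0 := by
    apply SkewPolynomial.ext
    intro k
    rw [SkewPolynomial.coeff_zero]
    by_cases hk : k < 2 * N + 1
    · exact congrFun ha ⟨k, hk⟩
    · have h1 : coeff (A * r) k = 0 := by
        rw [skew_coeff_mul]
        refine Finset.sum_eq_zero ?_
        rintro ⟨i, j⟩ hij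
        rw [Finset.HasAntidiagonal.mem_antidiagonal] at hij
        simp only at hij
        show coeff A i * (Multiplicative.ofAdd i • coeff r j) = 0
        by_cases hi : N < i
        · rw [hS2 _ i hi, zero_mul]
        · rw [hr j (by omega), smul_zero, mul_zero]
      have h2 : coeff (B * s) k = 0 := by
        rw [skew_coeff_mul]
        refine Finset.sum_eq_zero ?_
        rintro ⟨i, j⟩ hij
        rw [Finset.HasAntidiagonal.mem_antidiagonal] at hij
        simp only at hij
        show coeff B i * (Multiplicative.ofAdd i • coeff s j) = 0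
        by_cases hi : N < i
        · rw [hS2 _ i hi, zero_mul]
        · rw [hs' j (by omega), smul_zero, mul_zero]
      have h3 : coeff (A * r - B * s) k = coeff (A * r) k - coeff (B * s) k :=
        congrFun (congrArg DFunLike.coe (SkewMonoidAlgebra.coeff_sub _ _)) _
      rw [h3, h1, h2, sub_zero]
  refine ⟨B, A, ?_, sub_eq_zero.mp hAB⟩
  intro hA0
  have hB0 : B = 0 := by
    by_contra hne
    apply skew_mul_ne_zero hinj B s hne hs
    rw [hA0, zero_mul, zero_sub, neg_eq_zero] at hAB
    exact hAB
  apply ha0
  funext i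
  rcases i with i | i
  · have := hS1 (fun i => a (Sum.inl i)) i
    rw [← hA, hA0, SkewPolynomial.coeff_zero] at this
    exact this.symm
  · have := hS1 (fun i => a (Sum.inr i)) i
    rw [← hB, hB0, SkewPolynomial.coeff_zero] at this
    exact this.symm

end Pool.Agent.Helper619.Weyl.W7
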