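import Mathlib
import Pool.Agent.Helper619.Weyl.W7

namespace Pool.Agent.Helper619.Weyl

open Polynomial

/-- Polynomials in `g` over `K`; the monoid `ℕ` acts by `g ↦ g + 2`. -/
def Sh (K : Type*) [CommRing K] : Type _ := K[X]

noncomputable instance (K : Type*) [CommRing K] : CommRing (Sh K) :=
  inferInstanceAs (CommRing K[X])

instance (K : Type*) [CommRing K] [IsDomain K] : IsDomain (Sh K) :=
  inferInstanceAs (IsDomain K[X])

/-- Identification of `Sh K` with the polynomial ring. -/
noncomputable def toSh (K : Type*) [CommRing K] : K[X] ≃+* Sh K := RingEquiv.refl _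

/-- the shift `g ↦ g + 2 n` -/
noncomputable def shift (K : Type*) [CommRing K] (n : ℕ) : K[X] →+* K[X] :=
  Polynomial.compRingHom (X + 2 * (n : K[X]))

theorem shift_X (K : Type*) [CommRing K] (n : ℕ) : shift K n X = X + 2 * (n : K[X]) := by
  simp [shift]

theorem shift_C (K : Type*) [CommRing K] (n : ℕ) (c : K) : shift K n (C c) = C c := by
  simp [shift]

theorem shift_zero (K : Type*) [CommRing K] (f : K[X]) : shift K 0 f = f := by
  simp [shift]

theorem shift_add (K : Type*) [CommRing K] (m n : ℕ) (f : K[X]) :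
    shift K (m + n) f = shift K m (shift K n f) := by
  have : shift K (m + n) = (shift K m).comp (shift K n) := by
    apply Polynomial.ringHom_ext
    · intro a; simp [shift_C]
    · simp only [RingHom.comp_apply, shift_X, map_add, map_mul, map_natCast, map_ofNat]
      push_cast; ring
  rw [this]; rfl

noncomputable instance (K : Type*) [CommRing K] :
    MulSemiringAction (Multiplicative ℕ) (Sh K) where
  smul n f := shift K n.toAdd f
  one_smul f := shift_zero K f
  mul_smul m n f := shift_add K m.toAdd n.toAdd f
  smul_zero n := map_zero (shift K n.toAdd)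
  smul_add n f g := map_add (shift K n.toAdd) f g
  smul_one n := map_one (shift K n.toAdd)
  smul_mul n f g := map_mul (shift K n.toAdd) f g

theorem smul_toSh {K : Type*} [CommRing K] (n : ℕ) (f : K[X]) :
    Multiplicative.ofAdd n • toSh K f = toSh K (shift K n f) := rfl

theorem shift_injective {K : Type*} [CommRing K] (n : ℕ) :
    Function.Injective (shift K n) := by
  have key : ∀ f : K[X], (shift K n f).comp (X - 2 * (n : K[X])) = f := by
    intro f
    have : (Polynomial.compRingHom (X - 2 * (n : K[X]))).comp (shift K n) = RingHom.id K[X] := by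
      apply Polynomial.ringHom_ext
      · intro a; simp [shift_C]
      · simp [shift_X]
    exact congrArg (fun h : K[X] →+* K[X] => h f) this
  intro f g h
  rw [← key f, ← key g, h]

theorem smul_eq_zero_imp {K : Type*} [CommRing K] (a : Sh K)
    (h : Multiplicative.ofAdd 1 • a = 0) : a = 0 :=
  shift_injective 1 (h.trans (map_zero (shift K 1)).symm)

/-- The skew polynomial ring `K[g]⟨x⟩`, `x g = (g+2) x`. -/
abbrev B (K : Type*) [CommRing K] : Type _ := SkewPolynomial (Sh K)

section
variable (K : Type*) [CommRing K] [IsDomain K]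

instance : NoZeroDivisors (B K) where
  eq_zero_or_eq_zero_of_mul_eq_zero := by
    intro a b h
    by_contra hc
    push Not at hc
    exact W7.skew_mul_ne_zero smul_eq_zero_imp a b hc.1 hc.2 h

instance : Nontrivial (B K) := inferInstance

noncomputable instance : OreLocalization.OreSet (nonZeroDivisors (B K)) :=
  OreLocalization.oreSetOfNoZeroDivisors
    (fun r s => (W7.skew_ore smul_eq_zero_imp r (s : B K) (nonZeroDivisors.ne_zero s.2)).choose)
    (fun r s => ⟨(W7.skew_ore smul_eq_zero_imp r (s : B K)
        (nonZeroDivisors.ne_zero s.2)).choose_spec.choose,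
      mem_nonZeroDivisors_of_ne_zero (W7.skew_ore smul_eq_zero_imp r (s : B K)
        (nonZeroDivisors.ne_zero s.2)).choose_spec.choose_spec.1⟩)
    (fun r s => (W7.skew_ore smul_eq_zero_imp r (s : B K)
        (nonZeroDivisors.ne_zero s.2)).choose_spec.choose_spec.2)

/-- The division ring of fractions of `K[g]⟨x⟩`. -/
def Dv : Type _ := OreLocalization (nonZeroDivisors (B K)) (B K)

noncomputable instance : DivisionRing (Dv K) :=
  inferInstanceAs (DivisionRing (OreLocalization (nonZeroDivisors (B K)) (B K)))

/-- the canonical embedding -/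
noncomputable def num : B K →+* Dv K :=
  OreLocalization.numeratorRingHom (R := B K) (S := nonZeroDivisors (B K))

theorem num_injective : Function.Injective (num K) :=
  OreLocalization.numeratorHom_inj (R := B K) (S := nonZeroDivisors (B K))
    (by intro a ha; exact (mem_nonZeroDivisors_iff.1 ha).1)

end

section iface
variable (K : Type*) [CommRing K] [IsDomain K]

/-- polynomials in `g` inside `K[g]⟨x⟩` -/
noncomputable def polyB : K[X] →+* B K :=
  (SkewPolynomial.CRingHom (R := Sh K)).comp (toSh K).toRingHom

/-- the variable `x` -/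
noncomputable def xB : B K := SkewPolynomial.X

theorem polyB_apply (f : K[X]) : polyB K f = SkewPolynomial.C (toSh K f) := rfl

theorem monomial_eq (j : ℕ) (c : K[X]) :
    (SkewPolynomial.monomial j (toSh K c) : B K) = polyB K c * xB K ^ j := by
  rw [polyB_apply, xB, SkewPolynomial.C_mul_X_pow_eq_monomial]

/-- a skew polynomial from its coefficients -/
noncomputable def toB (f : ℕ →₀ K[X]) : B K := f.sum fun j c => polyB K c * xB K ^ j

theorem coeff_toB (f : ℕ →₀ K[X]) (n : ℕ) :
    SkewPolynomial.coeff (toB K f) n = toSh K (f n) := by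
  classical
  have h1 : ∀ s : Finset ℕ, SkewPolynomial.coeff (∑ j ∈ s, polyB K (f j) * xB K ^ j) n =
      ∑ j ∈ s, SkewPolynomial.coeff (polyB K (f j) * xB K ^ j) n := by
    intro s
    induction s using Finset.induction_on with
    | empty => simp
    | insert a s ha ih => rw [Finset.sum_insert ha, Finset.sum_insert ha,
        SkewPolynomial.coeff_add, ih]
  rw [toB, Finsupp.sum, h1]
  have h2 : ∀ j, SkewPolynomial.coeff (polyB K (f j) * xB K ^ j) n =
      if j = n then toSh K (f j) else 0 := by
    intro j
    rw [← monomial_eq, SkewPolynomial.coeff_monomial]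
  simp only [h2]
  rw [Finset.sum_ite_eq' f.support n]
  split_ifs with h
  · rfl
  · rw [Finsupp.notMem_support_iff] at h
    rw [h, map_zero]

theorem toB_ne_zero (f : ℕ →₀ K[X]) (hf : f ≠ 0) : toB K f ≠ 0 := by
  intro h
  apply hf
  ext1 n
  have := coeff_toB K f n
  rw [h, SkewPolynomial.coeff_zero] at this
  exact (toSh K).injective (by rw [← this]; rfl)

theorem exists_toB (b : B K) : ∃ f : ℕ →₀ K[X], toB K f = b := by
  classical
  refine ⟨Finsupp.onFinset b.support (fun n => (toSh K).symm (SkewPolynomial.coeff b n)) ?_, ?_⟩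
  · intro n hn
    rw [SkewPolynomial.mem_support_iff]
    intro h
    apply hn
    rw [h, map_zero]
  · apply SkewPolynomial.ext
    intro n
    rw [coeff_toB]
    simp

theorem xB_mul_polyB (f : K[X]) : xB K * polyB K f = polyB K (shift K 1 f) * xB K := by
  rw [polyB_apply, polyB_apply, xB, ← SkewPolynomial.monomial_zero_left,
    ← SkewPolynomial.monomial_zero_left, SkewPolynomial.X_mul_monomial,
    SkewPolynomial.monomial_mul_X]
  rfl

/-- lift of a pair to a ring homomorphism out of `K[g]⟨x⟩` -/
theorem exists_liftB {T : Type*} [Ring T] (θ : K[X] →+* T) (x : T)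
    (h : ∀ f, x * θ f = θ (shift K 1 f) * x) :
    ∃ F : B K →+* T, (∀ f, F (polyB K f) = θ f) ∧ F (xB K) = x := by
  have hn : ∀ (n : ℕ) (f : K[X]), x ^ n * θ f = θ (shift K n f) * x ^ n := by
    intro n
    induction n with
    | zero => intro f; simp [shift_zero]
    | succ n ih =>
      intro f
      rw [pow_succ', mul_assoc, ih, ← mul_assoc, h, ← shift_add, add_comm 1 n, mul_assoc,
        ← pow_succ']
  refine ⟨SkewMonoidAlgebra.liftNCRingHom (θ.comp (toSh K).symm.toRingHom) (powersHom T x) ?_,
    ?_, ?_⟩
  · intro f n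
    have := hn n.toAdd ((toSh K).symm f)
    simp only [RingHom.comp_apply, powersHom_apply]
    exact this.symm
  · intro f
    have := SkewMonoidAlgebra.liftNC_single (((θ.comp (toSh K).symm.toRingHom : Sh K →+* T)) : Sh K →+ T)
      (powersHom T x) 1 (toSh K f)
    refine this.trans ?_
    simp
  · have := SkewMonoidAlgebra.liftNC_single (((θ.comp (toSh K).symm.toRingHom : Sh K →+* T)) : Sh K →+ T)
      (powersHom T x) (Multiplicative.ofAdd 1) (1 : Sh K)
    refine this.trans ?_
    simp

/-- polynomials in `g` inside the division ring -/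
noncomputable def polyD : K[X] →+* Dv K := (num K).comp (polyB K)

noncomputable def gD : Dv K := polyD K X

noncomputable def xD : Dv K := num K (xB K)

theorem xD_mul_polyD (f : K[X]) : xD K * polyD K f = polyD K (shift K 1 f) * xD K := by
  simp only [polyD, xD, RingHom.comp_apply]
  rw [← map_mul, xB_mul_polyB, map_mul]

theorem num_toB (f : ℕ →₀ K[X]) :
    num K (toB K f) = f.sum fun j c => polyD K c * xD K ^ j := by
  rw [toB, Finsupp.sum, map_sum]
  simp only [map_mul, map_pow]
  rfl

theorem sum_ne_zero (f : ℕ →₀ K[X]) (hf : f ≠ 0) :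
    (f.sum fun j c => polyD K c * xD K ^ j) ≠ 0 := by
  rw [← num_toB]
  intro h
  exact toB_ne_zero K f hf (num_injective K (h.trans (map_zero (num K)).symm))

theorem exists_lift {T : Type*} [Ring T] (θ : K[X] →+* T) (x : T)
    (h : ∀ f, x * θ f = θ (shift K 1 f) * x)
    (hu : ∀ f : ℕ →₀ K[X], f ≠ 0 → IsUnit (f.sum fun j c => θ c * x ^ j)) :
    ∃ F : Dv K →+* T, (∀ f, F (polyD K f) = θ f) ∧ F (xD K) = x := by
  obtain ⟨F, hF, hFx⟩ := exists_liftB K θ x h
  have hFt : ∀ f : ℕ →₀ K[X], F (toB K f) = f.sum fun j c => θ c * x ^ j := by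
    intro f
    rw [toB, Finsupp.sum, map_sum]
    simp only [map_mul, map_pow, hF, hFx]
    rfl
  have hU : ∀ s : nonZeroDivisors (B K), IsUnit (F s) := by
    rintro ⟨s, hs⟩
    obtain ⟨f, rfl⟩ := exists_toB K s
    show IsUnit (F (toB K f))
    rw [hFt]
    apply hu
    rintro rfl
    exact nonZeroDivisors.ne_zero hs (by simp [toB])
  refine ⟨(OreLocalization.universalHom F
    (IsUnit.liftRight (F.toMonoidHom.comp (nonZeroDivisors (B K)).subtype) hU) (fun s => rfl) :
      OreLocalization (nonZeroDivisors (B K)) (B K) →+* T), ?_, ?_⟩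
  · intro f
    exact (OreLocalization.universalHom_commutes F _ _).trans (hF f)
  · exact (OreLocalization.universalHom_commutes F _ _).trans hFx

theorem exists_frac (d : Dv K) : ∃ b s : B K, s ≠ 0 ∧ d = (num K s)⁻¹ * num K b := by
  have key : ∀ d : OreLocalization (nonZeroDivisors (B K)) (B K),
      ∃ b s : B K, s ≠ 0 ∧ num K s * (show Dv K from d) = num K b := by
    intro d
    induction d using OreLocalization.ind with
    | _ r s =>
      exact ⟨r, s, nonZeroDivisors.ne_zero s.2,
        OreLocalization.mul_cancel (R := B K) (S := nonZeroDivisors (B K))⟩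
  obtain ⟨b, s, hs, h⟩ := key d
  have hs0 : num K s ≠ 0 := fun h => hs (num_injective K (h.trans (map_zero (num K)).symm))
  exact ⟨b, s, hs, by rw [← h, inv_mul_cancel_left₀ hs0]⟩

theorem closure_eq_top :
    Subfield.closure (Set.range (polyD K) ∪ {xD K}) = ⊤ := by
  rw [eq_top_iff]
  intro d _
  have hmem : ∀ b : B K, num K b ∈ Subfield.closure (Set.range (polyD K) ∪ {xD K}) := by
    intro b
    obtain ⟨f, rfl⟩ := exists_toB K b
    rw [num_toB]
    apply sum_mem
    intro j _
    apply mul_mem
    · exact Subfield.subset_closure (Set.mem_union_left _ (Set.mem_range_self _))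
    · exact pow_mem (Subfield.subset_closure (Set.mem_union_right _ (Set.mem_singleton _))) _
  obtain ⟨b, s, _, rfl⟩ := exists_frac K d
  exact mul_mem (inv_mem (hmem _)) (hmem _)

theorem hom_ext {T : Type*} [Ring T] (F G : Dv K →+* T)
    (h : ∀ f, F (polyD K f) = G (polyD K f)) (hx : F (xD K) = G (xD K)) : F = G := by
  apply RingHom.ext
  intro d
  have hd : d ∈ Subfield.closure (Set.range (polyD K) ∪ {xD K}) := by
    rw [closure_eq_top]; trivial
  induction hd using Subfield.closure_induction with
  | mem x hx' =>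
    rcases hx' with ⟨f, rfl⟩ | hx'
    · exact h f
    · rw [hx']; exact hx
  | one => rw [map_one, map_one]
  | add x y _ _ hx hy => rw [map_add, map_add, hx, hy]
  | neg x _ hx => rw [map_neg, map_neg, hx]
  | inv x _ hx =>
    rcases eq_or_ne x 0 with h0 | h0
    · rw [h0, inv_zero, map_zero, map_zero]
    · have e1 : F x⁻¹ * F x = 1 := by rw [← map_mul, inv_mul_cancel₀ h0, map_one]
      have e2 : G x * G x⁻¹ = 1 := by rw [← map_mul, mul_inv_cancel₀ h0, map_one]
      calc F x⁻¹ = F x⁻¹ * (G x * G x⁻¹) := by rw [e2, mul_one]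
        _ = (F x⁻¹ * F x) * G x⁻¹ := by rw [hx, mul_assoc]
        _ = G x⁻¹ := by rw [e1, one_mul]
  | mul x y _ _ hx hy => rw [map_mul, map_mul, hx, hy]

end iface

end Pool.Agent.Helper619.Weyl
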