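import Mathlib
import Pool.Agent.Helper619.Weyl.Skew

namespace Pool.Agent.Helper619.Weyl

open Polynomial

section tau
variable (K : Type*) [CommRing K] [IsDomain K]

/-- The polynomial `-((g-1)^2+1)((g-1)^2+4)`. -/
noncomputable def rho : K[X] := -(((X - 1) ^ 2 + 1) * ((X - 1) ^ 2 + 4))

theorem xD_ne_zero : xD K ≠ 0 := by
  intro h
  have := sum_ne_zero K (Finsupp.single 1 1) (by simp)
  rw [Finsupp.sum_single_index (by simp), map_one, one_mul, pow_one] at this
  exact this h

theorem polyD_injective : Function.Injective (polyD K) := by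
  rw [injective_iff_map_eq_zero]
  intro f hf
  by_contra h
  have := sum_ne_zero K (Finsupp.single 0 f) (by simpa using h)
  rw [Finsupp.sum_single_index (by simp), pow_zero, mul_one] at this
  exact this hf

theorem rho_ne_zero : rho K ≠ 0 := by
  have h1 : ((X - 1) ^ 2 + 1 : K[X]) = X ^ 2 + C (-2) * X + C 2 := by
    simp only [map_neg, map_ofNat]; ring
  have h2 : ((X - 1) ^ 2 + 4 : K[X]) = X ^ 2 + C (-2) * X + C 5 := by
    simp only [map_neg, map_ofNat]; ring
  rw [rho, neg_ne_zero, h1, h2]
  have m1 : (X ^ 2 + C (-2) * X + C 2 : K[X]).Monic := by monicity!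
  have m2 : (X ^ 2 + C (-2) * X + C 5 : K[X]).Monic := by monicity!
  exact mul_ne_zero m1.ne_zero m2.ne_zero

/-- the inverse shift -/
noncomputable def unshift (n : ℕ) : K[X] →+* K[X] :=
  Polynomial.compRingHom (X - 2 * (n : K[X]))

theorem shift_unshift (n : ℕ) (f : K[X]) : shift K n (unshift K n f) = f := by
  have : (shift K n).comp (unshift K n) = RingHom.id K[X] := by
    apply Polynomial.ringHom_ext
    · intro a; simp [shift, unshift]
    · simp [shift, unshift]
  exact congrArg (fun h : K[X] →+* K[X] => h f) this

theorem unshift_shift (n : ℕ) (f : K[X]) : unshift K n (shift K n f) = f := by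
  have : (unshift K n).comp (shift K n) = RingHom.id K[X] := by
    apply Polynomial.ringHom_ext
    · intro a; simp [shift, unshift]
    · simp [shift, unshift]
  exact congrArg (fun h : K[X] →+* K[X] => h f) this

theorem unshift_ne_zero (n : ℕ) (f : K[X]) (hf : f ≠ 0) : unshift K n f ≠ 0 := by
  intro h
  apply hf
  rw [← shift_unshift K n f, h, map_zero]

theorem inv_xD_mul_polyD (f : K[X]) :
    (xD K)⁻¹ * polyD K f = polyD K (unshift K 1 f) * (xD K)⁻¹ := by
  have h := xD_mul_polyD K (unshift K 1 f)
  rw [shift_unshift] at h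
  have hx := xD_ne_zero K
  rw [eq_mul_inv_iff_mul_eq₀ hx, mul_assoc, ← h, inv_mul_cancel_left₀ hx]

/-- the reflection `g ↦ -g` -/
noncomputable def refl : K[X] →+* K[X] := Polynomial.compRingHom (-X)

theorem refl_refl (f : K[X]) : refl K (refl K f) = f := by
  have : (refl K).comp (refl K) = RingHom.id K[X] := by
    apply Polynomial.ringHom_ext
    · intro a; simp [refl]
    · simp [refl]
  exact congrArg (fun h : K[X] →+* K[X] => h f) this

theorem unshift_refl (f : K[X]) : unshift K 1 (refl K f) = refl K (shift K 1 f) := by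
  have : (unshift K 1).comp (refl K) = (refl K).comp (shift K 1) := by
    apply Polynomial.ringHom_ext
    · intro a; simp [refl, shift, unshift]
    · simp [refl, shift, unshift]; ring
  exact congrArg (fun h : K[X] →+* K[X] => h f) this

theorem refl_rho : refl K (rho K) = shift K 1 (rho K) := by
  simp [refl, rho, shift]
  ring

/-- products of shifted `rho` -/
noncomputable def rprod : ℕ → K[X]
  | 0 => 1
  | n + 1 => rho K * unshift K 1 (rprod n)

theorem rprod_ne_zero (n : ℕ) : rprod K n ≠ 0 := by
  induction n with
  | zero => exact one_ne_zero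
  | succ n ih => exact mul_ne_zero (rho_ne_zero K) (unshift_ne_zero K 1 _ ih)

/-- the image of `x` -/
noncomputable def xD' : Dv K := polyD K (rho K) * (xD K)⁻¹

theorem xD'_pow (n : ℕ) : xD' K ^ n = polyD K (rprod K n) * ((xD K)⁻¹) ^ n := by
  induction n with
  | zero => simp [rprod]
  | succ n ih =>
    rw [pow_succ', ih, xD', rprod, map_mul, mul_assoc, ← mul_assoc ((xD K)⁻¹),
      inv_xD_mul_polyD, pow_succ', mul_assoc, mul_assoc]

theorem exists_tau : ∃ τ : Dv K →+* Dv K,
    (∀ f, τ (polyD K f) = polyD K (refl K f)) ∧ τ (xD K) = polyD K (rho K) * (xD K)⁻¹ := by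
  apply exists_lift K ((polyD K).comp (refl K)) (xD' K)
  · intro f
    simp only [RingHom.comp_apply]
    rw [xD', mul_assoc, inv_xD_mul_polyD, unshift_refl, ← mul_assoc, ← mul_assoc, ← map_mul,
      ← map_mul, mul_comm (rho K)]
  · intro f hf
    apply Ne.isUnit
    intro h0
    simp only [RingHom.comp_apply] at h0
    set n := f.support.sup id with hn
    have hle : ∀ j ∈ f.support, j ≤ n := fun j hj => Finset.le_sup (f := id) hj
    -- multiply by `x^n`
    have h1 : ∑ j ∈ Finset.range (n + 1),
        polyD K (refl K (f j) * rprod K j) * xD K ^ (n - j) = 0 := by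
      have h2 : (f.sum fun j c => polyD K (refl K c) * xD' K ^ j) * xD K ^ n = 0 := by
        rw [h0, zero_mul]
      rw [Finsupp.sum, Finset.sum_mul] at h2
      rw [← h2]
      symm
      apply Finset.sum_subset_zero_on_sdiff
      · intro j hj
        rw [Finset.mem_range]
        have := hle j hj
        omega
      · intro j hj
        rw [Finset.mem_sdiff, Finsupp.mem_support_iff, not_not] at hj
        rw [hj.2, map_zero, zero_mul, map_zero, zero_mul]
      · intro j hj
        have hx := xD_ne_zero K
        rw [xD'_pow, map_mul]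
        have : ((xD K)⁻¹) ^ j * xD K ^ n = xD K ^ (n - j) := by
          have h3 : xD K ^ n = xD K ^ j * xD K ^ (n - j) := by
            rw [← pow_add]; congr 1; have := hle j hj; omega
          rw [h3, ← mul_assoc, inv_pow, inv_mul_cancel₀ (pow_ne_zero _ hx), one_mul]
        rw [mul_assoc, mul_assoc, this, ← mul_assoc]
    rw [← Finset.sum_range_reflect] at h1
    have h4 : ∀ j ∈ Finset.range (n + 1),
        polyD K (refl K (f (n + 1 - 1 - j)) * rprod K (n + 1 - 1 - j)) *
          xD K ^ (n - (n + 1 - 1 - j)) =
        polyD K (refl K (f (n - j)) * rprod K (n - j)) * xD K ^ j := by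
      intro j hj
      rw [Finset.mem_range] at hj
      have e1 : n + 1 - 1 - j = n - j := by omega
      have e2 : n - (n - j) = j := by omega
      rw [e1, e2]
    rw [Finset.sum_congr rfl h4] at h1
    classical
    let g : ℕ →₀ K[X] := Finsupp.onFinset (Finset.range (n + 1))
      (fun j => if j < n + 1 then refl K (f (n - j)) * rprod K (n - j) else 0)
      (by
        intro j hj
        rw [Finset.mem_range]
        by_contra h
        rw [if_neg h] at hj
        exact hj rfl)
    have hg : g ≠ 0 := by
      obtain ⟨j, hj⟩ := Finsupp.support_nonempty_iff.2 hf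
      intro h
      have h5 := DFunLike.congr_fun h (n - j)
      have hjn := hle j hj
      have : g (n - j) = refl K (f j) * rprod K j := by
        show (if n - j < n + 1 then refl K (f (n - (n - j))) * rprod K (n - (n - j)) else 0) = _
        rw [if_pos (by omega)]
        have : n - (n - j) = j := by omega
        rw [this]
      rw [this, Finsupp.zero_apply] at h5
      rcases mul_eq_zero.1 h5 with h6 | h6
      · rw [Finsupp.mem_support_iff] at hj
        apply hj
        rw [← refl_refl K (f j), h6, map_zero]
      · exact rprod_ne_zero K j h6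
    apply sum_ne_zero K g hg
    rw [Finsupp.onFinset_sum]
    · rw [← h1]
      apply Finset.sum_congr rfl
      intro j hj
      rw [Finset.mem_range] at hj
      rw [if_pos hj]
    · intro j
      rw [map_zero, zero_mul]

/-- the involution -/
noncomputable def tau : Dv K →+* Dv K := (exists_tau K).choose

theorem tau_polyD (f : K[X]) : tau K (polyD K f) = polyD K (refl K f) :=
  (exists_tau K).choose_spec.1 f

theorem tau_xD : tau K (xD K) = polyD K (rho K) * (xD K)⁻¹ := (exists_tau K).choose_spec.2

theorem tau_tau (d : Dv K) : tau K (tau K d) = d := by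
  have : (tau K).comp (tau K) = RingHom.id (Dv K) := by
    apply hom_ext
    · intro f
      simp only [RingHom.comp_apply, RingHom.id_apply, tau_polyD, refl_refl]
    · simp only [RingHom.comp_apply, RingHom.id_apply]
      rw [tau_xD, map_mul, tau_polyD, map_inv₀, tau_xD, refl_rho, mul_inv_rev, inv_inv,
        ← mul_assoc, ← xD_mul_polyD, mul_assoc, mul_inv_cancel₀, mul_one]
      intro h
      exact rho_ne_zero K (polyD_injective K (h.trans (map_zero _).symm))
  exact congrArg (fun h : Dv K →+* Dv K => h d) this

theorem tau_gD : tau K (gD K) = -gD K := by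
  rw [gD, tau_polyD]
  simp [refl]

theorem tau_xD' : tau K (xD K) =
    (-(((gD K - 1) ^ 2 + 1) * ((gD K - 1) ^ 2 + 4))) * (xD K)⁻¹ := by
  rw [tau_xD, rho, gD]
  simp only [map_neg, map_mul, map_add, map_pow, map_sub, map_one, map_ofNat]

end tau

end Pool.Agent.Helper619.Weyl
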