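import Mathlib

namespace Pool.Agent.Helper619.Weyl.W4

theorem weyl_comm_right {D : Type*} [DivisionRing D] (X Y : D) (hXY : X * Y - Y * X = 1) (m : ℕ) :
    X * Y ^ m - Y ^ m * X = (m : D) * Y ^ (m - 1) := by
  induction m with
  | zero => simp
  | succ m ih =>
    have h1 : X * Y ^ (m + 1) - Y ^ (m + 1) * X =
        (X * Y ^ m - Y ^ m * X) * Y + Y ^ m * (X * Y - Y * X) := by
      rw [pow_succ]; noncomm_ring
    rw [h1, ih, hXY, mul_one, Nat.add_sub_cancel]
    rcases Nat.eq_zero_or_pos m with rfl | hm
    · simp
    · have h2 : Y ^ m = Y ^ (m - 1) * Y := by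
        rw [← pow_succ]; congr 1; omega
      push_cast
      rw [mul_assoc, ← h2]
      noncomm_ring

theorem weyl_comm_left {D : Type*} [DivisionRing D] (X Y : D) (hXY : X * Y - Y * X = 1) (m : ℕ) :
    X ^ m * Y - Y * X ^ m = (m : D) * X ^ (m - 1) := by
  induction m with
  | zero => simp
  | succ m ih =>
    have h1 : X ^ (m + 1) * Y - Y * X ^ (m + 1) =
        X * (X ^ m * Y - Y * X ^ m) + (X * Y - Y * X) * X ^ m := by
      rw [pow_succ']; noncomm_ring
    rw [h1, ih, hXY, one_mul, Nat.add_sub_cancel]
    rcases Nat.eq_zero_or_pos m with rfl | hm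
    · simp
    · have h2 : X ^ m = X * X ^ (m - 1) := by
        rw [← pow_succ']; congr 1; omega
      push_cast
      have h3 : X * ((m : D) * X ^ (m - 1)) = (m : D) * (X * X ^ (m - 1)) := by
        rw [← mul_assoc, (Nat.cast_commute m X).eq.symm, mul_assoc]
      rw [h3, ← h2]
      noncomm_ring

/-- The centre of a division ring of characteristic `p` generated by a Weyl pair. -/
theorem center_of_weyl_pair (p : ℕ) [Fact p.Prime] {D : Type*} [DivisionRing D] [CharP D p]
    (X Y : D) (hXY : X * Y - Y * X = 1) (hgen : Subfield.closure ({X, Y} : Set D) = ⊤)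
    (z : D) (hz : ∀ d : D, z * d = d * z) :
    z ∈ Subfield.closure ({X ^ p, Y ^ p} : Set D) := by
  have hp : p.Prime := Fact.out
  have hp2 : 2 ≤ p := hp.two_le
  set F := Subfield.closure ({X ^ p, Y ^ p} : Set D) with hF
  -- a criterion for being central
  have hcrit : ∀ a : D, a * X = X * a → a * Y = Y * a → ∀ d : D, a * d = d * a := by
    intro a h1 h2 d
    have hd : d ∈ Subfield.closure ({X, Y} : Set D) := by rw [hgen]; trivial
    induction hd using Subfield.closure_induction with
    | mem x hx =>
      rcases hx with rfl | hx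
      · exact h1
      · rw [Set.mem_singleton_iff] at hx; rw [hx]; exact h2
    | one => rw [mul_one, one_mul]
    | add x y _ _ hx hy => rw [mul_add, add_mul, hx, hy]
    | neg x _ hx => rw [mul_neg, neg_mul, hx]
    | inv x _ hx => exact (Commute.inv_right₀ (show Commute a x from hx)).eq
    | mul x y _ _ hx hy => rw [← mul_assoc, hx, mul_assoc, hy, mul_assoc]
  have hXp : ∀ d : D, X ^ p * d = d * X ^ p := by
    apply hcrit
    · rw [← pow_succ, ← pow_succ']
    · have := weyl_comm_left X Y hXY p
      rw [CharP.cast_eq_zero, zero_mul] at this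
      exact sub_eq_zero.1 this
  have hYp : ∀ d : D, Y ^ p * d = d * Y ^ p := by
    apply hcrit
    · have := weyl_comm_right X Y hXY p
      rw [CharP.cast_eq_zero, zero_mul] at this
      exact (sub_eq_zero.1 this).symm
    · rw [← pow_succ, ← pow_succ']
  have hcen : ∀ f ∈ F, ∀ d : D, f * d = d * f := by
    intro f hf
    induction hf using Subfield.closure_induction with
    | mem x hx =>
      rcases hx with rfl | hx
      · exact hXp
      · rw [Set.mem_singleton_iff] at hx; rw [hx]; exact hYp
    | one => intro d; rw [mul_one, one_mul]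
    | add x y _ _ hx hy => intro d; rw [mul_add, add_mul, hx, hy]
    | neg x _ hx => intro d; rw [mul_neg, neg_mul, hx]
    | inv x _ hx => intro d; exact (Commute.inv_left₀ (show Commute x d from hx d)).eq
    | mul x y _ _ hx hy => intro d; rw [mul_assoc, hy, ← mul_assoc, hx, mul_assoc]
  have hXF : X ^ p ∈ F := Subfield.subset_closure (by simp)
  have hYF : Y ^ p ∈ F := Subfield.subset_closure (by simp)
  -- the span
  let gen : Set D := Set.range (fun q : Fin p × Fin p => X ^ (q.1 : ℕ) * Y ^ (q.2 : ℕ))
  let S : Submodule F D := Submodule.span F gen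
  have hgenS : ∀ i j : ℕ, i < p → j < p → X ^ i * Y ^ j ∈ S := by
    intro i j hi hj
    exact Submodule.subset_span ⟨(⟨i, hi⟩, ⟨j, hj⟩), rfl⟩
  have hsm : ∀ (f : D) (hf : f ∈ F) (x : D), x ∈ S → f * x ∈ S := by
    intro f hf x hx
    exact S.smul_mem (⟨f, hf⟩ : F) hx
  have hgenS' : ∀ i j : ℕ, i ≤ p → j ≤ p → X ^ i * Y ^ j ∈ S := by
    intro i j hi hj
    rcases hi.lt_or_eq with hi | rfl
    · rcases hj.lt_or_eq with hj | rfl
      · exact hgenS i j hi hj
      · rw [← hYp]
        have := hgenS i 0 hi (by omega)
        rw [pow_zero, mul_one] at this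
        exact hsm _ hYF _ this
    · rcases hj.lt_or_eq with hj | hj
      · have := hgenS 0 j (by omega) hj
        rw [pow_zero, one_mul] at this
        exact hsm _ hXF _ this
      · rw [hj]
        have := hgenS 0 0 (by omega) (by omega)
        rw [pow_zero, pow_zero, one_mul] at this
        have h2 := hsm _ hXF _ (hsm _ hYF _ this)
        rwa [mul_one] at h2
  have hone : (1 : D) ∈ S := by
    have := hgenS 0 0 (by omega) (by omega)
    rwa [pow_zero, pow_zero, one_mul] at this
  have hXS : ∀ x ∈ S, X * x ∈ S := by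
    intro x hx
    induction hx using Submodule.span_induction with
    | mem x hx =>
      obtain ⟨⟨i, j⟩, rfl⟩ := hx
      show X * (X ^ (i : ℕ) * Y ^ (j : ℕ)) ∈ S
      rw [← mul_assoc, ← pow_succ']
      exact hgenS' _ _ (by have := i.2; omega) (by have := j.2; omega)
    | zero => rw [mul_zero]; exact S.zero_mem
    | add x y _ _ hx hy => rw [mul_add]; exact S.add_mem hx hy
    | smul a x _ hx =>
      have : X * (a • x) = (a : D) * (X * x) := by
        show X * ((a : D) * x) = _
        rw [← mul_assoc, ← hcen a a.2, mul_assoc]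
      rw [this]; exact hsm _ a.2 _ hx
  have hYS : ∀ x ∈ S, Y * x ∈ S := by
    intro x hx
    induction hx using Submodule.span_induction with
    | mem x hx =>
      obtain ⟨⟨i, j⟩, rfl⟩ := hx
      show Y * (X ^ (i : ℕ) * Y ^ (j : ℕ)) ∈ S
      have h1 : Y * (X ^ (i : ℕ) * Y ^ (j : ℕ)) =
          X ^ (i : ℕ) * Y ^ ((j : ℕ) + 1) - ((i : ℕ) : D) * (X ^ ((i : ℕ) - 1) * Y ^ (j : ℕ)) := by
        rw [← mul_assoc ((i : ℕ) : D), ← weyl_comm_left X Y hXY, pow_succ']
        noncomm_ring
      rw [h1]
      apply S.sub_mem
      · exact hgenS' _ _ (by have := i.2; omega) (by have := j.2; omega)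
      · exact hsm _ (natCast_mem F _) _ (hgenS' _ _ (by have := i.2; omega) (by have := j.2; omega))
    | zero => rw [mul_zero]; exact S.zero_mem
    | add x y _ _ hx hy => rw [mul_add]; exact S.add_mem hx hy
    | smul a x _ hx =>
      have : Y * (a • x) = (a : D) * (Y * x) := by
        show Y * ((a : D) * x) = _
        rw [← mul_assoc, ← hcen a a.2, mul_assoc]
      rw [this]; exact hsm _ a.2 _ hx
  have hmul : ∀ x ∈ S, ∀ y ∈ S, x * y ∈ S := by
    intro x hx y hy
    induction hx using Submodule.span_induction with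
    | mem x hx =>
      obtain ⟨⟨i, j⟩, rfl⟩ := hx
      show X ^ (i : ℕ) * Y ^ (j : ℕ) * y ∈ S
      have hY' : ∀ n : ℕ, Y ^ n * y ∈ S := by
        intro n
        induction n with
        | zero => rwa [pow_zero, one_mul]
        | succ n ih => rw [pow_succ', mul_assoc]; exact hYS _ ih
      have hX' : ∀ n : ℕ, ∀ w ∈ S, X ^ n * w ∈ S := by
        intro n w hw
        induction n with
        | zero => rwa [pow_zero, one_mul]
        | succ n ih => rw [pow_succ', mul_assoc]; exact hXS _ ih
      rw [mul_assoc]
      exact hX' _ _ (hY' _)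
    | zero => rw [zero_mul]; exact S.zero_mem
    | add x y _ _ hx hy => rw [add_mul]; exact S.add_mem hx hy
    | smul a x _ hx =>
      have : (a • x) * y = (a : D) * (x * y) := by
        show ((a : D) * x) * y = _
        rw [mul_assoc]
      rw [this]; exact hsm _ a.2 _ hx
  have hfin : FiniteDimensional F S :=
    FiniteDimensional.span_of_finite F (Set.finite_range _)
  have hinv : ∀ x ∈ S, x⁻¹ ∈ S := by
    intro a ha
    by_cases ha0 : a = 0
    · rw [ha0, inv_zero]; exact S.zero_mem
    let ρ : S →ₗ[F] S :=
      { toFun := fun s => ⟨s.1 * a, hmul _ s.2 _ ha⟩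
        map_add' := by
          intro s t
          apply Subtype.ext
          show (s.1 + t.1) * a = s.1 * a + t.1 * a
          rw [add_mul]
        map_smul' := by
          intro f s
          apply Subtype.ext
          show ((f : D) * s.1) * a = (f : D) * (s.1 * a)
          rw [mul_assoc] }
    have hinj : Function.Injective ρ := by
      intro s t hst
      have h1 : s.1 * a = t.1 * a := congrArg Subtype.val hst
      exact Subtype.ext (mul_right_cancel₀ ha0 h1)
    have hsurj : Function.Surjective ρ := LinearMap.injective_iff_surjective.1 hinj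
    obtain ⟨b, hb⟩ := hsurj ⟨1, hone⟩
    have hb1 : b.1 * a = 1 := congrArg Subtype.val hb
    have hb2 : a⁻¹ = b.1 := by
      rw [eq_comm, ← mul_eq_one_iff_eq_inv₀ ha0]; exact hb1
    rw [hb2]; exact b.2
  let SF : Subfield D :=
    { carrier := S
      mul_mem' := fun {a b} ha hb => hmul a ha b hb
      one_mem' := hone
      add_mem' := fun {a b} ha hb => S.add_mem ha hb
      zero_mem' := S.zero_mem
      neg_mem' := fun {a} ha => S.neg_mem ha
      inv_mem' := fun a ha => hinv a ha }
  have hall : ∀ d : D, d ∈ S := by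
    intro d
    have h1 : Subfield.closure ({X, Y} : Set D) ≤ SF := by
      rw [Subfield.closure_le]
      rintro x (rfl | hx)
      · have := hgenS 1 0 (by omega) (by omega)
        rwa [pow_one, pow_zero, mul_one] at this
      · rw [Set.mem_singleton_iff] at hx
        rw [hx]
        have := hgenS 0 1 (by omega) (by omega)
        rwa [pow_one, pow_zero, one_mul] at this
    rw [hgen] at h1
    exact h1 (Subfield.mem_top d)
  -- the trace-like map
  let dl : D → D := fun d => X * d - d * X
  let ep : D → D := fun d => d * Y - Y * d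
  have dl_add : ∀ (k : ℕ) (a b : D), dl^[k] (a + b) = dl^[k] a + dl^[k] b := by
    intro k
    induction k with
    | zero => intro a b; rfl
    | succ k ih =>
      intro a b
      rw [Function.iterate_succ_apply', Function.iterate_succ_apply', Function.iterate_succ_apply', ih]
      show X * (_ + _) - (_ + _) * X = (X * _ - _ * X) + (X * _ - _ * X)
      rw [mul_add, add_mul]; abel
  have ep_add : ∀ (k : ℕ) (a b : D), ep^[k] (a + b) = ep^[k] a + ep^[k] b := by
    intro k
    induction k with
    | zero => intro a b; rfl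
    | succ k ih =>
      intro a b
      rw [Function.iterate_succ_apply', Function.iterate_succ_apply', Function.iterate_succ_apply', ih]
      show (_ + _) * Y - Y * (_ + _) = (_ * Y - Y * _) + (_ * Y - Y * _)
      rw [mul_add, add_mul]; abel
  have dl_mul : ∀ f : D, (∀ d, f * d = d * f) → ∀ (k : ℕ) (a : D), dl^[k] (f * a) = f * dl^[k] a := by
    intro f hf k
    induction k with
    | zero => intro a; rfl
    | succ k ih =>
      intro a
      rw [Function.iterate_succ_apply', Function.iterate_succ_apply', ih]
      show X * (f * _) - (f * _) * X = f * (X * _ - _ * X)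
      rw [← mul_assoc, ← hf X, mul_sub]; noncomm_ring
  have ep_mul : ∀ f : D, (∀ d, f * d = d * f) → ∀ (k : ℕ) (a : D), ep^[k] (f * a) = f * ep^[k] a := by
    intro f hf k
    induction k with
    | zero => intro a; rfl
    | succ k ih =>
      intro a
      rw [Function.iterate_succ_apply', Function.iterate_succ_apply', ih]
      show (f * _) * Y - Y * (f * _) = f * (_ * Y - Y * _)
      rw [← mul_assoc Y, ← hf Y, mul_sub]; noncomm_ring
  have ncen : ∀ (n : ℕ) (d : D), (n : D) * d = d * (n : D) := fun n d => (Nat.cast_commute n d).eq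
  have dl_gen : ∀ (k i j : ℕ), dl^[k] (X ^ i * Y ^ j) =
      (j.descFactorial k : D) * (X ^ i * Y ^ (j - k)) := by
    intro k i j
    induction k with
    | zero => simp
    | succ k ih =>
      rw [Function.iterate_succ_apply', ih]
      have h1 := dl_mul (j.descFactorial k : D) (ncen _) 1 (X ^ i * Y ^ (j - k))
      rw [Function.iterate_one] at h1
      rw [h1]
      have h2 : dl (X ^ i * Y ^ (j - k)) = ((j - k : ℕ) : D) * (X ^ i * Y ^ (j - (k + 1))) := by
        show X * (X ^ i * Y ^ (j - k)) - X ^ i * Y ^ (j - k) * X = _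
        have h3 : X * (X ^ i * Y ^ (j - k)) - X ^ i * Y ^ (j - k) * X =
            X ^ i * (X * Y ^ (j - k) - Y ^ (j - k) * X) := by
          rw [mul_sub, ← mul_assoc, ← mul_assoc, ← mul_assoc, ← pow_succ, ← pow_succ']
        rw [h3, weyl_comm_right X Y hXY, ← mul_assoc, ← ncen, mul_assoc]
        congr 3
      rw [h2, ← mul_assoc, Nat.descFactorial_succ]
      push_cast
      rw [ncen (j.descFactorial k)]
  have ep_gen : ∀ (k i : ℕ), ep^[k] (X ^ i) = (i.descFactorial k : D) * X ^ (i - k) := by
    intro k i
    induction k with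
    | zero => simp
    | succ k ih =>
      rw [Function.iterate_succ_apply', ih]
      have h1 := ep_mul (i.descFactorial k : D) (ncen _) 1 (X ^ (i - k))
      rw [Function.iterate_one] at h1
      rw [h1]
      have h2 : ep (X ^ (i - k)) = ((i - k : ℕ) : D) * X ^ (i - (k + 1)) := by
        show X ^ (i - k) * Y - Y * X ^ (i - k) = _
        rw [weyl_comm_left X Y hXY]
        congr 2
      rw [h2, ← mul_assoc, Nat.descFactorial_succ, Nat.cast_mul, ncen (i.descFactorial k)]
  have T_gen : ∀ i j : ℕ, i < p → j < p → ep^[p-1] (dl^[p-1] (X ^ i * Y ^ j)) =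
      (j.descFactorial (p-1) : D) * (i.descFactorial (p-1) : D) := by
    intro i j hi hj
    rw [dl_gen, ep_mul _ (ncen _)]
    congr 1
    rcases Nat.lt_or_ge j (p-1) with h | h
    · -- then the first factor vanishes, so we only need the identity up to that factor
      have e1 : j - (p - 1) = 0 := by omega
      rw [e1, pow_zero, mul_one, ep_gen]
      have e2 : i - (p - 1) = 0 := by omega
      rw [e2, pow_zero, mul_one]
    · have e1 : j - (p - 1) = 0 := by omega
      rw [e1, pow_zero, mul_one, ep_gen]
      have e2 : i - (p - 1) = 0 := by omega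
      rw [e2, pow_zero, mul_one]
  have T_mem : ∀ d : D, ep^[p-1] (dl^[p-1] d) ∈ F := by
    intro d
    have hd := hall d
    induction hd using Submodule.span_induction with
    | mem x hx =>
      obtain ⟨⟨i, j⟩, rfl⟩ := hx
      show ep^[p-1] (dl^[p-1] (X ^ (i : ℕ) * Y ^ (j : ℕ))) ∈ F
      rw [T_gen _ _ i.2 j.2]
      exact F.mul_mem (natCast_mem F _) (natCast_mem F _)
    | zero =>
      have h1 := dl_add (p-1) 0 0
      have h2 := ep_add (p-1) 0 0
      rw [add_zero] at h1 h2
      have h3 : dl^[p-1] (0:D) = 0 := by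
        have := h1; simpa using this
      have h4 : ep^[p-1] (0:D) = 0 := by
        have := h2; simpa using this
      rw [h3, h4]; exact F.zero_mem
    | add x y _ _ hx hy => rw [dl_add, ep_add]; exact F.add_mem hx hy
    | smul a x _ hx =>
      have : a • x = (a : D) * x := rfl
      rw [this, dl_mul _ (hcen a a.2), ep_mul _ (hcen a a.2)]
      exact F.mul_mem a.2 hx
  -- conclusion
  have h1 := T_mem (z * (X ^ (p-1) * Y ^ (p-1)))
  rw [dl_mul z hz, ep_mul z hz, T_gen _ _ (by omega) (by omega), Nat.descFactorial_self] at h1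
  have hne : (((p-1).factorial : ℕ) : D) ≠ 0 := by
    intro h
    rw [CharP.cast_eq_zero_iff D p, hp.dvd_factorial] at h
    omega
  have h2 : ((((p-1).factorial : ℕ) : D) * (((p-1).factorial : ℕ) : D)) ∈ F :=
    F.mul_mem (natCast_mem F _) (natCast_mem F _)
  have h3 := F.mul_mem h1 (F.inv_mem h2)
  rwa [mul_inv_cancel_right₀ (mul_ne_zero hne hne)] at h3

end Pool.Agent.Helper619.Weyl.W4
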