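import Mathlib

namespace Pool.Agent.Helper619.Weyl.W6

open Polynomial

theorem W6_base_poly (p : ℕ) [Fact p.Prime] : ∏ a : ZMod p, (X - C a : (ZMod p)[X]) = X ^ p - X := by
  have hp := (Fact.out : p.Prime)
  have h1 : (X ^ p - X : (ZMod p)[X]).Monic := by
    apply monic_X_pow_sub
    rw [degree_X]; exact_mod_cast hp.one_lt
  have hr : (X ^ p - X : (ZMod p)[X]).roots = (Finset.univ : Finset (ZMod p)).val := by
    have := FiniteField.roots_X_pow_card_sub_X (ZMod p)
    rwa [ZMod.card] at this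
  have h2 := prod_multiset_X_sub_C_of_monic_of_roots_card_eq h1 (by
    rw [hr, FiniteField.X_pow_card_sub_X_natDegree_eq _ hp.one_lt]
    simp [ZMod.card])
  rw [hr] at h2
  exact h2

theorem W6_base_eval (p : ℕ) [Fact p.Prime] (hp2 : p ≠ 2) {K : Type*} [CommRing K] [CharP K p] (y : K) :
    ∏ j ∈ Finset.range p, (y - 2 * (j : K)) = y ^ p - y := by
  have hp := (Fact.out : p.Prime)
  let _ := ZMod.algebra K p
  have h := congrArg (aeval y) (W6_base_poly p)
  rw [map_prod] at h
  simp only [map_sub, aeval_X, aeval_C, map_pow] at h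
  rw [← h]
  have h2 : (2 : ZMod p) ≠ 0 := by
    intro h0
    have : ((2 : ℕ) : ZMod p) = 0 := by exact_mod_cast h0
    rw [ZMod.natCast_eq_zero_iff] at this
    exact hp2 ((Nat.prime_dvd_prime_iff_eq hp Nat.prime_two).1 this)
  rw [← Equiv.prod_comp (Equiv.mulLeft₀ (2 : ZMod p) h2) (fun a => y - algebraMap (ZMod p) K a)]
  refine Finset.prod_bij (fun j _ => (j : ZMod p)) (by simp) ?_ ?_ ?_
  · intro a ha b hb hab
    rw [Finset.mem_range] at ha hb
    have := (ZMod.natCast_eq_natCast_iff' a b p).1 hab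
    rwa [Nat.mod_eq_of_lt ha, Nat.mod_eq_of_lt hb] at this
  · intro b _
    exact ⟨b.val, Finset.mem_range.2 (ZMod.val_lt b), ZMod.natCast_zmod_val b⟩
  · intro j _
    have e2 : algebraMap (ZMod p) K 2 = 2 := map_ofNat _ 2
    simp [e2]

theorem prod_shift_sq_add (p : ℕ) [Fact p.Prime] (hp : p % 4 = 3) {R : Type*} [CommRing R]
    [CharP R p] (e : R) (a : ℤ) :
    ∏ j ∈ Finset.range p, ((e - 2 * (j : R)) ^ 2 + (a : R) ^ 2) =
      (e ^ p - e) ^ 2 + 4 * (a : R) ^ 2 := by
  have hpp := (Fact.out : p.Prime)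
  have hp2 : p ≠ 2 := by rintro rfl; omega
  let K := QuadraticAlgebra R (-1) 0
  have hinj : Function.Injective (algebraMap R K) := QuadraticAlgebra.algebraMap_injective
  have : CharP K p := charP_of_injective_algebraMap hinj p
  apply hinj
  let i : K := ⟨0, 1⟩
  have hi2 : i ^ 2 = -1 := by
    rw [sq]
    ext <;> simp [i, K, QuadraticAlgebra.re_one, QuadraticAlgebra.im_one]
  have hi : i ^ p = - i := by
    have : p = 2 * (2 * (p / 4) + 1) + 1 := by omega
    rw [this, pow_succ, pow_mul, hi2, Odd.neg_one_pow ⟨p / 4, rfl⟩]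
    ring
  have ha : ((a : K)) ^ p = (a : K) := by
    let _ := ZMod.algebra K p
    have h1 : ((a : ZMod p)) ^ p = (a : ZMod p) := ZMod.pow_card _
    have h2 := congrArg (algebraMap (ZMod p) K) h1
    rw [map_pow, map_intCast] at h2
    exact h2
  set E : K := algebraMap R K e with hE
  set z : K := i * a with hz
  have hz2 : z ^ 2 = - (a : K) ^ 2 := by rw [hz, mul_pow, hi2]; ring
  have hzp : z ^ p = - z := by rw [hz, mul_pow, hi, ha]; ring
  have h1 := W6_base_eval p hp2 (E - z)
  have h2 := W6_base_eval p hp2 (E + z)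
  rw [sub_pow_char, hzp] at h1
  rw [add_pow_char, hzp] at h2
  rw [map_prod]
  have h3 : ∀ j ∈ Finset.range p, algebraMap R K ((e - 2 * (j : R)) ^ 2 + (a : R) ^ 2) =
      (E - z - 2 * (j : K)) * (E + z - 2 * (j : K)) := by
    intro j _
    simp only [map_add, map_pow, map_sub, map_mul, map_natCast, map_intCast, map_ofNat]
    rw [← hE]
    linear_combination hz2
  rw [Finset.prod_congr rfl h3, Finset.prod_mul_distrib, h1, h2]
  simp only [map_add, map_pow, map_sub, map_mul, map_intCast, map_ofNat]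
  rw [← hE]
  linear_combination (-4) * hz2

end Pool.Agent.Helper619.Weyl.W6
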