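import Mathlib
import Pool.Agent.Helper619.Weyl.W4
import Pool.Agent.Helper619.Weyl.W6

namespace Pool.Agent.Helper619.Weyl.W10

open W4
open W6

section Helpers
open Polynomial

theorem C_two' {p : ℕ} : (C (2 : ZMod p) : (ZMod p)[X]) = 2 := map_ofNat C 2

theorem C_shift {p : ℕ} (j : ℕ) :
    (C (2 * (j : ZMod p)) : (ZMod p)[X]) = 2 * (j : (ZMod p)[X]) := by
  rw [map_mul, C_two', map_natCast]

/-- twisting a polynomial in `g` past `x⁻¹` -/
theorem semi_aeval {p : ℕ} [Fact p.Prime] {D : Type*} [DivisionRing D] [Algebra (ZMod p) D]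
    {a g h : D} (hs : SemiconjBy a g h) (f : (ZMod p)[X]) :
    SemiconjBy a (aeval g f) (aeval h f) := by
  induction f using Polynomial.induction_on' with
  | add q r hq hr => rw [map_add, map_add]; exact hq.add_right hr
  | monomial n c =>
    rw [aeval_monomial, aeval_monomial]
    exact SemiconjBy.mul_right (Algebra.commutes c a).symm (hs.pow_right n)

theorem twisted_pow {p : ℕ} [Fact p.Prime] {D : Type*} [DivisionRing D] [Algebra (ZMod p) D]
    (g x : D) (hxg : SemiconjBy x⁻¹ g (g - 2)) (f : (ZMod p)[X]) (n : ℕ) :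
    (aeval g f * x⁻¹) ^ n =
      aeval g (∏ j ∈ Finset.range n, f.comp (X - C (2 * (j : ZMod p)))) * x⁻¹ ^ n := by
  induction n with
  | zero => simp
  | succ n ih =>
    have h1 := semi_aeval hxg (∏ j ∈ Finset.range n, f.comp (X - C (2 * (j : ZMod p))))
    have h2 : aeval (g - 2) (∏ j ∈ Finset.range n, f.comp (X - C (2 * (j : ZMod p)))) =
        aeval g (∏ j ∈ Finset.range n, f.comp (X - C (2 * ((j + 1 : ℕ) : ZMod p)))) := by
      have e : (∏ j ∈ Finset.range n, f.comp (X - C (2 * ((j + 1 : ℕ) : ZMod p)))) =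
          (∏ j ∈ Finset.range n, f.comp (X - C (2 * (j : ZMod p)))).comp (X - C 2) := by
        rw [Polynomial.prod_comp]
        refine Finset.prod_congr rfl fun j _ => ?_
        rw [Polynomial.comp_assoc]
        congr 1
        simp only [sub_comp, X_comp, C_comp]
        rw [C_shift, C_shift, C_two']
        push_cast
        ring
      rw [e, aeval_comp]
      have e5 : aeval g (X - C (2 : ZMod p)) = g - 2 := by
        rw [C_two', map_sub, aeval_X]
        congr 1
        exact map_ofNat (aeval g) 2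
      rw [e5]
    rw [pow_succ', ih, Finset.prod_range_succ', map_mul]
    have e3 : aeval g (f.comp (X - C (2 * ((0 : ℕ) : ZMod p)))) = aeval g f := by simp
    rw [e3, ← h2]
    have h3 : x⁻¹ * aeval g (∏ j ∈ Finset.range n, f.comp (X - C (2 * (j : ZMod p)))) =
        aeval (g - 2) (∏ j ∈ Finset.range n, f.comp (X - C (2 * (j : ZMod p)))) * x⁻¹ := h1
    have h4 : Commute (aeval (g - 2) (∏ j ∈ Finset.range n, f.comp (X - C (2 * (j : ZMod p)))))
        (aeval g f) := by
      rw [h2]
      show _ * _ = _ * _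
      rw [← map_mul, ← map_mul, mul_comm]
    rw [h4.eq, pow_succ', mul_assoc, ← mul_assoc x⁻¹, h3]
    simp only [mul_assoc]

theorem two_pow_char {p : ℕ} [Fact p.Prime] {D : Type*} [DivisionRing D] [CharP D p] :
    (2 : D) ^ p = 2 := by
  letI : Algebra (ZMod p) D := ZMod.algebra D p
  have h1 : (2 : ZMod p) ^ p = 2 := ZMod.pow_card 2
  have h2 := congrArg (algebraMap (ZMod p) D) h1
  rw [map_pow] at h2
  have h3 : algebraMap (ZMod p) D 2 = 2 := map_ofNat (algebraMap (ZMod p) D) 2
  rwa [h3] at h2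

theorem comm_facts {p : ℕ} [Fact p.Prime] {D : Type*} [DivisionRing D]
    [CharP D p] (g x : D) (hxg : x * g = (g + 2) * x) :
    (∀ d ∈ ({g, x} : Set D), (g ^ p - g) * d = d * (g ^ p - g) ∧ x ^ p * d = d * x ^ p) := by
  have h2c : Commute g (2 : D) := Commute.ofNat_right g 2
  have hx1 : (g ^ p - g) * x = x * (g ^ p - g) := by
    have hs : SemiconjBy x g (g + 2) := hxg
    have h1 : x * g ^ p = (g + 2) ^ p * x := hs.pow_right p
    have h3 : (g + 2) ^ p = g ^ p + 2 := by
      rw [add_pow_char_of_commute (p := p) h2c, two_pow_char]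
    rw [mul_sub, h1, h3, hxg]
    noncomm_ring
  have hpg : ∀ n : ℕ, x ^ n * g = (g + 2 * n) * x ^ n := by
    intro n
    induction n with
    | zero => simp
    | succ n ih =>
      rw [pow_succ, mul_assoc, hxg, ← mul_assoc, mul_add, ih]
      have : x ^ n * 2 = 2 * x ^ n := (Commute.ofNat_right (x ^ n) 2).eq
      rw [this]
      push_cast
      noncomm_ring
  have hpg' : x ^ p * g = g * x ^ p := by
    rw [hpg p, CharP.cast_eq_zero]; simp
  intro d hd
  rcases hd with hd | hd
  · subst hd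
    refine ⟨?_, hpg'⟩
    have : Commute (d ^ p - d) d := (Commute.pow_self d p).sub_left (Commute.refl d)
    exact this.eq
  · have hd : d = x := hd
    subst hd
    exact ⟨hx1, (Commute.pow_self d p).eq⟩

theorem semi_inv {D : Type*} [DivisionRing D] (g x : D) (hx : x ≠ 0)
    (hxg : x * g = (g + 2) * x) : SemiconjBy x⁻¹ g (g - 2) := by
  have h1 : SemiconjBy x (g - 2) g := by
    show x * (g - 2) = g * x
    rw [mul_sub, hxg]
    have : x * 2 = 2 * x := (Commute.ofNat_right x 2).eq
    rw [this]; noncomm_ring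
  exact SemiconjBy.inv_symm_left_iff₀.2 h1

end Helpers

open Polynomial in
/-- TARGET 1 -/
theorem pow_of_twisted (p : ℕ) [Fact p.Prime] (hp : p % 4 = 3) {D : Type*} [DivisionRing D]
    [CharP D p] (g x : D) (hx : x ≠ 0) (hxg : x * g = (g + 2) * x) :
    (∀ d ∈ ({g, x} : Set D), (g ^ p - g) * d = d * (g ^ p - g) ∧ x ^ p * d = d * x ^ p) ∧
    x ^ p * ((-(((g - 1) ^ 2 + 1) * ((g - 1) ^ 2 + 4))) * x⁻¹) ^ p =
      -(((g ^ p - g) ^ 2 + 4) * ((g ^ p - g) ^ 2 + 16)) := by
  refine ⟨comm_facts g x hxg, ?_⟩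
  letI : Algebra (ZMod p) D := ZMod.algebra D p
  set f : (ZMod p)[X] := -(((X - 1) ^ 2 + 1) * ((X - 1) ^ 2 + 4)) with hf
  have a4 : aeval g (4 : (ZMod p)[X]) = 4 := map_ofNat (aeval g) 4
  have a16 : aeval g (16 : (ZMod p)[X]) = 16 := map_ofNat (aeval g) 16
  have ef : aeval g f = -(((g - 1) ^ 2 + 1) * ((g - 1) ^ 2 + 4)) := by
    simp [hf, a4]
  rw [← ef, twisted_pow g x (semi_inv g x hx hxg)]
  have hpodd : Odd p := by
    rw [Nat.odd_iff]; omega
  have hprod : (∏ j ∈ Finset.range p, f.comp (X - C (2 * (j : ZMod p)))) =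
      -(((X ^ p - X) ^ 2 + 4) * ((X ^ p - X) ^ 2 + 16)) := by
    have e1 : ∀ j : ℕ, f.comp (X - C (2 * (j : ZMod p))) =
        (-1) * ((((X - 1) - 2 * (j : (ZMod p)[X])) ^ 2 + ((1 : ℤ) : (ZMod p)[X]) ^ 2) *
          (((X - 1) - 2 * (j : (ZMod p)[X])) ^ 2 + ((2 : ℤ) : (ZMod p)[X]) ^ 2)) := by
      intro j
      rw [hf, C_shift]
      simp only [neg_comp, mul_comp, add_comp, pow_comp, sub_comp, X_comp, one_comp]
      have e4 : (4 : (ZMod p)[X]).comp (X - 2 * (j : (ZMod p)[X])) = 4 := by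
        simp
      rw [e4]
      push_cast
      ring
    have e2 : ((X : (ZMod p)[X]) - 1) ^ p - (X - 1) = X ^ p - X := by
      rw [sub_pow_char]; simp
    rw [Finset.prod_congr rfl (fun j _ => e1 j), Finset.prod_mul_distrib, Finset.prod_mul_distrib,
      prod_shift_sq_add p hp, prod_shift_sq_add p hp, e2, Finset.prod_const, Finset.card_range,
      hpodd.neg_one_pow]
    push_cast
    ring
  rw [hprod]
  set F : (ZMod p)[X] := -(((X ^ p - X) ^ 2 + 4) * ((X ^ p - X) ^ 2 + 16)) with hF
  have eF : aeval g F = -(((g ^ p - g) ^ 2 + 4) * ((g ^ p - g) ^ 2 + 16)) := by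
    simp [hF, a4, a16]
  have hc : SemiconjBy (x ^ p) g g := ((comm_facts (p := p) g x hxg) g (by simp)).2
  have hc2 : x ^ p * aeval g F = aeval g F * x ^ p := semi_aeval hc F
  rw [← mul_assoc, hc2, mul_assoc, inv_pow, mul_inv_cancel₀ (pow_ne_zero p hx), mul_one, eF]

open Polynomial in
/-- TARGET 2 : the centre of a division ring of char `p` generated by
`g, x` with `x g = (g+2) x` is generated by `g^p - g` and `x^p`. -/
theorem center_of_shift_pair (p : ℕ) [Fact p.Prime] (hp : p % 4 = 3) {D : Type*} [DivisionRing D]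
    [CharP D p] (g x : D) (hx : x ≠ 0) (hxg : x * g = (g + 2) * x)
    (hgen : Subfield.closure ({g, x} : Set D) = ⊤)
    (z : D) (hz : ∀ d : D, z * d = d * z) :
    z ∈ Subfield.closure ({g ^ p - g, x ^ p} : Set D) := by
  letI : Algebra (ZMod p) D := ZMod.algebra D p
  have hp2 : p ≠ 2 := by rintro rfl; omega
  have hprime : p.Prime := Fact.out
  have h2 : (2 : D) ≠ 0 := by
    have h := (CharP.cast_eq_zero_iff D p 2)
    intro h0
    have h1 : p ∣ 2 := h.1 (by exact_mod_cast h0)
    exact hp2 ((Nat.prime_dvd_prime_iff_eq hprime Nat.prime_two).1 h1)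
  have h2' : (2 : ZMod p) ≠ 0 := by
    have h := (CharP.cast_eq_zero_iff (ZMod p) p 2)
    intro h0
    have h1 : p ∣ 2 := h.1 (by exact_mod_cast h0)
    exact hp2 ((Nat.prime_dvd_prime_iff_eq hprime Nat.prime_two).1 h1)
  have h2c : ∀ d : D, d * 2⁻¹ = 2⁻¹ * d := fun d =>
    ((Commute.ofNat_right d 2).inv_right₀).eq
  set f : (ZMod p)[X] := C (2⁻¹) * (X - 1) with hf
  have a2 : algebraMap (ZMod p) D 2 = 2 := map_ofNat (algebraMap (ZMod p) D) 2
  have ef : aeval g f = 2⁻¹ * (g - 1) := by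
    simp [hf, a2]
  set y : D := 2⁻¹ * (g - 1) * x⁻¹ with hy
  have hyx : y * x = 2⁻¹ * (g - 1) := by
    rw [hy, mul_assoc, inv_mul_cancel₀ hx, mul_one]
  have hxy : x * y = 2⁻¹ * (g + 1) := by
    rw [hy, ← mul_assoc, ← mul_assoc, h2c x, mul_assoc 2⁻¹ x (g - 1)]
    have : x * (g - 1) = (g + 1) * x := by
      rw [mul_sub, hxg]; noncomm_ring
    rw [this, mul_assoc, mul_assoc, mul_inv_cancel₀ hx, mul_one]
  have hW : x * y - y * x = 1 := by
    rw [hxy, hyx, ← mul_sub]
    have : g + 1 - (g - 1) = 2 := by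
      have : g + 1 - (g - 1) = 1 + 1 := by abel
      rw [this]; norm_num
    rw [this, inv_mul_cancel₀ h2]
  have hgen' : Subfield.closure ({x, y} : Set D) = ⊤ := by
    rw [eq_top_iff, ← hgen]
    refine Subfield.closure_le.2 ?_
    intro d hd
    have hxm : x ∈ Subfield.closure ({x, y} : Set D) := Subfield.subset_closure (by simp)
    have hym : y ∈ Subfield.closure ({x, y} : Set D) := Subfield.subset_closure (by simp)
    rcases hd with hd | hd
    · subst hd
      have h3 : d = 2 * (y * x) + 1 := by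
        rw [hyx, ← mul_assoc, mul_inv_cancel₀ h2]; noncomm_ring
      have h2m : (2 : D) ∈ Subfield.closure ({x, y} : Set D) := by
        have := add_mem (one_mem (Subfield.closure ({x, y} : Set D))) (one_mem _)
        rwa [one_add_one_eq_two] at this
      rw [h3]
      exact add_mem (mul_mem h2m (mul_mem hym hxm)) (one_mem _)
    · have hd : d = x := hd
      rw [hd]; exact hxm
  have hz1 := center_of_weyl_pair p x y hW hgen' z hz
  have hyp : y ^ p = 2⁻¹ * (g ^ p - g) * (x ^ p)⁻¹ := by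
    rw [hy, ← ef, twisted_pow g x (semi_inv g x hx hxg)]
    have hprod : (∏ j ∈ Finset.range p, f.comp (X - C (2 * (j : ZMod p)))) =
        C (2⁻¹) * (X ^ p - X) := by
      have e1 : ∀ j : ℕ, f.comp (X - C (2 * (j : ZMod p))) =
          C (2⁻¹) * ((X - 1) - 2 * (j : (ZMod p)[X])) := by
        intro j
        rw [hf, C_shift]
        simp only [mul_comp, sub_comp, X_comp, one_comp, C_comp]
        ring
      have e2 : ((X : (ZMod p)[X]) - 1) ^ p - (X - 1) = X ^ p - X := by
        rw [sub_pow_char]; simp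
      rw [Finset.prod_congr rfl (fun j _ => e1 j), Finset.prod_mul_distrib,
        W6_base_eval p hp2, e2, Finset.prod_const, Finset.card_range, ← map_pow, ZMod.pow_card]
    rw [hprod, inv_pow]
    congr 1
    simp [a2]
  refine (Subfield.closure_le.2 ?_) hz1
  intro d hd
  have ha : g ^ p - g ∈ Subfield.closure ({g ^ p - g, x ^ p} : Set D) :=
    Subfield.subset_closure (by simp)
  have hb : x ^ p ∈ Subfield.closure ({g ^ p - g, x ^ p} : Set D) :=
    Subfield.subset_closure (by simp)
  rcases hd with hd | hd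
  · rw [hd]; exact hb
  · have hd : d = y ^ p := hd
    have h2m : (2 : D) ∈ Subfield.closure ({g ^ p - g, x ^ p} : Set D) := by
      have := add_mem (one_mem (Subfield.closure ({g ^ p - g, x ^ p} : Set D))) (one_mem _)
      rwa [one_add_one_eq_two] at this
    rw [hd, hyp]
    exact mul_mem (mul_mem (inv_mem h2m) ha) (inv_mem hb)

end Pool.Agent.Helper619.Weyl.W10
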