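import Mathlib

namespace Pool.Agent.Helper619.Weyl.W5

theorem decomp_add_mul {D : Type*} [DivisionRing D] (h2 : (2 : D) ≠ 0) (g x x' : D) (hg : g ≠ 0)
    (hx : x * g = (g + 2) * x) (hx' : x' * g = (g - 2) * x')
    (hgen : Subfield.closure ({g, x} : Set D) = ⊤)
    (hgK : g ∉ Subfield.closure ({g ^ 2, x + x', g * (x - x')} : Set D)) (d : D) :
    ∃ a ∈ Subfield.closure ({g ^ 2, x + x', g * (x - x')} : Set D),
      ∃ b ∈ Subfield.closure ({g ^ 2, x + x', g * (x - x')} : Set D), d = a + g * b := by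
  set K := Subfield.closure ({g ^ 2, x + x', g * (x - x')} : Set D) with hK
  have hg2 : g ^ 2 ∈ K := Subfield.subset_closure (by simp)
  have hal : x + x' ∈ K := Subfield.subset_closure (by simp)
  have hbe : g * (x - x') ∈ K := Subfield.subset_closure (by simp)
  have h2K : (2 : D) ∈ K := by
    have : (2 : D) = 1 + 1 := by norm_num
    rw [this]; exact K.add_mem K.one_mem K.one_mem
  have hg2i : (g ^ 2)⁻¹ ∈ K := K.inv_mem hg2
  have hc2 : ∀ a : D, 2 * a = a * 2 := fun a => by rw [two_mul, mul_two]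
  -- conjugation
  let φ : D →+* D :=
    { toFun := fun k => g⁻¹ * k * g
      map_one' := by simp [hg]
      map_mul' := fun a b => by
        have : g * g⁻¹ = 1 := mul_inv_cancel₀ hg
        calc g⁻¹ * (a * b) * g = g⁻¹ * a * 1 * b * g := by rw [mul_one]; simp only [mul_assoc]
          _ = g⁻¹ * a * (g * g⁻¹) * b * g := by rw [this]
          _ = _ := by simp only [mul_assoc]
      map_zero' := by simp
      map_add' := fun a b => by rw [mul_add, add_mul] }
  have hφ : ∀ k, φ k = g⁻¹ * k * g := fun k => rfl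
  have hsub : K ≤ K.comap φ := by
    rw [hK, Subfield.closure_le]
    intro k hk
    rw [← hK]
    simp only [Set.mem_insert_iff, Set.mem_singleton_iff] at hk
    show φ k ∈ K
    rw [hφ]
    rcases hk with rfl | rfl | rfl
    · have : g⁻¹ * g ^ 2 * g = g ^ 2 := by
        rw [sq, ← mul_assoc g⁻¹, inv_mul_cancel₀ hg, one_mul]
      rw [this]; exact hg2
    · have e : g⁻¹ * (x + x') * g = (x + x') + 2 * ((g ^ 2)⁻¹ * (g * (x - x'))) := by
        have e1 : (x + x') * g = g * (x + x') + 2 * (x - x') := by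
          rw [add_mul, hx, hx', add_mul, sub_mul, mul_add, mul_sub]; abel
        have e2 : (g ^ 2)⁻¹ * (g * (x - x')) = g⁻¹ * (x - x') := by
          rw [sq, mul_inv_rev, ← mul_assoc, mul_assoc g⁻¹ g⁻¹ g, inv_mul_cancel₀ hg, mul_one]
        rw [mul_assoc, e1, mul_add, ← mul_assoc, inv_mul_cancel₀ hg, one_mul, e2, ← mul_assoc g⁻¹ 2,
          ← hc2 g⁻¹, mul_assoc]
      rw [e]
      exact K.add_mem hal (K.mul_mem h2K (K.mul_mem hg2i hbe))
    · have e : g⁻¹ * (g * (x - x')) * g = g * (x - x') + 2 * (x + x') := by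
        rw [← mul_assoc, inv_mul_cancel₀ hg, one_mul, sub_mul, hx, hx', add_mul, sub_mul, mul_sub,
          mul_add]
        abel
      rw [e]
      exact K.add_mem hbe (K.mul_mem h2K hal)
  have hconj : ∀ k ∈ K, g⁻¹ * k * g ∈ K := fun k hk => hsub hk
  have hmul : ∀ a : D, a * g = g * (g⁻¹ * a * g) := by
    intro a
    rw [mul_assoc g⁻¹, ← mul_assoc g, mul_inv_cancel₀ hg, one_mul]
  have hEmul : ∀ p q : D, (∃ a ∈ K, ∃ b ∈ K, p = a + g * b) → (∃ a ∈ K, ∃ b ∈ K, q = a + g * b) →
      ∃ a ∈ K, ∃ b ∈ K, p * q = a + g * b := by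
    rintro p q ⟨a, ha, b, hb, rfl⟩ ⟨c, hc, d, hd, rfl⟩
    refine ⟨a * c + g ^ 2 * ((g⁻¹ * b * g) * d),
      K.add_mem (K.mul_mem ha hc) (K.mul_mem hg2 (K.mul_mem (hconj b hb) hd)),
      (g⁻¹ * a * g) * d + b * c,
      K.add_mem (K.mul_mem (hconj a ha) hd) (K.mul_mem hb hc), ?_⟩
    have e1 : a * (g * d) = g * ((g⁻¹ * a * g) * d) := by
      rw [← mul_assoc, hmul a, mul_assoc]
    have e2 : g * b * (g * d) = g ^ 2 * ((g⁻¹ * b * g) * d) := by
      rw [← mul_assoc (g * b), mul_assoc g b g, hmul b, sq]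
      simp only [mul_assoc]
    rw [add_mul, mul_add, mul_add, e1, e2, mul_assoc g b c, mul_add g]
    abel
  let E : Subfield D :=
    { carrier := {p | ∃ a ∈ K, ∃ b ∈ K, p = a + g * b}
      mul_mem' := fun {p q} hp hq => hEmul p q hp hq
      one_mem' := ⟨1, K.one_mem, 0, K.zero_mem, by simp⟩
      add_mem' := by
        rintro p q ⟨a, ha, b, hb, rfl⟩ ⟨c, hc, d, hd, rfl⟩
        exact ⟨a + c, K.add_mem ha hc, b + d, K.add_mem hb hd, by rw [mul_add]; abel⟩
      zero_mem' := ⟨0, K.zero_mem, 0, K.zero_mem, by simp⟩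
      neg_mem' := by
        rintro p ⟨a, ha, b, hb, rfl⟩
        exact ⟨-a, K.neg_mem ha, -b, K.neg_mem hb, by rw [mul_neg]; abel⟩
      inv_mem' := by
        rintro p ⟨a, ha, b, hb, rfl⟩
        by_cases hb0 : b = 0
        · subst hb0
          exact ⟨a⁻¹, K.inv_mem ha, 0, K.zero_mem, by simp⟩
        · set c := a * b⁻¹ with hc
          have hcK : c ∈ K := K.mul_mem ha (K.inv_mem hb)
          set c' := g⁻¹ * c * g with hc'
          have hc'K : c' ∈ K := hconj c hcK
          set n := g ^ 2 - c * c' with hn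
          have hnK : n ∈ K := K.sub_mem hg2 (K.mul_mem hcK hc'K)
          have e1 : (g + c) * (g - c') = n := by
            rw [add_mul, mul_sub, mul_sub, hmul c, ← hc', hn, sq]
            abel
          have hgc : g + c ≠ 0 := by
            intro h
            apply hgK
            have : g = -c := eq_neg_of_add_eq_zero_left h
            rw [this]; exact K.neg_mem hcK
          have hgc' : g - c' ≠ 0 := by
            intro h
            apply hgK
            rw [sub_eq_zero.1 h]; exact hc'K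
          have hn0 : n ≠ 0 := by rw [← e1]; exact mul_ne_zero hgc hgc'
          have e2 : (g + c)⁻¹ = (g - c') * n⁻¹ := by
            apply inv_eq_of_mul_eq_one_right
            rw [← mul_assoc, e1, mul_inv_cancel₀ hn0]
          have e3 : a + g * b = (g + c) * b := by
            rw [add_mul, hc, mul_assoc, inv_mul_cancel₀ hb0, mul_one, add_comm]
          rw [e3, mul_inv_rev, e2]
          apply hEmul
          · exact ⟨b⁻¹, K.inv_mem hb, 0, K.zero_mem, by simp⟩
          · exact ⟨-(c' * n⁻¹), K.neg_mem (K.mul_mem hc'K (K.inv_mem hnK)), n⁻¹, K.inv_mem hnK, by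
              rw [sub_mul]; abel⟩ }
  have hE : (⊤ : Subfield D) ≤ E := by
    rw [← hgen, Subfield.closure_le]
    intro k hk
    simp only [Set.mem_insert_iff, Set.mem_singleton_iff] at hk
    rcases hk with rfl | rfl
    · exact ⟨0, K.zero_mem, 1, K.one_mem, by simp⟩
    · refine ⟨2⁻¹ * (k + x'), K.mul_mem (K.inv_mem h2K) hal, (g ^ 2)⁻¹ * (g * (k - x')) * 2⁻¹,
        K.mul_mem (K.mul_mem hg2i hbe) (K.inv_mem h2K), ?_⟩
      have e2 : g * ((g ^ 2)⁻¹ * (g * (k - x')) * 2⁻¹) = (k - x') * 2⁻¹ := by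
        rw [sq, mul_inv_rev, ← mul_assoc g, ← mul_assoc g, ← mul_assoc g, mul_inv_cancel₀ hg, one_mul,
          ← mul_assoc g⁻¹, inv_mul_cancel₀ hg, one_mul]
      have hc2i : ∀ a : D, a * 2⁻¹ = 2⁻¹ * a := by
        intro a
        rw [eq_inv_mul_iff_mul_eq₀ h2, ← mul_assoc, hc2 a, mul_assoc, mul_inv_cancel₀ h2, mul_one]
      rw [e2, hc2i, ← mul_add, eq_inv_mul_iff_mul_eq₀ h2, two_mul]
      abel
  exact hE (Subfield.mem_top d)

end Pool.Agent.Helper619.Weyl.W5
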