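import Mathlib

namespace Pool.Agent.Helper619.Weyl.W1

/-- In the field of rational functions in two variables over `F_p`, `p = 3 mod 4`. -/
theorem neg_one_ne_sq (p : ℕ) [Fact p.Prime] (hp : p % 4 = 3) {F : Type*} [Field F]
    [Algebra (MvPolynomial (Fin 2) (ZMod p)) F]
    [IsFractionRing (MvPolynomial (Fin 2) (ZMod p)) F] (x : F) : x ^ 2 ≠ -1 := by
  intro hx
  have hint : IsIntegral (MvPolynomial (Fin 2) (ZMod p)) x := by
    refine ⟨Polynomial.X ^ 2 + Polynomial.C 1, ?_, ?_⟩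
    · exact Polynomial.monic_X_pow_add_C _ (by norm_num)
    · simp [hx]
  obtain ⟨r, hr⟩ := IsIntegrallyClosed.isIntegral_iff.1 hint
  have h1 : r ^ 2 = -1 := by
    apply IsFractionRing.injective (MvPolynomial (Fin 2) (ZMod p)) F
    rw [map_pow, hr, hx]; simp
  have h2 : (MvPolynomial.constantCoeff r) ^ 2 = (-1 : ZMod p) := by
    rw [← map_pow, h1]; simp
  have h3 : IsSquare (-1 : ZMod p) := ⟨_, by rw [← h2, sq]⟩
  exact (ZMod.exists_sq_eq_neg_one_iff.1 h3) hp

namespace TwoSqAux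

/-- abstract setting: an involution on a gcd domain -/
theorem norm_dvd {A : Type*} [CommRing A] [IsDomain A] [GCDMonoid A] (σ : A →+* A)
    (hσ : ∀ x, σ (σ x) = x) {C x g : A} (hC : C ≠ 0) (hCσ : σ C = C) (h : C ^ 2 * x = g * σ g) :
    ∃ g'', x = g'' * σ g'' := by
  obtain ⟨c', g', hc, hg, hcop⟩ := extract_gcd C g
  generalize gcd C g = d at hc hg
  have hd0 : d ≠ 0 := by rintro h0; apply hC; rw [hc, h0, zero_mul]
  have hc0 : c' ≠ 0 := by rintro h0; apply hC; rw [hc, h0, mul_zero]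
  have hσinj : ∀ z, σ z = 0 → z = 0 := fun z hz => by rw [← hσ z, hz, map_zero]
  have hσ0 : σ d ≠ 0 := fun h0 => hd0 (hσinj _ h0)
  have hσc0 : σ c' ≠ 0 := fun h0 => hc0 (hσinj _ h0)
  have e1 : C ^ 2 = (d * σ d) * (c' * σ c') := by
    have : C ^ 2 = C * σ C := by rw [hCσ, sq]
    rw [this, hc, map_mul]; ring
  have e2 : g * σ g = (d * σ d) * (g' * σ g') := by
    rw [hg, map_mul]; ring
  rw [e1, e2] at h
  have h' : c' * σ c' * x = g' * σ g' := by
    apply mul_left_cancel₀ (mul_ne_zero hd0 hσ0)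
    rw [← h]; ring
  have hrel : IsRelPrime c' g' := gcd_isUnit_iff_isRelPrime.1 hcop
  have hdvd : c' ∣ σ g' := by
    have : c' ∣ g' * σ g' := ⟨σ c' * x, by rw [← h']; ring⟩
    exact hrel.dvd_of_dvd_mul_left this
  obtain ⟨k, hk⟩ := hdvd
  have hg' : g' = σ c' * σ k := by rw [← hσ g', hk, map_mul]
  refine ⟨σ k, ?_⟩
  rw [hσ]
  apply mul_left_cancel₀ (mul_ne_zero hc0 hσc0)
  rw [h', hk, hg']; ring

theorem coprime_norm {A : Type*} [CommRing A] [IsDomain A] [GCDMonoid A] (σ : A →+* A)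
    (hσ : ∀ x, σ (σ x) = x) {x y g : A} (hxy : IsRelPrime x y) (hx : σ x = x)
    (h : x * y = g * σ g) : ∃ d, Associated x (d * σ d) := by
  have hdvd : ∀ a b, a ∣ b → σ a ∣ σ b := fun a b hab => map_dvd σ hab
  refine ⟨gcd x g, associated_of_dvd_dvd ?_ ?_⟩
  · have h1 : x ∣ gcd x g * σ g := by
      refine Dvd.dvd.trans (dvd_gcd (Dvd.intro _ rfl) ?_) (gcd_mul_right' (σ g) x g).dvd
      exact ⟨y, h.symm⟩
    have h2 : x ∣ gcd x g * gcd x (σ g) :=
      Dvd.dvd.trans (dvd_gcd (Dvd.intro_left _ rfl) h1) (gcd_mul_left' (gcd x g) x (σ g)).dvd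
    refine h2.trans (mul_dvd_mul_left _ ?_)
    have h3 : σ (gcd x (σ g)) ∣ gcd x g := by
      apply dvd_gcd
      · have := hdvd _ _ (gcd_dvd_left x (σ g)); rwa [hx] at this
      · have := hdvd _ _ (gcd_dvd_right x (σ g)); rwa [hσ] at this
    have := hdvd _ _ h3
    rwa [hσ] at this
  · have d1 := gcd_dvd_left x g
    have d2 := gcd_dvd_right x g
    have d3 : σ (gcd x g) ∣ x := by have := hdvd _ _ d1; rwa [hx] at this
    have d4 : σ (gcd x g) ∣ σ g := hdvd _ _ d2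
    have h1 : gcd x g * σ (gcd x g) ∣ x * x := mul_dvd_mul d1 d3
    have h2 : gcd x g * σ (gcd x g) ∣ x * y := by rw [h]; exact mul_dvd_mul d2 d4
    have h3 := (dvd_gcd h1 h2).trans (gcd_mul_left' x x y).dvd
    have h4 : IsUnit (gcd x y) := gcd_isUnit_iff_isRelPrime.2 hxy
    exact (IsUnit.dvd_mul_right h4).1 h3

/-- Setting: `R → A` with an involution on `A`, every element of `A` is `u + i v`. -/
theorem main {R A : Type*} [CommRing R] [IsDomain R] [UniqueFactorizationMonoid R]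
    [CommRing A] [IsDomain A] [UniqueFactorizationMonoid A] (ι : R →+* A)
    (hι : Function.Injective ι) (σ : A →+* A) (hσ : ∀ x, σ (σ x) = x)
    (hσι : ∀ r, σ (ι r) = ι r) (i : A) (hi : i ^ 2 = -1) (hσi : σ i = - i)
    (hdec : ∀ g, ∃ u v, g = ι u + i * ι v) (htwo : (2 : A) ≠ 0)
    {u v a b : R} (ha : IsUnit a) (hb : IsUnit b) (huv : IsRelPrime u v)
    {C Y Z : R} (hC : C ≠ 0)
    (h : C ^ 2 * ((u * v) * ((u + a * v) * (u + b * v))) = Y ^ 2 + Z ^ 2) :
    ∃ e d₁ d₂ : R, IsUnit e ∧ u * v = e * (d₁ ^ 2 + d₂ ^ 2) := by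
  classical
  let _ : GCDMonoid R := (UniqueFactorizationMonoid.toGCDMonoid R)
  let _ : GCDMonoid A := (UniqueFactorizationMonoid.toGCDMonoid A)
  have hi0 : i ≠ 0 := by rintro rfl; simp at hi
  have hfix : ∀ g, σ g = g → ∃ r, g = ι r := by
    intro g hg
    obtain ⟨r, s, rfl⟩ := hdec g
    refine ⟨r, ?_⟩
    rw [map_add, map_mul, hσι, hσi, hσι] at hg
    have h2 : (2 : A) * (i * ι s) = 0 := by linear_combination - hg
    rcases mul_eq_zero.1 h2 with h3 | h3
    · exact absurd h3 htwo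
    · rw [h3, add_zero]
  have hdvdR : ∀ r s, ι r ∣ ι s → r ∣ s := by
    intro r s hrs
    by_cases hr : r = 0
    · subst hr
      rw [map_zero, zero_dvd_iff] at hrs
      rw [hι (hrs.trans (map_zero ι).symm)]
    · obtain ⟨k, hk⟩ := hrs
      have hk' : σ k = k := by
        have : ι r * σ k = ι r * k := by
          rw [← hk, ← hσι s, hk, map_mul, hσι]
        exact mul_left_cancel₀ (fun h0 => hr (hι (h0.trans (map_zero ι).symm))) this
      obtain ⟨t, rfl⟩ := hfix k hk'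
      exact ⟨t, hι (by rw [hk, map_mul])⟩
  have hnorm : ∀ g, ∃ d₁ d₂, g * σ g = ι (d₁ ^ 2 + d₂ ^ 2) := by
    intro g
    obtain ⟨r, s, rfl⟩ := hdec g
    refine ⟨r, s, ?_⟩
    rw [map_add, map_mul, hσι, hσi, hσι, map_add, map_pow, map_pow]
    linear_combination (-(ι s)^2) * hi
  -- coprimality in A
  have hcopA : IsRelPrime (ι u) (ι v) := by
    intro d hd1 hd2
    have e1 : σ d ∣ ι u := by have := map_dvd σ hd1; rwa [hσι] at this
    have e2 : σ d ∣ ι v := by have := map_dvd σ hd2; rwa [hσι] at this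
    obtain ⟨d₁, d₂, hN⟩ := hnorm d
    have f1 : ι (d₁ ^ 2 + d₂ ^ 2) ∣ ι (u ^ 2) := by
      rw [← hN, sq u, map_mul]; exact mul_dvd_mul hd1 e1
    have f2 : ι (d₁ ^ 2 + d₂ ^ 2) ∣ ι (v ^ 2) := by
      rw [← hN, sq v, map_mul]; exact mul_dvd_mul hd2 e2
    have f3 : IsUnit (d₁ ^ 2 + d₂ ^ 2) := by
      have : IsRelPrime (u ^ 2) (v ^ 2) := IsRelPrime.pow huv
      exact this (hdvdR _ _ f1) (hdvdR _ _ f2)
    have f4 : IsUnit (d * σ d) := by rw [hN]; exact f3.map ι
    exact isUnit_of_mul_isUnit_left f4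
  have hg : (ι C) ^ 2 * (ι (u * v) * ι ((u + a * v) * (u + b * v))) =
      (ι Y + i * ι Z) * σ (ι Y + i * ι Z) := by
    rw [← map_pow, ← map_mul, ← map_mul, h, map_add σ, map_mul σ, hσι, hσi, hσι]
    rw [map_add, map_pow, map_pow]
    linear_combination ((ι Z)^2) * hi
  obtain ⟨g'', hg''⟩ := norm_dvd σ hσ (fun h0 => hC (hι (h0.trans (map_zero ι).symm))) (hσι C) hg
  have hrel1 : ∀ a : R, IsUnit a → IsRelPrime (ι (u * v)) (ι (u + a * v)) := by
    intro a ha
    have hA : IsUnit (ι a) := ha.map ι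
    rw [map_mul, map_add, map_mul]
    apply IsRelPrime.mul_left
    · intro d h1 h2
      have h3 : d ∣ ι a * ι v := (dvd_add_right h1).1 h2
      exact hcopA h1 ((IsUnit.dvd_mul_left hA).1 h3)
    · intro d h1 h2
      have h3 : d ∣ ι u := (dvd_add_left (h1.mul_left _)).1 h2
      exact hcopA h3 h1
  have hrel : IsRelPrime (ι (u * v)) (ι ((u + a * v) * (u + b * v))) := by
    rw [map_mul ι (u + a * v)]
    exact IsRelPrime.mul_right (hrel1 a ha) (hrel1 b hb)
  obtain ⟨d, hd⟩ := coprime_norm σ hσ hrel (hσι _) hg''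
  obtain ⟨d₁, d₂, hN⟩ := hnorm d
  rw [hN] at hd
  have hass : Associated (d₁ ^ 2 + d₂ ^ 2) (u * v) :=
    associated_of_dvd_dvd (hdvdR _ _ hd.dvd') (hdvdR _ _ hd.dvd)
  obtain ⟨e, he⟩ := hass
  exact ⟨e, d₁, d₂, e.isUnit, by rw [← he]; ring⟩

/-- the field with `p ^ 2` elements -/
theorem gal (p : ℕ) [Fact p.Prime] (hp : p % 4 = 3) :
    ∃ i : GaloisField p 2, i ^ 2 = -1 ∧ frobenius (GaloisField p 2) p i = - i ∧
    (∀ x, frobenius (GaloisField p 2) p (frobenius (GaloisField p 2) p x) = x) ∧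
    (2 : GaloisField p 2) ≠ 0 ∧
    (∀ r : ZMod p, frobenius (GaloisField p 2) p (algebraMap _ _ r) = algebraMap _ _ r) ∧
    ∀ x : GaloisField p 2, ∃ a b : ZMod p, x = algebraMap _ _ a + i * algebraMap _ _ b := by
  classical
  have : Fintype (GaloisField p 2) := Fintype.ofFinite _
  have hcard : Fintype.card (GaloisField p 2) = p ^ 2 := by
    rw [← Nat.card_eq_fintype_card]; exact GaloisField.card p 2 (by norm_num)
  have hsq : IsSquare (-1 : GaloisField p 2) := by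
    rw [FiniteField.isSquare_neg_one_iff, hcard]
    have : p ^ 2 % 4 = 1 := by rw [Nat.pow_mod, hp]
    omega
  obtain ⟨i, hi⟩ := hsq
  have hi2 : i ^ 2 = -1 := by rw [hi, sq]
  have hfr : frobenius (GaloisField p 2) p i = - i := by
    rw [frobenius_def]
    obtain ⟨k, hk⟩ : ∃ k, p = 4 * k + 3 := ⟨p / 4, by omega⟩
    have : i ^ p = i ^ (4 * k + 3) := by rw [← hk]
    rw [this, pow_add, pow_mul]
    have h4 : i ^ 4 = 1 := by linear_combination (i ^ 2 - 1) * hi2
    rw [h4, one_pow, one_mul]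
    linear_combination i * hi2
  have h2 : (2 : GaloisField p 2) ≠ 0 := by
    intro h
    have h3 : ((2 : ℕ) : GaloisField p 2) = 0 := by exact_mod_cast h
    have h4 := (CharP.cast_eq_zero_iff (GaloisField p 2) p 2).1 h3
    have := Nat.le_of_dvd (by norm_num) h4
    omega
  have hfix : ∀ r : ZMod p, frobenius (GaloisField p 2) p (algebraMap _ _ r) = algebraMap _ _ r := by
    intro r
    rw [frobenius_def, ← map_pow, ZMod.pow_card]
  refine ⟨i, hi2, hfr, ?_, h2, hfix, ?_⟩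
  · intro x
    rw [frobenius_def, frobenius_def, ← pow_mul, ← sq, ← hcard, FiniteField.pow_card]
  · have hinj : Function.Injective (fun ab : ZMod p × ZMod p =>
        (algebraMap (ZMod p) (GaloisField p 2) ab.1 + i * algebraMap _ _ ab.2)) := by
      rintro ⟨a, b⟩ ⟨a', b'⟩ h
      simp only at h
      have h' := congrArg (frobenius (GaloisField p 2) p) h
      rw [map_add, map_add, map_mul, map_mul, hfix, hfix, hfix, hfix, hfr] at h'
      have e1 : (2 : GaloisField p 2) * (algebraMap _ _ a - algebraMap _ _ a') = 0 := by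
        linear_combination h + h'
      have e2 : (2 : GaloisField p 2) * (i * (algebraMap _ _ b - algebraMap _ _ b')) = 0 := by
        linear_combination h - h'
      have hi0 : i ≠ 0 := by rintro rfl; simp at hi2
      have e3 := (mul_eq_zero.1 e1).resolve_left h2
      have e4 := (mul_eq_zero.1 ((mul_eq_zero.1 e2).resolve_left h2)).resolve_left hi0
      have f1 : a = a' := (algebraMap (ZMod p) (GaloisField p 2)).injective (sub_eq_zero.1 e3)
      have f2 : b = b' := (algebraMap (ZMod p) (GaloisField p 2)).injective (sub_eq_zero.1 e4)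
      rw [f1, f2]
    have hbij := (Fintype.bijective_iff_injective_and_card _).2 ⟨hinj, by
      rw [Fintype.card_prod, ZMod.card, hcard, sq]⟩
    intro x
    obtain ⟨⟨a, b⟩, h⟩ := hbij.2 x
    exact ⟨a, b, h.symm⟩

theorem main' (p : ℕ) [Fact p.Prime] (hp : p % 4 = 3)
    {u v a b : MvPolynomial (Fin 2) (ZMod p)} (ha : IsUnit a) (hb : IsUnit b)
    (huv : IsRelPrime u v) {C Y Z : MvPolynomial (Fin 2) (ZMod p)} (hC : C ≠ 0)
    (h : C ^ 2 * ((u * v) * ((u + a * v) * (u + b * v))) = Y ^ 2 + Z ^ 2) :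
    ∃ e d₁ d₂ : MvPolynomial (Fin 2) (ZMod p), IsUnit e ∧ u * v = e * (d₁ ^ 2 + d₂ ^ 2) := by
  obtain ⟨i, hi2, hfr, hinv, h2, hfix, hdec⟩ := gal p hp
  refine main (A := MvPolynomial (Fin 2) (GaloisField p 2))
    (MvPolynomial.map (algebraMap (ZMod p) (GaloisField p 2)))
    (MvPolynomial.map_injective _ (algebraMap (ZMod p) (GaloisField p 2)).injective)
    (MvPolynomial.map (frobenius (GaloisField p 2) p)) ?_ ?_ (MvPolynomial.C i) ?_ ?_ ?_ ?_
    ha hb huv hC h
  · intro x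
    rw [MvPolynomial.map_map]
    have : (frobenius (GaloisField p 2) p).comp (frobenius (GaloisField p 2) p) =
        RingHom.id _ := RingHom.ext hinv
    rw [this, MvPolynomial.map_id]
  · intro r
    rw [MvPolynomial.map_map]
    congr 1
    exact congrArg _ (RingHom.ext hfix)
  · rw [← map_pow, hi2]; simp
  · rw [MvPolynomial.map_C, hfr]; simp
  · intro g
    induction g using MvPolynomial.induction_on with
    | C x =>
      obtain ⟨a, b, hab⟩ := hdec x
      exact ⟨MvPolynomial.C a, MvPolynomial.C b, by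
        rw [MvPolynomial.map_C, MvPolynomial.map_C, ← map_mul, ← map_add, ← hab]⟩
    | add f g hf hg =>
      obtain ⟨u, v, h⟩ := hf
      obtain ⟨u', v', h'⟩ := hg
      exact ⟨u + u', v + v', by rw [h, h', map_add, map_add]; ring⟩
    | mul_X f n hf =>
      obtain ⟨u, v, h⟩ := hf
      exact ⟨u * MvPolynomial.X n, v * MvPolynomial.X n, by
        rw [h, map_mul, map_mul, MvPolynomial.map_X]; ring⟩
  · intro h
    apply h2
    have h' : MvPolynomial.C (σ := Fin 2) (2 : GaloisField p 2) = 0 := by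
      rw [show (2 : GaloisField p 2) = 1 + 1 by norm_num, map_add, map_one, ← h]; norm_num
    exact (MvPolynomial.C_eq_zero).1 h'

end TwoSqAux

theorem two_sq_of_three (p : ℕ) [Fact p.Prime] (hp : p % 4 = 3) {F : Type*} [Field F]
    [Algebra (MvPolynomial (Fin 2) (ZMod p)) F]
    [IsFractionRing (MvPolynomial (Fin 2) (ZMod p)) F]
    (a b : ZMod p) (ha : a ≠ 0) (hb : b ≠ 0) (w c y z : F) (hc : c ≠ 0)
    (h : c ^ 2 * (w * (w + algebraMap (MvPolynomial (Fin 2) (ZMod p)) F (MvPolynomial.C a)) *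
      (w + algebraMap (MvPolynomial (Fin 2) (ZMod p)) F (MvPolynomial.C b))) = y ^ 2 + z ^ 2) :
    ∃ α β : F, w = α ^ 2 + β ^ 2 := by
  classical
  set φ := algebraMap (MvPolynomial (Fin 2) (ZMod p)) F with hφ
  have hφinj : Function.Injective φ := IsFractionRing.injective (MvPolynomial (Fin 2) (ZMod p)) F
  have hφ0 : ∀ x, x ≠ 0 → φ x ≠ 0 := fun x hx h0 => hx (hφinj (h0.trans (map_zero φ).symm))
  set u := IsFractionRing.num (MvPolynomial (Fin 2) (ZMod p)) w with hu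
  set v : MvPolynomial (Fin 2) (ZMod p) :=
    (IsFractionRing.den (MvPolynomial (Fin 2) (ZMod p)) w : MvPolynomial (Fin 2) (ZMod p)) with hv
  have huv : IsRelPrime u v := IsFractionRing.num_den_reduced (MvPolynomial (Fin 2) (ZMod p)) w
  have hw : φ u / φ v = w := IsFractionRing.mk'_num_den' (MvPolynomial (Fin 2) (ZMod p)) w
  have hv0 : v ≠ 0 := nonZeroDivisors.coe_ne_zero _
  have hφv := hφ0 v hv0
  obtain ⟨c₁, c₂, hc₂, hc'⟩ := IsFractionRing.div_surjective (A := MvPolynomial (Fin 2) (ZMod p)) c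
  obtain ⟨y₁, y₂, hy₂, hy'⟩ := IsFractionRing.div_surjective (A := MvPolynomial (Fin 2) (ZMod p)) y
  obtain ⟨z₁, z₂, hz₂, hz'⟩ := IsFractionRing.div_surjective (A := MvPolynomial (Fin 2) (ZMod p)) z
  rw [← hφ] at hc' hy' hz'
  have hc₂0 : c₂ ≠ 0 := nonZeroDivisors.ne_zero hc₂
  have hy₂0 : y₂ ≠ 0 := nonZeroDivisors.ne_zero hy₂
  have hz₂0 : z₂ ≠ 0 := nonZeroDivisors.ne_zero hz₂
  have hφc₂ := hφ0 _ hc₂0
  have hφy₂ := hφ0 _ hy₂0
  have hφz₂ := hφ0 _ hz₂0
  have hc₁0 : c₁ ≠ 0 := by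
    rintro rfl
    rw [map_zero, zero_div] at hc'
    exact hc hc'.symm
  have key : (c₁ * y₂ * z₂) ^ 2 * ((u * v) * ((u + MvPolynomial.C a * v) *
      (u + MvPolynomial.C b * v))) = (v ^ 2 * y₁ * c₂ * z₂) ^ 2 + (v ^ 2 * z₁ * c₂ * y₂) ^ 2 := by
    apply hφinj
    rw [← hw, ← hc', ← hy', ← hz'] at h
    simp only [map_mul, map_add, map_pow]
    field_simp at h
    linear_combination (φ v) * h
  obtain ⟨e, d₁, d₂, he, hh⟩ := TwoSqAux.main' p hp
    ((isUnit_iff_ne_zero.2 ha).map MvPolynomial.C) ((isUnit_iff_ne_zero.2 hb).map MvPolynomial.C)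
    huv (mul_ne_zero (mul_ne_zero hc₁0 hy₂0) hz₂0) key
  obtain ⟨e', he', rfl⟩ : ∃ e' : ZMod p, e' ≠ 0 ∧ MvPolynomial.C e' = e := by
    have := (MvPolynomial.isUnit_iff_eq_C_of_isReduced (P := e)).1 he
    obtain ⟨r, hr, h'⟩ := this
    exact ⟨r, hr.ne_zero, h'.symm⟩
  obtain ⟨e₁, e₂, hee⟩ := ZMod.sq_add_sq p e'
  refine ⟨(φ (MvPolynomial.C e₁) * φ d₁ - φ (MvPolynomial.C e₂) * φ d₂) / φ v,
    (φ (MvPolynomial.C e₁) * φ d₂ + φ (MvPolynomial.C e₂) * φ d₁) / φ v, ?_⟩
  have hh' := congrArg φ hh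
  rw [← hee] at hh'
  simp only [map_mul, map_add, map_pow] at hh'
  rw [← hw]
  field_simp
  linear_combination hh'

end Pool.Agent.Helper619.Weyl.W1
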