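import Mathlib

namespace Pool.Agent.Helper619.Weyl.W2

namespace J1442

open Polynomial

lemma final_step (p : ℕ) [Fact p.Prime] (hp : p % 4 = 3) (a b : ZMod p) (ha : a ≠ 0) (hb : b ≠ 0)
    (hab : a ^ 2 ≠ b ^ 2) (e : (ZMod p)[X]) (d : ℕ)
    (h : (-((X ^ 2 + C (a ^ 2)) * (X ^ 2 + C (b ^ 2)))) ^ d = - (e * e.comp (-X))) : False := by
  have hsq : ¬ IsSquare (-1 : ZMod p) := by
    rw [ZMod.exists_sq_eq_neg_one_iff]
    omega
  set q1 : (ZMod p)[X] := X ^ 2 + C (a ^ 2) with hq1
  set q2 : (ZMod p)[X] := X ^ 2 + C (b ^ 2) with hq2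
  have h0 := congrArg (Polynomial.eval 0) h
  rw [eval_pow, eval_neg, eval_neg, eval_mul, eval_mul, eval_comp] at h0
  simp only [hq1, hq2, eval_add, eval_pow, eval_X, eval_C, eval_neg] at h0
  rcases Nat.even_or_odd d with hd | hd
  · obtain ⟨l, hl⟩ := hd
    apply hsq
    have h1 : ((a ^ 2 * b ^ 2) ^ l) ^ 2 = - (eval 0 e) ^ 2 := by
      have : (-((0 ^ 2 + a ^ 2) * (0 ^ 2 + b ^ 2))) ^ d = ((a ^ 2 * b ^ 2) ^ l) ^ 2 := by
        rw [hl]; ring_nf
        rw [show l * 2 = 2 * l by ring, pow_mul (-1 : ZMod p)]; simp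
      rw [← this, h0]; simp; ring
    have hw : (a ^ 2 * b ^ 2) ^ l ≠ 0 := by positivity
    refine ⟨eval 0 e / (a ^ 2 * b ^ 2) ^ l, ?_⟩
    field_simp
    linear_combination -h1
  · have hdeg : q1.natDegree = 2 := by
      rw [hq1]; compute_degree!
    have hmon : q1.Monic := by
      rw [hq1]; monicity!
    have hirr : Irreducible q1 := by
      apply Polynomial.irreducible_of_degree_le_three_of_not_isRoot
      · rw [hdeg]; decide
      · intro r hr
        apply hsq
        rw [hq1, IsRoot, eval_add, eval_pow, eval_X, eval_C] at hr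
        refine ⟨r / a, ?_⟩
        field_simp
        linear_combination -hr
    have hpr : Prime q1 := hirr.prime
    have hq1c : q1.comp (-X) = q1 := by
      rw [hq1]; simp
    have hne1 : q1 ≠ 0 := hmon.ne_zero
    have hq2m : q2.Monic := by rw [hq2]; monicity!
    have hne2 : q2 ≠ 0 := hq2m.ne_zero
    have he0 : e ≠ 0 := by
      rintro rfl
      simp at h
      rcases h with ⟨h | h, -⟩
      · exact hne1 h
      · exact hne2 h
    have hfin : FiniteMultiplicity q1 e := FiniteMultiplicity.of_prime_left hpr he0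
    obtain ⟨e', he', hnd⟩ := hfin.exists_eq_pow_mul_and_not_dvd
    set n := multiplicity q1 e
    have hnd2 : ¬ q1 ∣ e'.comp (-X) := by
      rintro ⟨f, hf⟩
      apply hnd
      refine ⟨f.comp (-X), ?_⟩
      have := congrArg (fun g => g.comp (-X)) hf
      simp only [mul_comp, hq1c] at this
      rw [← this, comp_assoc]
      simp
    have h2 : q1 ^ d * q2 ^ d = q1 ^ (2 * n) * (e' * e'.comp (-X)) := by
      have h3 : (-(q1 * q2)) ^ d = -(q1 ^ d * q2 ^ d) := by
        rw [hd.neg_pow, mul_pow]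
      rw [h3, neg_inj] at h
      rw [h, he', mul_comp, pow_comp, hq1c]
      ring
    have hnd12 : ¬ q1 ∣ q2 := by
      intro hdv
      have h4 : q1 ∣ C (b ^ 2 - a ^ 2) := by
        have : (C (b ^ 2 - a ^ 2) : (ZMod p)[X]) = q2 - q1 := by rw [hq1, hq2]; simp
        rw [this]; exact dvd_sub hdv (dvd_refl _)
      have h5 := Polynomial.natDegree_le_of_dvd h4 (by
        rw [Ne, C_eq_zero, sub_eq_zero]; exact fun h => hab h.symm)
      rw [hdeg, natDegree_C] at h5
      omega
    rcases lt_trichotomy (2 * n) d with hlt | heq | hgt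
    · obtain ⟨k, rfl⟩ : ∃ k, d = 2 * n + (k + 1) := ⟨d - 2 * n - 1, by omega⟩
      have h6 : q1 ^ (k + 1) * q2 ^ (2 * n + (k + 1)) = e' * e'.comp (-X) := by
        apply mul_left_cancel₀ (pow_ne_zero (2 * n) hne1)
        rw [← h2, pow_add]; ring
      have h7 : q1 ∣ e' * e'.comp (-X) := by
        rw [← h6]; exact Dvd.dvd.mul_right (dvd_pow_self q1 (Nat.succ_ne_zero k)) _
      rcases hpr.dvd_or_dvd h7 with h8 | h8
      · exact hnd h8
      · exact hnd2 h8
    · obtain ⟨k, hk⟩ := hd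
      omega
    · obtain ⟨k, hk⟩ : ∃ k, 2 * n = d + (k + 1) := ⟨2 * n - d - 1, by omega⟩
      have h6 : q2 ^ d = q1 ^ (k + 1) * (e' * e'.comp (-X)) := by
        apply mul_left_cancel₀ (pow_ne_zero d hne1)
        rw [h2, hk, pow_add]; ring
      have h7 : q1 ∣ q2 ^ d := by
        rw [h6]; exact Dvd.dvd.mul_right (dvd_pow_self q1 (Nat.succ_ne_zero k)) _
      exact hnd12 (hpr.dvd_of_dvd_pow h7)


section
variable (p : ℕ) [Fact p.Prime]

/-- the map back to `MvPolynomial` -/
noncomputable def chi : (ZMod p)[X][X] →+* MvPolynomial (Fin 2) (ZMod p) :=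
  eval₂RingHom (eval₂RingHom MvPolynomial.C (MvPolynomial.X 0)) (MvPolynomial.X 1)

noncomputable def psi : MvPolynomial (Fin 2) (ZMod p) →+* (ZMod p)[X][X] :=
  MvPolynomial.eval₂Hom ((C : (ZMod p)[X] →+* (ZMod p)[X][X]).comp C) ![C X, X]

lemma psi_chi (f : (ZMod p)[X][X]) : psi p (chi p f) = f := by
  have : (psi p).comp (chi p) = RingHom.id _ := by
    apply Polynomial.ringHom_ext'
    · apply Polynomial.ringHom_ext'
      · ext r; simp [psi, chi]
      · simp [psi, chi]
    · simp [psi, chi]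
  exact congrArg (fun g => g f) this

lemma chi_psi (f : MvPolynomial (Fin 2) (ZMod p)) : chi p (psi p f) = f := by
  have : (chi p).comp (psi p) = RingHom.id _ := by
    apply MvPolynomial.ringHom_ext
    · intro r; simp [psi, chi]
    · intro i; fin_cases i <;> simp [psi, chi]
  exact congrArg (fun g => g f) this

end

end J1442

open Polynomial J1442 in
/-- `F = F_p(G, x)`, `p = 3 mod 4`; `τ` a ring endomorphism with `τ G = -G` and
`x * τ x = -(G^2+a^2)(G^2+b^2)`.  Then `-1` is not of the form `m * τ m`. -/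
theorem no_norm (p : ℕ) [Fact p.Prime] (hp : p % 4 = 3) {F : Type*} [Field F]
    [Algebra (MvPolynomial (Fin 2) (ZMod p)) F]
    [IsFractionRing (MvPolynomial (Fin 2) (ZMod p)) F]
    (a b : ZMod p) (ha : a ≠ 0) (hb : b ≠ 0) (hab : a ^ 2 ≠ b ^ 2) (τ : F →+* F)
    (G x : F) (hG : G = algebraMap (MvPolynomial (Fin 2) (ZMod p)) F (MvPolynomial.X 0))
    (hx : x = algebraMap (MvPolynomial (Fin 2) (ZMod p)) F (MvPolynomial.X 1))
    (hτG : τ G = - G)
    (hτx : x * τ x =
      -((G ^ 2 + algebraMap (MvPolynomial (Fin 2) (ZMod p)) F (MvPolynomial.C (a ^ 2))) *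
        (G ^ 2 + algebraMap (MvPolynomial (Fin 2) (ZMod p)) F (MvPolynomial.C (b ^ 2)))))
    (m : F) : m * τ m ≠ -1 := by
  intro hm
  have hinjA : Function.Injective (algebraMap (MvPolynomial (Fin 2) (ZMod p)) F) :=
    IsFractionRing.injective (MvPolynomial (Fin 2) (ZMod p)) F
  set φ : (ZMod p)[X][X] →+* F := (algebraMap (MvPolynomial (Fin 2) (ZMod p)) F).comp (chi p)
    with hφ
  set φ0 : (ZMod p)[X] →+* F := φ.comp (C : (ZMod p)[X] →+* (ZMod p)[X][X]) with hφ0
  have hchi_inj : Function.Injective (chi p) :=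
    Function.LeftInverse.injective (psi_chi p)
  have hinj : Function.Injective φ := hinjA.comp hchi_inj
  have hinj0 : Function.Injective φ0 := hinj.comp Polynomial.C_injective
  have hφX : φ X = x := by simp [hφ, chi, hx]
  have hφ0X : φ0 X = G := by simp [hφ0, hφ, chi, hG]
  have hφC : ∀ f : (ZMod p)[X], φ (C f) = φ0 f := fun f => rfl
  have hφ0C : ∀ r : ZMod p, φ0 (C r) =
      algebraMap (MvPolynomial (Fin 2) (ZMod p)) F (MvPolynomial.C r) := by
    intro r; simp [hφ0, hφ, chi]
  -- τ on constants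
  have hτc : ∀ r : ZMod p, τ (φ0 (C r)) = φ0 (C r) := by
    intro r
    have : (τ.comp (φ0.comp C)) = (φ0.comp C) := Subsingleton.elim _ _
    exact congrArg (fun g => g r) this
  have hτφ0 : ∀ f : (ZMod p)[X], τ (φ0 f) = φ0 (f.comp (-X)) := by
    intro f
    have : τ.comp φ0 = φ0.comp (compRingHom (-X)) := by
      apply Polynomial.ringHom_ext
      · intro r; simp [hτc]
      · simp [hφ0X, hτG]
    exact congrArg (fun g => g f) this
  set ρ : (ZMod p)[X] := -((X ^ 2 + C (a ^ 2)) * (X ^ 2 + C (b ^ 2))) with hρ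
  have hρφ : x * τ x = φ0 ρ := by
    rw [hτx, hρ, map_neg φ0, map_mul φ0, map_add φ0, map_add φ0, map_pow φ0, hφ0X, hφ0C, hφ0C]
  have hρbar : ρ.comp (-X) = ρ := by rw [hρ]; simp
  have hx0 : x ≠ 0 := by
    rw [← hφX]
    intro h
    rw [← map_zero φ] at h
    exact X_ne_zero (hinj h)
  have hτinj : Function.Injective τ := τ.injective
  have hτx0 : τ x ≠ 0 := fun h => hx0 (hτinj (by rw [h, map_zero]))
  -- `τ` is an involution on the image of `φ`
  have hττx : τ (τ x) = x := by
    have h1 := congrArg τ hρφ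
    rw [map_mul, hτφ0, hρbar, ← hρφ, mul_comm x] at h1
    exact mul_left_cancel₀ hτx0 h1
  have hττ : ∀ P : (ZMod p)[X][X], τ (τ (φ P)) = φ P := by
    intro P
    have : (τ.comp (τ.comp φ)) = φ := by
      apply Polynomial.ringHom_ext
      · intro f
        simp only [RingHom.comp_apply, hφC, hτφ0, comp_assoc]
        simp
      · simp [hφX, hττx]
    exact congrArg (fun g => g P) this
  -- the sharp polynomial
  have hsharp : ∀ (d : ℕ) (P : (ZMod p)[X][X]), P.natDegree ≤ d →
      ∃ P' : (ZMod p)[X][X], P'.natDegree ≤ d ∧ φ P' = x ^ d * τ (φ P) := by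
    intro d P hP
    refine ⟨∑ j ∈ Finset.range (d + 1),
      C ((P.coeff j).comp (-X) * ρ ^ j) * X ^ (d - j), ?_, ?_⟩
    · apply natDegree_sum_le_of_forall_le
      intro j hj
      refine (natDegree_C_mul_X_pow_le _ _).trans ?_
      omega
    · rw [map_sum]
      have h1 : φ P = ∑ j ∈ Finset.range (d + 1), φ0 (P.coeff j) * x ^ j := by
        conv_lhs => rw [P.as_sum_range' (d + 1) (by omega)]
        rw [map_sum]
        apply Finset.sum_congr rfl
        intro j _
        rw [← C_mul_X_pow_eq_monomial, map_mul, map_pow, hφX, hφC]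
      rw [h1, map_sum, Finset.mul_sum]
      apply Finset.sum_congr rfl
      intro j hj
      have hj' : j ≤ d := by
        have := Finset.mem_range.1 hj
        omega
      rw [map_mul φ, map_pow φ, hφX, hφC, map_mul φ0, map_pow φ0, map_mul τ, map_pow τ, hτφ0,
        ← hρφ, mul_pow]
      have h2 : x ^ d = x ^ (d - j) * x ^ j := by
        rw [← pow_add]; congr 1; omega
      rw [h2]; ring
  -- reduced fraction
  obtain ⟨r, s, hrs, hmrs⟩ :=
    IsFractionRing.exists_reduced_fraction (MvPolynomial (Fin 2) (ZMod p)) (K := F) m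
  rw [IsFractionRing.mk'_eq_div] at hmrs
  set P := psi p r with hP
  set Q := psi p (s : MvPolynomial (Fin 2) (ZMod p)) with hQ
  have hφP : φ P = algebraMap _ F r := by rw [hφ, RingHom.comp_apply, hP, chi_psi]
  have hφQ : φ Q = algebraMap _ F (s : MvPolynomial (Fin 2) (ZMod p)) := by
    rw [hφ, RingHom.comp_apply, hQ, chi_psi]
  rw [← hφP, ← hφQ] at hmrs
  have hPQ : IsRelPrime P Q := by
    intro t ht1 ht2
    have h1 : chi p t ∣ r := by
      have := map_dvd (chi p) ht1
      rwa [hP, chi_psi] at this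
    have h2 : chi p t ∣ (s : MvPolynomial (Fin 2) (ZMod p)) := by
      have := map_dvd (chi p) ht2
      rwa [hQ, chi_psi] at this
    have h3 := (hrs h1 h2).map (psi p)
    rwa [psi_chi] at h3
  have hQ0 : φ Q ≠ 0 := by
    rw [hφQ]
    exact IsFractionRing.to_map_ne_zero_of_mem_nonZeroDivisors s.2
  have hm0 : m ≠ 0 := by
    rintro rfl
    simp at hm
  have hP0 : φ P ≠ 0 := by
    intro h
    apply hm0
    rw [← hmrs, h, zero_div]
  have hP0' : P ≠ 0 := by rintro h; apply hP0; rw [h, map_zero]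
  have hQ0' : Q ≠ 0 := by rintro h; apply hQ0; rw [h, map_zero]
  have hτQ0 : τ (φ Q) ≠ 0 := fun h => hQ0 (hτinj (by rw [h, map_zero]))
  have hτP0 : τ (φ P) ≠ 0 := fun h => hP0 (hτinj (by rw [h, map_zero]))
  set d := max P.natDegree Q.natDegree with hd
  obtain ⟨P', hP'd, hP'⟩ := hsharp d P (le_max_left _ _)
  obtain ⟨Q', hQ'd, hQ'⟩ := hsharp d Q (le_max_right _ _)
  have hxd : x ^ d ≠ 0 := pow_ne_zero _ hx0
  -- the key equation
  have hkey : P * P' = - (Q * Q') := by
    apply hinj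
    rw [map_neg φ, map_mul φ, map_mul φ, hP', hQ']
    have h1 : φ P * τ (φ P) = - (φ Q * τ (φ Q)) := by
      rw [← hmrs, map_div₀] at hm
      field_simp at hm
      linear_combination hm
    linear_combination (x ^ d) * h1
  have hPQ' : P ∣ Q' := by
    apply hPQ.dvd_of_dvd_mul_left
    exact ⟨-P', by linear_combination hkey⟩
  have hQP' : Q ∣ P' := by
    apply hPQ.symm.dvd_of_dvd_mul_left
    exact ⟨-Q', by linear_combination hkey⟩
  obtain ⟨c, hc⟩ := hPQ'
  obtain ⟨c', hc'⟩ := hQP'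
  have hcc : c' = - c := by
    have : P * Q * c' = P * Q * (-c) := by
      rw [hc, hc'] at hkey
      linear_combination hkey
    exact mul_left_cancel₀ (mul_ne_zero hP0' hQ0') this
  have hP'0 : P' ≠ 0 := by
    rintro h
    rw [h, map_zero] at hP'
    exact (mul_ne_zero hxd hτP0) hP'.symm
  have hQ'0 : Q' ≠ 0 := by
    rintro h
    rw [h, map_zero] at hQ'
    exact (mul_ne_zero hxd hτQ0) hQ'.symm
  have hc0 : c ≠ 0 := by
    rintro h
    rw [h, mul_zero] at hc
    exact hQ'0 hc
  have hcdeg : c.natDegree = 0 := by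
    rcases le_total P.natDegree Q.natDegree with h | h
    · have h1 : P'.natDegree = Q.natDegree + c.natDegree := by
        have h0 : P' = -(Q * c) := by rw [hc', hcc]; ring
        rw [h0, natDegree_neg, natDegree_mul hQ0' hc0]
      have h2 : d = Q.natDegree := max_eq_right h
      omega
    · have h1 : Q'.natDegree = P.natDegree + c.natDegree := by
        rw [hc, natDegree_mul hP0' hc0]
      have h2 : d = P.natDegree := max_eq_left h
      omega
  obtain ⟨e, he⟩ : ∃ e, c = C e := ⟨c.coeff 0, eq_C_of_natDegree_eq_zero hcdeg⟩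
  have h1 : x ^ d * τ (φ Q) = φ P * φ0 e := by
    rw [← hQ', hc, he, map_mul φ, hφC]
  have h2 : x ^ d * τ (φ P) = - (φ Q * φ0 e) := by
    have h0 : P' = -(Q * C e) := by rw [hc', hcc, he]; ring
    rw [← hP', h0, map_neg φ, map_mul φ, hφC]
  have h3 := congrArg τ h1
  rw [map_mul τ, map_pow τ, hττ, map_mul τ, hτφ0] at h3
  have h4 : φ0 (ρ ^ d) = φ0 (-(e * e.comp (-X))) := by
    rw [map_pow φ0, ← hρφ, map_neg φ0, map_mul φ0]
    apply mul_left_cancel₀ hQ0
    rw [mul_pow]
    linear_combination (x ^ d) * h3 + (φ0 (e.comp (-X))) * h2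
  exact final_step p hp a b ha hb hab e d (hinj0 h4)

end Pool.Agent.Helper619.Weyl.W2
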