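import Mathlib

namespace Pool.Agent.Helper619.Weyl.W3

open scoped IntermediateField.algebraAdjoinAdjoin in
theorem algIndep_pair_aux {k C : Type*} [Field k] [Field C] [Algebra k C] (S : Set C)
    (halg : Algebra.IsAlgebraic (IntermediateField.adjoin k S) C) :
    Algebra.IsAlgebraic (Algebra.adjoin k S) C :=
  (IsFractionRing.comap_isAlgebraic_iff (K := IntermediateField.adjoin k S)).mpr halg

theorem algIndep_pair {k C : Type*} [Field k] [Field C] [Algebra k C] (G x s t : C)
    (h : AlgebraicIndependent k ![G, x])
    (halg : Algebra.IsAlgebraic (IntermediateField.adjoin k ({s, t} : Set C)) C) :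
    AlgebraicIndependent k ![s, t] := by
  have hr : Set.range ![s, t] = ({s, t} : Set C) := by
    simp [Matrix.range_cons, Matrix.range_empty, Set.pair_comm]
  have h2 : Algebra.IsAlgebraic (Algebra.adjoin k (Set.range ![s, t])) C := by
    rw [hr]; exact algIndep_pair_aux _ halg
  have h3 := h.lift_cardinalMk_le_trdeg
  exact (Algebra.IsAlgebraic.isTranscendenceBasis_of_lift_le_trdeg_of_finite k ![s, t] h3).1

end Pool.Agent.Helper619.Weyl.W3
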