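import Mathlib
import Pool.Agent.Helper619.Weyl.W1
import Pool.Agent.Helper619.Weyl.W2
import Pool.Agent.Helper619.Weyl.W3

namespace Pool.Agent.Helper619.Weyl.W9

open W1
open W2
open W3

theorem frac_of {k K : Type*} [Field k] [Field K] [Algebra k K] (u : Fin 2 → K)
    (hinj : Function.Injective (MvPolynomial.aeval u : MvPolynomial (Fin 2) k →ₐ[k] K))
    (hsurj : ∀ z : K, ∃ r q : MvPolynomial (Fin 2) k,
      z = MvPolynomial.aeval u r / MvPolynomial.aeval u q) :
    @IsFractionRing (MvPolynomial (Fin 2) k) _ K _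
      (MvPolynomial.aeval u : MvPolynomial (Fin 2) k →ₐ[k] K).toRingHom.toAlgebra := by
  let _ := (MvPolynomial.aeval u : MvPolynomial (Fin 2) k →ₐ[k] K).toRingHom.toAlgebra
  have : FaithfulSMul (MvPolynomial (Fin 2) k) K :=
    (faithfulSMul_iff_algebraMap_injective _ _).mpr hinj
  exact IsFractionRing.of_field _ _ hsurj

/-- The core in the field `F0`. -/
theorem core_F0 (p : ℕ) [Fact p.Prime] (hp : p % 4 = 3) (hp3 : 3 < p) {K : Type*} [Field K]
    [Algebra (ZMod p) K] (u : Fin 2 → K)
    (hinj : Function.Injective (MvPolynomial.aeval u : MvPolynomial (Fin 2) (ZMod p) →ₐ[ZMod p] K))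
    (hsurj : ∀ z : K, ∃ r q : MvPolynomial (Fin 2) (ZMod p),
      z = MvPolynomial.aeval u r / MvPolynomial.aeval u q)
    (w A B : K) (hw : w ≠ 8) (hAB : A ^ 2 - w * B ^ 2 = -4 * ((w + 4) * (w + 16)))
    (h2 : (2 : K) ≠ 0) :
    ∃ α β : K, w = α ^ 2 + β ^ 2 := by
  let _ := (MvPolynomial.aeval u : MvPolynomial (Fin 2) (ZMod p) →ₐ[ZMod p] K).toRingHom.toAlgebra
  have := frac_of u hinj hsurj
  have two : ((2 : ℕ) : ZMod p) ≠ 0 := by
    rw [Ne, ZMod.natCast_eq_zero_iff]
    intro h
    have := Nat.le_of_dvd (by norm_num) h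
    omega
  have two' : (2 : ZMod p) ≠ 0 := by exact_mod_cast two
  have four : (4 : ZMod p) ≠ 0 := by
    have : (4 : ZMod p) = 2 * 2 := by norm_num
    rw [this]; exact mul_ne_zero two' two'
  have sixteen : (16 : ZMod p) ≠ 0 := by
    have : (16 : ZMod p) = 4 * 4 := by norm_num
    rw [this]; exact mul_ne_zero four four
  have e4 : algebraMap (MvPolynomial (Fin 2) (ZMod p)) K (MvPolynomial.C 4) = 4 := by
    show MvPolynomial.aeval u (MvPolynomial.C 4) = 4
    rw [MvPolynomial.aeval_C]; exact map_ofNat _ 4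
  have e16 : algebraMap (MvPolynomial (Fin 2) (ZMod p)) K (MvPolynomial.C 16) = 16 := by
    show MvPolynomial.aeval u (MvPolynomial.C 16) = 16
    rw [MvPolynomial.aeval_C]; exact map_ofNat _ 16
  have r1 : w * (B ^ 2 - 144) = A ^ 2 + 4 * (8 - w) ^ 2 := by linear_combination -hAB
  have hc : B ^ 2 - 144 ≠ 0 := by
    intro h0
    rw [h0, mul_zero] at r1
    have hu : (8 - w) ≠ 0 := fun h => hw (by linear_combination -h)
    apply neg_one_ne_sq p hp (A / (2 * (8 - w)))
    rw [div_pow, div_eq_iff (pow_ne_zero _ (mul_ne_zero h2 hu))]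
    linear_combination -r1
  apply two_sq_of_three p hp (4 : ZMod p) (16 : ZMod p) four sixteen w (B ^ 2 - 144)
    (A * (8 - w) * B - 12 * (8 - w) * A) (6 * A ^ 2 + 2 * (8 - w) ^ 2 * B) hc
  rw [e4, e16]
  have r2 : (w + 4) * (w + 16) = (8 - w) ^ 2 + w * 36 := by ring
  calc (B ^ 2 - 144) ^ 2 * (w * (w + 4) * (w + 16))
      = (w * (B ^ 2 - 144)) * ((B ^ 2 - 144) * (8 - w) ^ 2 + 36 * (w * (B ^ 2 - 144))) := by ring
    _ = _ := by rw [r1]; ring

/-- TARGET: the fixed field of `τ` on `F_p(G,x)` is not generated by two elements `s,t`. -/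
theorem commutative_core (p : ℕ) [Fact p.Prime] (hp : p % 4 = 3) (hp3 : 3 < p)
    {C : Type*} [Field C] [Algebra (ZMod p) C] (τ : C →+* C) (hττ : ∀ c, τ (τ c) = c)
    (G x s t : C) (hind : AlgebraicIndependent (ZMod p) ![G, x])
    (hadj : IntermediateField.adjoin (ZMod p) ({G, x} : Set C) = ⊤)
    (hτG : τ G = -G) (hτx : x * τ x = -((G ^ 2 + 4) * (G ^ 2 + 16)))
    (hfix : ∀ c, τ c = c → c ∈ IntermediateField.adjoin (ZMod p) ({s, t} : Set C))
    (hs : τ s = s) (ht : τ t = t) : False := by
  have two : ((2 : ℕ) : ZMod p) ≠ 0 := by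
    rw [Ne, ZMod.natCast_eq_zero_iff]
    intro h
    have := Nat.le_of_dvd (by norm_num) h
    omega
  have two' : (2 : ZMod p) ≠ 0 := by exact_mod_cast two
  have three' : (3 : ZMod p) ≠ 0 := by
    have : ((3 : ℕ) : ZMod p) ≠ 0 := by
      rw [Ne, ZMod.natCast_eq_zero_iff]
      intro h
      have := Nat.le_of_dvd (by norm_num) h
      omega
    exact_mod_cast this
  have inj : Function.Injective (algebraMap (ZMod p) C) := (algebraMap (ZMod p) C).injective
  have h2 : (2 : C) ≠ 0 := by
    intro h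
    apply two'
    apply inj
    rw [map_ofNat, map_zero, h]
  have trG : Transcendental (ZMod p) G := by
    have := hind.transcendental 0
    simpa using this
  have hG0 : G ≠ 0 := by
    rintro rfl
    exact trG (isAlgebraic_zero)
  have hG8 : G ^ 2 ≠ 8 := by
    intro h
    apply trG
    refine ⟨Polynomial.X ^ 2 - Polynomial.C 8, ?_, ?_⟩
    · exact Polynomial.X_pow_sub_C_ne_zero (by norm_num) _
    · rw [map_sub, map_pow, Polynomial.aeval_X, Polynomial.aeval_C, h, map_ofNat, sub_self]
  -- fixed field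
  have comm : ∀ a : ZMod p, τ (algebraMap (ZMod p) C a) = algebraMap (ZMod p) C a := by
    intro a
    have : τ.comp (algebraMap (ZMod p) C) = algebraMap (ZMod p) C := Subsingleton.elim _ _
    exact congrArg (fun f : ZMod p →+* C => f a) this
  let Kf : IntermediateField (ZMod p) C :=
    { carrier := {c | τ c = c}
      mul_mem' := by
        intro a b ha hb
        simp only [Set.mem_ofPred_eq] at *
        rw [map_mul, ha, hb]
      add_mem' := by
        intro a b ha hb
        simp only [Set.mem_ofPred_eq] at *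
        rw [map_add, ha, hb]
      algebraMap_mem' := comm
      inv_mem' := by
        intro a ha
        show τ a⁻¹ = a⁻¹
        have : τ a = a := ha
        rw [map_inv₀, this] }
  have F0fix : ∀ c ∈ IntermediateField.adjoin (ZMod p) ({s, t} : Set C), τ c = c := by
    have : IntermediateField.adjoin (ZMod p) ({s, t} : Set C) ≤ Kf := by
      rw [IntermediateField.adjoin_le_iff]
      rintro c (rfl | rfl)
      · exact hs
      · exact ht
    exact fun c hc => this hc
  -- algebraic
  have tG2 : τ (G ^ 2) = G ^ 2 := by rw [map_pow, hτG]; ring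
  have mG2 := hfix _ tG2
  have halg : Algebra.IsAlgebraic (IntermediateField.adjoin (ZMod p) ({s, t} : Set C)) C := by
    constructor
    intro c
    have ta : τ ((c + τ c) / 2) = (c + τ c) / 2 := by
      rw [map_div₀, map_add, hττ, map_ofNat, add_comm]
    have tb : τ ((c - τ c) / (2 * G)) = (c - τ c) / (2 * G) := by
      rw [map_div₀, map_sub, hττ, map_mul, map_ofNat, hτG]
      rw [div_eq_div_iff (mul_ne_zero h2 (neg_ne_zero.mpr hG0)) (mul_ne_zero h2 hG0)]
      ring
    have ma := hfix _ ta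
    have mb := hfix _ tb
    refine ⟨(Polynomial.X - Polynomial.C ⟨_, ma⟩) ^ 2 -
      Polynomial.C (⟨_, mG2⟩ * ⟨_, mb⟩ ^ 2), ?_, ?_⟩
    · intro h0
      have hd := congrArg Polynomial.natDegree (sub_eq_zero.mp h0)
      rw [Polynomial.natDegree_C, Polynomial.natDegree_pow, Polynomial.natDegree_X_sub_C] at hd
      omega
    · rw [map_sub, map_pow, map_sub, Polynomial.aeval_X, Polynomial.aeval_C, Polynomial.aeval_C]
      have e1 : (algebraMap (IntermediateField.adjoin (ZMod p) ({s, t} : Set C)) C)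
        ⟨_, ma⟩ = (c + τ c) / 2 := rfl
      have e2 : (algebraMap (IntermediateField.adjoin (ZMod p) ({s, t} : Set C)) C)
        (⟨_, mG2⟩ * ⟨_, mb⟩ ^ 2) = G ^ 2 * ((c - τ c) / (2 * G)) ^ 2 := rfl
      rw [e1, e2]
      field_simp
      ring
  have hst := algIndep_pair G x s t hind halg
  -- F0 part
  have rst : Set.range ![s, t] = ({s, t} : Set C) := by
    simp [Set.pair_comm]
  have rGx : Set.range ![G, x] = ({G, x} : Set C) := by
    simp [Set.pair_comm]
  have ms : s ∈ IntermediateField.adjoin (ZMod p) ({s, t} : Set C) := hfix s hs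
  have mt : t ∈ IntermediateField.adjoin (ZMod p) ({s, t} : Set C) := hfix t ht
  set F0 := IntermediateField.adjoin (ZMod p) ({s, t} : Set C) with hF0
  let u : Fin 2 → F0 := ![⟨s, ms⟩, ⟨t, mt⟩]
  have uval : ∀ P : MvPolynomial (Fin 2) (ZMod p),
      ((MvPolynomial.aeval u P : F0) : C) = MvPolynomial.aeval ![s, t] P := by
    intro P
    have : (MvPolynomial.aeval ![s, t] : MvPolynomial (Fin 2) (ZMod p) →ₐ[ZMod p] C) =
        F0.val.comp (MvPolynomial.aeval u) := by
      apply MvPolynomial.algHom_ext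
      intro i
      fin_cases i <;> simp [u]
    rw [this]; rfl
  have uinj : Function.Injective
      (MvPolynomial.aeval u : MvPolynomial (Fin 2) (ZMod p) →ₐ[ZMod p] F0) := by
    intro P Q h
    apply hst
    rw [← uval, ← uval, h]
  have usurj : ∀ z : F0, ∃ r q : MvPolynomial (Fin 2) (ZMod p),
      z = MvPolynomial.aeval u r / MvPolynomial.aeval u q := by
    intro z
    have hz : (z : C) ∈ IntermediateField.adjoin (ZMod p) (Set.range ![s, t]) := by
      rw [rst]; exact z.2
    rw [IntermediateField.mem_adjoin_range_iff] at hz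
    obtain ⟨r, q, h⟩ := hz
    refine ⟨r, q, ?_⟩
    apply Subtype.ext
    rw [h, ← uval, ← uval]
    rfl
  have tA : τ (x + τ x) = x + τ x := by rw [map_add, hττ, add_comm]
  have tB : τ ((x - τ x) / G) = (x - τ x) / G := by
    rw [map_div₀, map_sub, hττ, hτG, div_neg, ← neg_div, neg_sub]
  have mA := hfix _ tA
  have mB := hfix _ tB
  obtain ⟨α, β, hαβ⟩ := core_F0 p hp hp3 u uinj usurj ⟨_, mG2⟩ ⟨_, mA⟩ ⟨_, mB⟩
    (by
      intro h
      exact hG8 (congrArg (fun z : F0 => (z : C)) h))
    (by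
      apply Subtype.ext
      show (x + τ x) ^ 2 - G ^ 2 * ((x - τ x) / G) ^ 2 = -4 * ((G ^ 2 + 4) * (G ^ 2 + 16))
      have : G ^ 2 * ((x - τ x) / G) ^ 2 = (x - τ x) ^ 2 := by field_simp
      rw [this]
      linear_combination 4 * hτx)
    (by
      intro h
      exact h2 (congrArg (fun z : F0 => (z : C)) h))
  have hw : G ^ 2 = (α : C) ^ 2 + (β : C) ^ 2 := congrArg (fun z : F0 => (z : C)) hαβ
  have tα : τ (α : C) = α := F0fix _ α.2
  have tβ : τ (β : C) = β := F0fix _ β.2
  have nG : G ≠ -G := by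
    intro h
    have : 2 * G = 0 := by linear_combination h
    exact (mul_ne_zero h2 hG0) this
  have n1 : G + α ≠ 0 := by
    intro h
    have e : G = -(α : C) := by linear_combination h
    apply nG
    calc G = -(α : C) := e
      _ = τ (-(α : C)) := by rw [map_neg, tα]
      _ = τ G := by rw [← e]
      _ = -G := hτG
  have n2 : (α : C) - G ≠ 0 := by
    intro h
    have e : G = (α : C) := by linear_combination -h
    apply nG
    calc G = (α : C) := e
      _ = τ (α : C) := by rw [tα]
      _ = τ G := by rw [← e]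
      _ = -G := hτG
  -- C part
  let _ : Algebra (MvPolynomial (Fin 2) (ZMod p)) C :=
    (MvPolynomial.aeval ![G, x] : MvPolynomial (Fin 2) (ZMod p) →ₐ[ZMod p] C).toRingHom.toAlgebra
  have : IsFractionRing (MvPolynomial (Fin 2) (ZMod p)) C := by
    apply frac_of ![G, x] hind
    intro z
    have hz : z ∈ IntermediateField.adjoin (ZMod p) (Set.range ![G, x]) := by
      rw [rGx, hadj]; trivial
    rwa [IntermediateField.mem_adjoin_range_iff] at hz
  have e4 : algebraMap (MvPolynomial (Fin 2) (ZMod p)) C (MvPolynomial.C (2 ^ 2)) = 4 := by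
    show MvPolynomial.aeval ![G, x] (MvPolynomial.C (2 ^ 2)) = 4
    rw [MvPolynomial.aeval_C, map_pow, map_ofNat]; norm_num
  have e16 : algebraMap (MvPolynomial (Fin 2) (ZMod p)) C (MvPolynomial.C (4 ^ 2)) = 16 := by
    show MvPolynomial.aeval ![G, x] (MvPolynomial.C (4 ^ 2)) = 16
    rw [MvPolynomial.aeval_C, map_pow, map_ofNat]; norm_num
  have four : (4 : ZMod p) ≠ 0 := by
    have : (4 : ZMod p) = 2 * 2 := by norm_num
    rw [this]; exact mul_ne_zero two' two'
  have h24 : (2 : ZMod p) ^ 2 ≠ 4 ^ 2 := by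
    intro h
    have : (2 : ZMod p) * 2 * 3 = 0 := by linear_combination -h
    exact mul_ne_zero (mul_ne_zero two' two') three' this
  refine no_norm p hp (F := C) 2 4 two' four h24 τ G x ?_ ?_ hτG ?_ ((β : C) / (G + α)) ?_
  · show G = MvPolynomial.aeval ![G, x] (MvPolynomial.X 0)
    rw [MvPolynomial.aeval_X]; rfl
  · show x = MvPolynomial.aeval ![G, x] (MvPolynomial.X 1)
    rw [MvPolynomial.aeval_X]; rfl
  · rw [e4, e16]; exact hτx
  · have n3 : -G + (α : C) ≠ 0 := by
      intro h; exact n2 (by linear_combination h)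
    rw [map_div₀, map_add, hτG, tα, tβ, div_mul_div_comm, div_eq_iff (mul_ne_zero n1 n3)]
    linear_combination -hw

end Pool.Agent.Helper619.Weyl.W9
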