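import Mathlib
import Pool.Agent.Helper619.Weyl.W4
import Pool.Agent.Helper619.Weyl.W5
import Pool.Agent.Helper619.Weyl.W9
import Pool.Agent.Helper619.Weyl.W10

namespace Pool.Agent.Helper619.Weyl.W11

open W4
open W5
open W9
open W10

theorem aux_algInd (p : ℕ) [Fact p.Prime] {C : Type*} [Field C] [Algebra (ZMod p) C]
    {D : Type*} [DivisionRing D] (ι : C →+* D) (φ : Polynomial (ZMod p) →+* D) (g x : D)
    (G xp : C) (hG : ι G = g ^ p - g) (hxp : ι xp = x ^ p) (hφ : φ Polynomial.X = g)
    (hind : ∀ f : ℕ →₀ Polynomial (ZMod p), f ≠ 0 → (f.sum fun j c => φ c * x ^ j) ≠ 0) :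
    AlgebraicIndependent (ZMod p) ![G, xp] := by
  have hp0 : 0 < p := (Fact.out : p.Prime).pos
  have hp1 : 1 < p := (Fact.out : p.Prime).one_lt
  rw [algebraicIndependent_iff]
  intro F hF
  set A : Polynomial (ZMod p) := Polynomial.X ^ p - Polynomial.X with hA
  have hφA : φ A = g ^ p - g := by rw [hA, map_sub, map_pow, hφ]
  set f : ℕ →₀ Polynomial (ZMod p) := ∑ m ∈ F.support,
    Finsupp.single (p * m 1) (Polynomial.C (MvPolynomial.coeff m F) * A ^ (m 0)) with hf
  have hE : (f.sum fun j c => φ c * x ^ j) = ι (MvPolynomial.aeval ![G, xp] F) := by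
    have e1 : (f.sum fun j c => φ c * x ^ j) = ∑ m ∈ F.support,
        φ (Polynomial.C (MvPolynomial.coeff m F) * A ^ (m 0)) * x ^ (p * m 1) := by
      have := map_sum (Finsupp.liftAddHom (fun j : ℕ =>
        ((AddMonoidHom.mulRight (x ^ j)).comp φ.toAddMonoidHom : Polynomial (ZMod p) →+ D)))
        (fun m => Finsupp.single (p * m 1) (Polynomial.C (MvPolynomial.coeff m F) * A ^ (m 0)))
        F.support
      rw [← hf] at this
      simp only [Finsupp.liftAddHom_apply_single] at this
      rw [Finsupp.liftAddHom_apply] at this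
      exact this
    rw [e1, MvPolynomial.aeval_def, MvPolynomial.eval₂_eq', map_sum]
    refine Finset.sum_congr rfl fun m _ => ?_
    rw [map_mul, map_mul, Fin.prod_univ_two, map_mul, map_pow, map_pow, map_pow, hφA]
    simp only [Matrix.cons_val_zero, Matrix.cons_val_one, hG, hxp]
    rw [pow_mul, mul_assoc]
    congr 1
    exact DFunLike.congr_fun (Subsingleton.elim (φ.comp Polynomial.C) (ι.comp (algebraMap (ZMod p) C))) _
  have hf0 : f = 0 := by
    by_contra hne
    apply hind f hne
    rw [hE, hF, map_zero]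
  ext m'
  rw [MvPolynomial.coeff_zero]
  set P : Polynomial (ZMod p) := ∑ m ∈ F.support.filter (fun m => m 1 = m' 1),
    Polynomial.C (MvPolynomial.coeff m F) * Polynomial.X ^ (m 0) with hP
  have hPA : P.comp A = 0 := by
    have h1 : f (p * m' 1) = 0 := by rw [hf0]; rfl
    rw [hf, Finsupp.finsetSum_apply] at h1
    rw [hP, ← Polynomial.coe_compRingHom_apply, map_sum, Finset.sum_filter]
    refine Eq.trans (Finset.sum_congr rfl fun m _ => ?_) h1
    rw [Finsupp.single_apply]
    by_cases h : m 1 = m' 1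
    · rw [if_pos h, if_pos (by rw [h])]
      simp
    · rw [if_neg h, if_neg (fun h' => h (Nat.eq_of_mul_eq_mul_left hp0 h'))]
  have hP0 : P = 0 := by
    rcases Polynomial.comp_eq_zero_iff.1 hPA with h | ⟨_, h⟩
    · exact h
    · exfalso
      have h2 := congrArg (fun q => Polynomial.coeff q 1) h
      simp only [hA, Polynomial.coeff_sub, Polynomial.coeff_X_pow, Polynomial.coeff_X_one,
        Polynomial.coeff_C] at h2
      rw [if_neg (by omega), if_neg (by omega)] at h2
      simp at h2
  have hc : Polynomial.coeff P (m' 0) = 0 := by rw [hP0, Polynomial.coeff_zero]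
  rw [hP, Polynomial.finsetSum_coeff] at hc
  simp only [Polynomial.coeff_C_mul, Polynomial.coeff_X_pow] at hc
  by_cases hm : m' ∈ F.support
  · rw [Finset.sum_eq_single m'] at hc
    · simpa using hc
    · intro b hb hbm
      rw [if_neg, mul_zero]
      intro h0
      apply hbm
      ext i
      fin_cases i
      · exact h0.symm
      · exact (Finset.mem_filter.1 hb).2
    · intro hn
      exact absurd (Finset.mem_filter.2 ⟨hm, rfl⟩ : m' ∈ F.support.filter (fun m => m 1 = m' 1)) hn
  · exact MvPolynomial.notMem_support_iff.1 hm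

theorem aux_comm {D : Type*} [DivisionRing D] (S : Set D) (z : D)
    (h : ∀ s ∈ S, z * s = s * z) (d : D) (hd : d ∈ Subfield.closure S) : z * d = d * z := by
  refine Subfield.closure_induction (p := fun d _ => Commute z d) (fun s hs => h s hs)
    (Commute.one_right z) (fun a b _ _ ha hb => Commute.add_right ha hb)
    (fun a _ ha => Commute.neg_right ha) (fun a _ ha => Commute.inv_right₀ ha)
    (fun a b _ _ ha hb => Commute.mul_right ha hb) hd

theorem aux_closure_top {D : Type*} [DivisionRing D] (X Y : D) (hX : X ∈ Subfield.closure ({X, Y} : Set D))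
    (hY : Y ∈ Subfield.closure ({X, Y} : Set D)) :
    Subfield.closure ({⟨X, hX⟩, ⟨Y, hY⟩} : Set (Subfield.closure ({X, Y} : Set D))) = ⊤ := by
  rw [eq_top_iff]
  rintro ⟨z, hz⟩ -
  have h := RingHom.map_field_closure (Subfield.closure ({X, Y} : Set D)).subtype
    ({⟨X, hX⟩, ⟨Y, hY⟩} : Set (Subfield.closure ({X, Y} : Set D)))
  rw [Set.image_pair] at h
  have h2 : z ∈ Subfield.map (Subfield.closure ({X, Y} : Set D)).subtype
      (Subfield.closure ({⟨X, hX⟩, ⟨Y, hY⟩} : Set (Subfield.closure ({X, Y} : Set D)))) := by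
    rw [h]
    exact hz
  obtain ⟨w, hw, hwz⟩ := h2
  have : w = ⟨z, hz⟩ := Subtype.ext hwz
  rw [← this]
  exact hw

theorem aux_weyl_pow {D : Type*} [DivisionRing D] (X Y : D) (hXY : X * Y - Y * X = 1) (n : ℕ) :
    X ^ n * Y - Y * X ^ n = n * X ^ (n - 1) := by
  induction n with
  | zero => simp
  | succ n ih =>
    have e : X ^ (n + 1) * Y - Y * X ^ (n + 1) = X ^ n * (X * Y - Y * X) + (X ^ n * Y - Y * X ^ n) * X := by
      rw [pow_succ]
      noncomm_ring
    rw [e, hXY, ih, mul_one, Nat.add_sub_cancel]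
    rcases n with _ | n
    · simp
    · rw [Nat.add_sub_cancel, mul_assoc, ← pow_succ]
      push_cast
      rw [add_mul ((n : D) + 1), one_mul, add_comm]

/-- TARGET -/
theorem char_p_core (p : ℕ) [Fact p.Prime] (hp : p % 4 = 3) (hp3 : 3 < p)
    {D : Type*} [DivisionRing D] [CharP D p] (φ : Polynomial (ZMod p) →+* D) (g x : D)
    (hφ : φ Polynomial.X = g) (hx : x ≠ 0) (hxg : x * g = (g + 2) * x)
    (hgen : Subfield.closure ({g, x} : Set D) = ⊤)
    (hind : ∀ f : ℕ →₀ Polynomial (ZMod p), f ≠ 0 → (f.sum fun j c => φ c * x ^ j) ≠ 0)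
    (τ : D →+* D) (hττ : ∀ d, τ (τ d) = d) (hτg : τ g = -g)
    (hτx : τ x = (-(((g - 1) ^ 2 + 1) * ((g - 1) ^ 2 + 4))) * x⁻¹)
    (X Y : D) (hX : τ X = X) (hY : τ Y = Y) (hXY : X * Y - Y * X = 1)
    (h1 : g ^ 2 ∈ Subfield.closure ({X, Y} : Set D))
    (h2 : x + τ x ∈ Subfield.closure ({X, Y} : Set D))
    (h3 : g * (x - τ x) ∈ Subfield.closure ({X, Y} : Set D)) : False := by
  have hpp : p.Prime := Fact.out
  have hodd : Odd p := Nat.odd_iff.2 (by omega)
  have two_ne : (2 : D) ≠ 0 := by
    intro h
    have h' : ((2 : ℕ) : D) = 0 := by exact_mod_cast h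
    rw [CharP.cast_eq_zero_iff D p] at h'
    have := Nat.le_of_dvd (by norm_num) h'
    omega
  have phi_ne : ∀ q : Polynomial (ZMod p), q ≠ 0 → φ q ≠ 0 := by
    intro q hq
    have := hind (Finsupp.single 0 q) (by simpa using hq)
    simpa [Finsupp.sum_single_index] using this
  have hg : g ≠ 0 := by
    rw [← hφ]
    exact phi_ne _ Polynomial.X_ne_zero
  have hx' : τ x * g = (g - 2) * τ x := by
    have h := congrArg τ hxg
    rw [map_mul, map_mul, map_add, hτg, map_ofNat] at h
    have : τ x * g = -(τ x * -g) := by rw [mul_neg, neg_neg]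
    rw [this, h]
    noncomm_ring
  set Kc : Subfield D := Subfield.closure ({g ^ 2, x + τ x, g * (x - τ x)} : Set D) with hKc
  set Lc : Subfield D := Subfield.closure ({X, Y} : Set D) with hLc
  have hXL : X ∈ Lc := Subfield.subset_closure (by simp)
  have hYL : Y ∈ Lc := Subfield.subset_closure (by simp)
  have hKfix : ∀ d ∈ Kc, τ d = d := by
    have : Kc ≤ RingHom.eqLocusField τ (RingHom.id D) := by
      rw [hKc, Subfield.closure_le]
      rintro d (rfl | rfl | rfl)
      · show τ (g ^ 2) = g ^ 2
        rw [map_pow, hτg, neg_sq]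
      · show τ (x + τ x) = x + τ x
        rw [map_add, hττ, add_comm]
      · show τ (g * (x - τ x)) = g * (x - τ x)
        rw [map_mul, map_sub, hττ, hτg]
        noncomm_ring
    intro d hd
    exact this hd
  have hgK : g ∉ Kc := by
    intro h
    have := hKfix g h
    rw [hτg] at this
    have h4 : (2 : D) * g = 0 := by
      rw [two_mul]
      nth_rewrite 1 [← this]
      simp
    rcases mul_eq_zero.1 h4 with h | h
    · exact two_ne h
    · exact hg h
  have hdec := decomp_add_mul two_ne g x (τ x) hg hxg hx' hgen hgK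
  have hFixK : ∀ d, τ d = d → d ∈ Kc := by
    intro d hd
    obtain ⟨a, ha, b, hb, rfl⟩ := hdec d
    rw [map_add, map_mul, hτg, hKfix a ha, hKfix b hb] at hd
    have h5 : (2 : D) * (g * b) = 0 := by
      have := sub_eq_zero.2 hd
      have e : (2 : D) * (g * b) = -(a + -g * b - (a + g * b)) := by noncomm_ring
      rw [e, this, neg_zero]
    rcases mul_eq_zero.1 h5 with h | h
    · exact absurd h two_ne
    · rw [h, add_zero]
      exact ha
  have hKL : Kc ≤ Lc := by
    rw [hKc, Subfield.closure_le]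
    rintro d (rfl | rfl | rfl)
    · exact h1
    · exact h2
    · exact h3
  -- the central elements
  obtain ⟨hcent, hnorm⟩ := pow_of_twisted p hp g x hx hxg
  set G : D := g ^ p - g with hG
  have hGc : ∀ d, G * d = d * G := fun d => aux_comm {g, x} G (fun s hs => (hcent s hs).1) d
    (by rw [hgen]; trivial)
  have hxc : ∀ d, x ^ p * d = d * x ^ p := fun d => aux_comm {g, x} (x ^ p)
    (fun s hs => (hcent s hs).2) d (by rw [hgen]; trivial)
  have hτG : τ G = -G := by
    rw [hG, map_sub, map_pow, hτg, hodd.neg_pow]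
    noncomm_ring
  have hG0 : G ≠ 0 := by
    have : φ (Polynomial.X ^ p - Polynomial.X) = G := by
      rw [map_sub, map_pow, hφ]
    rw [← this]
    apply phi_ne
    exact FiniteField.X_pow_card_sub_X_ne_zero _ hpp.one_lt
  have hcentral : ∀ z : D, (∀ s ∈ ({X, Y} : Set D), z * s = s * z) → ∀ d, z * d = d * z := by
    intro z hz
    have hzF : ∀ d ∈ Kc, z * d = d * z := fun d hd => aux_comm {X, Y} z hz d (hKL hd)
    have hu : G⁻¹ * g ∈ Kc := by
      apply hFixK
      rw [map_mul, map_inv₀, hτG, hτg, inv_neg, neg_mul_neg]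
    have hzg : z * g = g * z := by
      have e : g = G * (G⁻¹ * g) := by rw [← mul_assoc, mul_inv_cancel₀ hG0, one_mul]
      generalize G⁻¹ * g = u at hu e
      have h7 := hzF u hu
      calc z * g = z * (G * u) := by rw [← e]
        _ = (G * z) * u := by rw [← mul_assoc, ← hGc z]
        _ = G * (u * z) := by rw [mul_assoc, h7]
        _ = (G * u) * z := by rw [mul_assoc]
        _ = g * z := by rw [← e]
    intro d
    obtain ⟨a, ha, b, hb, rfl⟩ := hdec d
    rw [mul_add, add_mul, hzF a ha, ← mul_assoc, hzg, mul_assoc, hzF b hb, mul_assoc]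
  have hpz : (p : D) = 0 := CharP.cast_eq_zero D p
  have hXpc : ∀ d, X ^ p * d = d * X ^ p := by
    apply hcentral
    rintro s (rfl | rfl)
    · rw [← pow_succ, ← pow_succ']
    · have := aux_weyl_pow X s hXY p
      rw [hpz, zero_mul] at this
      exact sub_eq_zero.1 this
  have hYpc : ∀ d, Y ^ p * d = d * Y ^ p := by
    apply hcentral
    rintro s (rfl | rfl)
    · have := aux_weyl_pow Y (-s) (by rw [← hXY]; noncomm_ring) p
      rw [hpz, zero_mul] at this
      have h6 := sub_eq_zero.1 this
      rw [mul_neg, neg_mul] at h6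
      exact neg_injective h6
    · rw [← pow_succ, ← pow_succ']
  have hcfix : ∀ z : D, (∀ d, z * d = d * z) → τ z = z → z ∈ Subfield.closure ({X ^ p, Y ^ p} : Set D) := by
    intro z hz hτz
    have hzL : z ∈ Lc := hKL (hFixK z hτz)
    have : CharP Lc p := (RingHom.charP_iff Lc.subtype Subtype.val_injective p).2 inferInstance
    have h7 := center_of_weyl_pair p (⟨X, hXL⟩ : Lc) ⟨Y, hYL⟩ (Subtype.ext hXY)
      (aux_closure_top X Y hXL hYL) ⟨z, hzL⟩ (fun d => Subtype.ext (hz d.1))
    have h8 := RingHom.map_field_closure Lc.subtype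
      ({(⟨X, hXL⟩ : Lc) ^ p, (⟨Y, hYL⟩ : Lc) ^ p} : Set Lc)
    rw [Set.image_pair] at h8
    have h9 : z ∈ Subfield.map Lc.subtype (Subfield.closure
      ({(⟨X, hXL⟩ : Lc) ^ p, (⟨Y, hYL⟩ : Lc) ^ p} : Set Lc)) := ⟨_, h7, rfl⟩
    rw [h8] at h9
    exact h9
  -- the center
  have memc : ∀ z : D, (∀ d, z * d = d * z) → z ∈ Subring.center D := by
    intro z hz
    rw [Subring.mem_center_iff]
    intro d
    exact (hz d).symm
  have cmem : ∀ z : Subring.center D, ∀ d, (z : D) * d = d * z := by
    intro z d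
    exact ((Subring.mem_center_iff.1 z.2) d).symm
  have : CharP (Subring.center D) p :=
    (RingHom.charP_iff (Subring.center D).subtype Subtype.val_injective p).2 inferInstance
  letI : Algebra (ZMod p) (Subring.center D) := ZMod.algebra _ p
  have τmem : ∀ z : Subring.center D, τ z ∈ Subring.center D := by
    intro z
    apply memc
    intro d
    rw [← hττ d, ← map_mul, cmem z, map_mul]
  let τC : Subring.center D →+* Subring.center D :=
    RingHom.codRestrict (τ.comp (Subring.center D).subtype) (Subring.center D) τmem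
  have hτC : ∀ z : Subring.center D, ((τC z : Subring.center D) : D) = τ z := fun z => rfl
  have transfer : ∀ (u v z : Subring.center D),
      (z : D) ∈ Subfield.closure ({(u : D), (v : D)} : Set D) →
      z ∈ IntermediateField.adjoin (ZMod p) ({u, v} : Set (Subring.center D)) := by
    intro u v z hz
    have h8 := RingHom.map_field_closure (Subring.center D).subtype
      ({u, v} : Set (Subring.center D))
    rw [Set.image_pair] at h8
    have h9 : (z : D) ∈ Subfield.map (Subring.center D).subtype
      (Subfield.closure ({u, v} : Set (Subring.center D))) := by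
      rw [h8]
      exact hz
    obtain ⟨w, hw, hwz⟩ := h9
    have : w = z := Subtype.ext hwz
    rw [← this]
    have hle : Subfield.closure ({u, v} : Set (Subring.center D)) ≤
        (IntermediateField.adjoin (ZMod p) ({u, v} : Set (Subring.center D))).toSubfield := by
      rw [Subfield.closure_le]
      exact IntermediateField.subset_adjoin _ _
    exact hle hw
  refine commutative_core p hp hp3 τC (fun c => Subtype.ext (hττ c)) ⟨G, memc G hGc⟩
    ⟨x ^ p, memc _ hxc⟩ ⟨X ^ p, memc _ hXpc⟩ ⟨Y ^ p, memc _ hYpc⟩ ?_ ?_ ?_ ?_ ?_ ?_ ?_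
  · exact aux_algInd p (Subring.center D).subtype φ g x _ _ rfl rfl hφ hind
  · rw [eq_top_iff]
    intro z _
    apply transfer
    exact center_of_shift_pair p hp g x hx hxg hgen z (cmem z)
  · exact Subtype.ext hτG
  · apply Subtype.ext
    show x ^ p * τ (x ^ p) = -((G ^ 2 + 4) * (G ^ 2 + 16))
    rw [map_pow, hτx]
    exact hnorm
  · intro c hc
    apply transfer
    exact hcfix c (cmem c) (congrArg Subtype.val hc)
  · apply Subtype.ext
    show τ (X ^ p) = X ^ p
    rw [map_pow, hX]
  · apply Subtype.ext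
    show τ (Y ^ p) = Y ^ p
    rw [map_pow, hY]

end Pool.Agent.Helper619.Weyl.W11
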