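import Mathlib
import Pool.Agent.Helper619.Weyl.Skew

namespace Pool.Agent.Helper619.Weyl.W12

open Polynomial

section reduction

/-- componentwise reduction of a polynomial -/
noncomputable def redP {k : Type*} [Field k] {I : Type*} (p : I → ℕ)
    (rep : k → ∀ i, ZMod (p i)) (c : k[X]) (i : I) : (ZMod (p i))[X] :=
  ∑ l ∈ c.support, C (rep (c.coeff l) i) * X ^ l

theorem redP_zero {k : Type*} [Field k] {I : Type*} (p : I → ℕ)
    (rep : k → ∀ i, ZMod (p i)) (i : I) : redP p rep 0 i = 0 := by
  simp [redP]

theorem redP_coeff {k : Type*} [Field k] {I : Type*} (p : I → ℕ)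
    (rep : k → ∀ i, ZMod (p i)) (c : k[X]) (i : I) (l : ℕ) (hl : c.coeff l ≠ 0) :
    (redP p rep c i).coeff l = rep (c.coeff l) i := by
  rw [redP, Polynomial.finsetSum_coeff]
  rw [Finset.sum_eq_single l]
  · simp
  · intro b _ hb
    rw [Polynomial.coeff_C_mul_X_pow, if_neg hb.symm]
  · intro h
    exact absurd (Polynomial.mem_support_iff.2 hl) h

/-- componentwise reduction of a finitely supported family of polynomials -/
noncomputable def redF {k : Type*} [Field k] {I : Type*} (p : I → ℕ)
    (rep : k → ∀ i, ZMod (p i)) (f : ℕ →₀ k[X]) (i : I) : ℕ →₀ (ZMod (p i))[X] :=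
  Finsupp.onFinset f.support (fun j => redP p rep (f j) i) (by
    intro j hj
    rw [Finsupp.mem_support_iff]
    intro h
    apply hj
    rw [h, redP_zero])

/-- the quotient of a product of rings by eventual equality -/
theorem exists_quot.{u, v} {I : Type u} (F : Filter I) (D : I → Type v) [∀ i, Ring (D i)] :
    ∃ (Q : Type (max u v)) (_ : Ring Q) (mk : (∀ i, D i) →+* Q), Function.Surjective mk ∧
      ∀ f g : (∀ i, D i), mk f = mk g ↔ ∀ᶠ i in F, f i = g i := by
  let E : RingCon (∀ i, D i) :=
    { r := fun f g => ∀ᶠ i in F, f i = g i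
      iseqv := ⟨fun f => Filter.Eventually.of_forall (fun i => rfl),
        fun h => h.mono (fun i hi => hi.symm),
        fun h h' => by filter_upwards [h, h'] with i hi hi'; exact hi.trans hi'⟩
      add' := by
        intro w x y z h h'
        filter_upwards [h, h'] with i hi hi'
        rw [Pi.add_apply, Pi.add_apply, hi, hi']
      mul' := by
        intro w x y z h h'
        filter_upwards [h, h'] with i hi hi'
        rw [Pi.mul_apply, Pi.mul_apply, hi, hi'] }
  exact ⟨E.Quotient, inferInstance, E.mk', E.mk'_surjective, fun f g => E.eq⟩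

/-- TARGET: reduction of the division ring `Dv k` along an approximate homomorphism from `k` to
the fields `ZMod (p i)`. -/
theorem exists_reduction {k : Type*} [Field k] {I : Type*} (F : Filter I) [F.NeBot] (p : I → ℕ)
    [∀ i, Fact (p i).Prime] (rep : k → ∀ i, ZMod (p i))
    (h1 : ∀ᶠ i in F, rep 1 i = 1)
    (hadd : ∀ c d, ∀ᶠ i in F, rep (c + d) i = rep c i + rep d i)
    (hmul : ∀ c d, ∀ᶠ i in F, rep (c * d) i = rep c i * rep d i) :
    ∃ Rep : Dv k → ∀ i, Dv (ZMod (p i)),
      (∀ᶠ i in F, Rep 1 i = 1) ∧
      (∀ a b, ∀ᶠ i in F, Rep (a + b) i = Rep a i + Rep b i) ∧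
      (∀ a b, ∀ᶠ i in F, Rep (a * b) i = Rep a i * Rep b i) ∧
      (∀ c : k, ∀ᶠ i in F, Rep (polyD k (C c)) i = polyD (ZMod (p i)) (C (rep c i))) ∧
      (∀ᶠ i in F, Rep (gD k) i = gD (ZMod (p i))) ∧
      (∀ᶠ i in F, Rep (xD k) i = xD (ZMod (p i))) := by
  classical
  obtain ⟨Q, instQ, mk, hsurj, hmk⟩ := exists_quot F (fun i => Dv (ZMod (p i)))
  -- the map on constants
  let θ0 : k →+* Q := RingHom.mk'
    { toFun := fun c => mk (fun i => polyD (ZMod (p i)) (C (rep c i)))
      map_one' := by
        rw [← map_one mk, hmk]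
        filter_upwards [h1] with i hi
        rw [hi, map_one, map_one, Pi.one_apply]
      map_mul' := by
        intro c d
        rw [← map_mul mk, hmk]
        filter_upwards [hmul c d] with i hi
        rw [hi, map_mul, map_mul, Pi.mul_apply] }
    (by
      intro c d
      change mk _ = mk _ + mk _
      rw [← map_add mk, hmk]
      filter_upwards [hadd c d] with i hi
      rw [hi, map_add, map_add, Pi.add_apply])
  have hθ0 : ∀ c, θ0 c = mk (fun i => polyD (ZMod (p i)) (C (rep c i))) := fun c => rfl
  set gQ : Q := mk (fun i => gD (ZMod (p i))) with hgQ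
  set xQ : Q := mk (fun i => xD (ZMod (p i))) with hxQ
  have hcomm : ∀ c, Commute (θ0 c) gQ := by
    intro c
    have e : (fun i => polyD (ZMod (p i)) (C (rep c i))) * (fun i => gD (ZMod (p i))) =
        (fun i => gD (ZMod (p i))) * (fun i => polyD (ZMod (p i)) (C (rep c i))) := by
      funext i
      simp only [Pi.mul_apply, gD]
      rw [← map_mul, ← map_mul, mul_comm]
    rw [hθ0, hgQ, Commute, SemiconjBy, ← map_mul, ← map_mul, e]
  let θ : k[X] →+* Q := Polynomial.eval₂RingHom' θ0 gQ hcomm
  have hθC : ∀ c, θ (C c) = θ0 c := fun c => by simp [θ]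
  have hθX : θ X = gQ := by simp [θ]
  have hx : ∀ f, xQ * θ f = θ (shift k 1 f) * xQ := by
    intro f
    induction f using Polynomial.induction_on' with
    | add f g hf hg => rw [map_add, map_add, map_add, mul_add, add_mul, hf, hg]
    | monomial n c =>
      have hpow : ∀ n : ℕ, xQ * θ (X ^ n) = θ (shift k 1 (X ^ n)) * xQ := by
        intro n
        induction n with
        | zero => simp
        | succ n ih =>
          have hxg : xQ * gQ = θ (X + 2 * ((1 : ℕ) : k[X])) * xQ := by
            rw [map_add, hθX, map_mul, map_ofNat, map_natCast, hgQ, hxQ, ← map_mul]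
            have e : (fun i => xD (ZMod (p i))) * (fun i => gD (ZMod (p i))) =
                ((fun i => gD (ZMod (p i))) + 2 * ((1 : ℕ) : ∀ i, Dv (ZMod (p i)))) *
                  (fun i => xD (ZMod (p i))) := by
              funext i
              simp only [Pi.mul_apply, Pi.add_apply]
              rw [gD, xD_mul_polyD, shift_X, map_add, map_mul, map_ofNat, map_natCast]
              rfl
            rw [e, map_mul, map_add, map_mul, map_ofNat, map_natCast]
          rw [pow_succ, map_mul, ← mul_assoc, ih, mul_assoc, hθX, hxg, ← mul_assoc, map_mul,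
            shift_X, map_mul]
      have e : (fun i => xD (ZMod (p i))) * (fun i => polyD (ZMod (p i)) (C (rep c i))) =
          (fun i => polyD (ZMod (p i)) (C (rep c i))) * (fun i => xD (ZMod (p i))) := by
        funext i
        simp only [Pi.mul_apply]
        rw [xD_mul_polyD, shift_C]
      have hxc : xQ * θ (C c) = θ (C c) * xQ := by
        rw [hθC, hθ0, hxQ, ← map_mul, ← map_mul, e]
      rw [← Polynomial.C_mul_X_pow_eq_monomial, map_mul, map_mul, map_mul, shift_C, ← mul_assoc,
        hxc, mul_assoc, hpow, ← mul_assoc]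
  -- theta on all polynomials
  have hθ : ∀ c : k[X], θ c = mk (fun i => polyD (ZMod (p i)) (redP p rep c i)) := by
    intro c
    conv_lhs => rw [c.as_sum_support_C_mul_X_pow]
    rw [map_sum]
    have e : (fun i => polyD (ZMod (p i)) (redP p rep c i)) =
        ∑ l ∈ c.support, (fun i => polyD (ZMod (p i)) (C (rep (c.coeff l) i))) *
          (fun i => gD (ZMod (p i))) ^ l := by
      funext i
      rw [redP, map_sum, Finset.sum_apply]
      apply Finset.sum_congr rfl
      intro l _
      rw [map_mul, map_pow, Pi.mul_apply, Pi.pow_apply, gD]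
    rw [e, map_sum]
    apply Finset.sum_congr rfl
    intro l _
    rw [map_mul, map_mul, map_pow, map_pow, hθC, hθX, hθ0]
  have hu : ∀ f : ℕ →₀ k[X], f ≠ 0 → IsUnit (f.sum fun j c => θ c * xQ ^ j) := by
    intro f hf
    set u : ∀ i, Dv (ZMod (p i)) := fun i =>
      (redF p rep f i).sum fun j c => polyD (ZMod (p i)) c * xD (ZMod (p i)) ^ j with hudef
    have hmku : (f.sum fun j c => θ c * xQ ^ j) = mk u := by
      have e : u = ∑ j ∈ f.support, (fun i => polyD (ZMod (p i)) (redP p rep (f j) i)) *
          (fun i => xD (ZMod (p i))) ^ j := by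
        funext i
        rw [hudef, Finset.sum_apply]
        simp only []
        rw [redF, Finsupp.onFinset_sum]
        · rfl
        · intro j
          rw [map_zero, zero_mul]
      rw [e, map_sum, Finsupp.sum]
      apply Finset.sum_congr rfl
      intro j _
      rw [map_mul, map_pow, hθ, hxQ]
    have hune : ∀ᶠ i in F, u i ≠ 0 := by
      obtain ⟨j, hj⟩ : ∃ j, f j ≠ 0 := by
        by_contra! hcon
        exact hf (Finsupp.ext hcon)
      obtain ⟨l, hl⟩ : ∃ l, (f j).coeff l ≠ 0 := by
        by_contra! hcon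
        exact hj (Polynomial.ext hcon)
      have hc := hmul ((f j).coeff l) ((f j).coeff l)⁻¹
      rw [mul_inv_cancel₀ hl] at hc
      filter_upwards [hc, h1] with i hi hi1
      have hr : rep ((f j).coeff l) i ≠ 0 := by
        intro h0
        rw [h0, zero_mul, hi1] at hi
        exact one_ne_zero hi
      apply sum_ne_zero
      intro h0
      apply hr
      rw [← redP_coeff p rep (f j) i l hl]
      have : redF p rep f i j = redP p rep (f j) i := rfl
      rw [← this, h0]
      simp
    rw [hmku]
    refine ⟨⟨mk u, mk (fun i => (u i)⁻¹), ?_, ?_⟩, rfl⟩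
    · rw [← map_mul, ← map_one mk, hmk]
      filter_upwards [hune] with i hi
      exact mul_inv_cancel₀ hi
    · rw [← map_mul, ← map_one mk, hmk]
      filter_upwards [hune] with i hi
      exact inv_mul_cancel₀ hi
  obtain ⟨Φ, hΦ, hΦx⟩ := exists_lift k θ xQ hx hu
  have hrep : ∀ d : Dv k, ∃ r, mk r = Φ d := fun d => hsurj (Φ d)
  choose Rep hRep using hrep
  refine ⟨Rep, ?_, ?_, ?_, ?_, ?_, ?_⟩
  · have : mk (Rep 1) = mk 1 := by rw [hRep, map_one, map_one]
    exact (hmk _ _).1 this
  · intro a b
    have : mk (Rep (a + b)) = mk (Rep a + Rep b) := by rw [hRep, map_add, map_add, hRep, hRep]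
    exact (hmk _ _).1 this
  · intro a b
    have : mk (Rep (a * b)) = mk (Rep a * Rep b) := by rw [hRep, map_mul, map_mul, hRep, hRep]
    exact (hmk _ _).1 this
  · intro c
    have : mk (Rep (polyD k (C c))) = mk (fun i => polyD (ZMod (p i)) (C (rep c i))) := by
      rw [hRep, hΦ, hθC, hθ0]
    exact (hmk _ _).1 this
  · have : mk (Rep (gD k)) = mk (fun i => gD (ZMod (p i))) := by
      rw [hRep, gD, hΦ, hθX, hgQ]
    exact (hmk _ _).1 this
  · have : mk (Rep (xD k)) = mk (fun i => xD (ZMod (p i))) := by
      rw [hRep, hΦx, hxQ]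
    exact (hmk _ _).1 this

end reduction

end Pool.Agent.Helper619.Weyl.W12
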