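import Mathlib

namespace Pool.Agent.Helper619.Weyl.W13

namespace J1896
open Polynomial

section
variable {k D : Type*} [Field k] [DivisionRing D] [Algebra k D]

theorem u_aeval (u v : D) (huv : u * v = (v + 2) * u) (q : k[X]) :
    u * aeval v q = aeval v (q.comp (X + C 2)) * u := by
  induction q using Polynomial.induction_on' with
  | add p q hp hq => simp only [map_add, mul_add, add_mul, add_comp, hp, hq]
  | monomial n a =>
    have h2 : aeval v (X + C (2:k)) = v + 2 := by
      rw [map_add, aeval_X, aeval_C, map_ofNat]
    have hn : ∀ n : ℕ, u * v ^ n = (v + 2) ^ n * u := by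
      intro n
      induction n with
      | zero => simp
      | succ n ih => rw [pow_succ, ← mul_assoc, ih, mul_assoc, huv, ← mul_assoc, ← pow_succ]
    rw [← C_mul_X_pow_eq_monomial]
    simp only [map_mul, aeval_C, map_pow, aeval_X, mul_comp, C_comp, pow_comp, X_comp, h2]
    rw [← mul_assoc, ← Algebra.commutes a u, mul_assoc, hn, mul_assoc]

theorem upow_aeval (u v : D) (huv : u * v = (v + 2) * u) (j : ℕ) (q : k[X]) :
    u ^ j * aeval v q = aeval v (q.comp (X + C (2 * (j:k)))) * u ^ j := by
  induction j with
  | zero => simp
  | succ j ih =>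
    rw [pow_succ', mul_assoc, ih, ← mul_assoc, u_aeval u v huv, mul_assoc, comp_assoc]
    congr 3
    simp only [add_comp, X_comp, C_comp]
    rw [add_assoc, ← C_add]
    push_cast
    ring_nf

theorem transc [CharZero k] (u v : D) (hu : u ≠ 0) (huv : u * v = (v + 2) * u) :
    ∀ (n : ℕ) (q : k[X]), q.natDegree ≤ n → aeval v q = 0 → q = 0 := by
  intro n
  induction n with
  | zero =>
    intro q hq h0
    rw [Polynomial.eq_C_of_natDegree_le_zero hq] at h0 ⊢
    rw [aeval_C] at h0
    have : q.coeff 0 = 0 := by
      by_contra hne
      have := (map_ne_zero (algebraMap k D)).2 hne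
      exact this h0
    rw [this, C_0]
  | succ n ih =>
    intro q hq h0
    by_contra hq0
    have h1 : aeval v (q.comp (X + C 2)) = 0 := by
      have := u_aeval u v huv q
      rw [h0, mul_zero] at this
      exact (mul_eq_zero.1 this.symm).resolve_right hu
    have hdeg : (X + C (2:k)).natDegree = 1 := natDegree_X_add_C _
    have hd : (q.comp (X + C 2)).natDegree = q.natDegree := by
      rw [natDegree_comp, hdeg, mul_one]
    have hc0 : q.comp (X + C 2) ≠ 0 := by
      intro h
      rw [comp_eq_zero_iff] at h
      rcases h with h | ⟨_, h⟩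
      · exact hq0 h
      · have := congrArg natDegree h
        rw [hdeg, natDegree_C] at this
        exact one_ne_zero this
    have hl : (q.comp (X + C 2)).leadingCoeff = q.leadingCoeff := by
      rw [leadingCoeff_comp (by rw [hdeg]; exact one_ne_zero), leadingCoeff_X_add_C, one_pow,
        mul_one]
    have hlt : (q - q.comp (X + C 2)).degree < q.degree := by
      apply degree_sub_lt_left
      · rw [degree_eq_natDegree hq0, degree_eq_natDegree hc0, hd]
      · exact hq0
      · rw [hl]
    have hz : q - q.comp (X + C 2) = 0 := by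
      by_contra hne
      apply hne
      apply ih
      · have := natDegree_lt_natDegree hne hlt
        omega
      · rw [map_sub, h0, h1, sub_zero]
    -- q is periodic
    have hper : ∀ m : ℕ, eval (2 * (m:k)) q = eval 0 q := by
      intro m
      induction m with
      | zero => simp
      | succ m ihm =>
        have h := congrArg (eval (2 * (m:k))) (sub_eq_zero.1 hz)
        rw [eval_comp] at h
        simp only [eval_add, eval_X, eval_C] at h
        rw [← ihm, h]
        congr 1
        push_cast
        ring
    have hqC : q = C (eval 0 q) := by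
      apply eq_of_infinite_eval_eq
      apply Set.infinite_of_injective_forall_mem (f := fun m : ℕ => (2 * (m:k)))
      · intro a b hab
        simpa using hab
      · intro m
        simp [hper m]
    rw [hqC, aeval_C] at h0
    have h00 : eval 0 q = 0 := by
      by_contra hne
      exact (map_ne_zero (algebraMap k D)).2 hne h0
    rw [h00, C_0] at hqC
    exact hq0 hqC

end

theorem eig {D : Type*} [DivisionRing D] [CharZero D] (v : D) (s : Finset ℕ) :
    ∀ x : ℕ → D, (∀ m, v * x m - x m * v = -(2 * (m:D)) * x m) → ∑ m ∈ s, x m = 0 →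
      ∀ m ∈ s, x m = 0 := by
  induction s using Finset.induction_on with
  | empty => intro x _ _ m hm; simp at hm
  | insert a s ha ih =>
    intro x hx hs
    have key : ∀ m ∈ s, x m = 0 := by
      have h1 : ∑ m ∈ s, (2 * (a:D) - 2 * (m:D)) * x m = 0 := by
        have h2 : v * (∑ m ∈ insert a s, x m) - (∑ m ∈ insert a s, x m) * v
            + (2 * (a:D)) * (∑ m ∈ insert a s, x m) = 0 := by rw [hs]; simp
        rw [Finset.mul_sum, Finset.sum_mul, Finset.mul_sum, ← Finset.sum_sub_distrib,
          ← Finset.sum_add_distrib, Finset.sum_insert ha] at h2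
        rw [hx a, neg_mul, neg_add_cancel, zero_add] at h2
        rw [← h2]
        apply Finset.sum_congr rfl
        intro m _
        rw [hx m]
        noncomm_ring
      have h3 := ih (fun m => (2 * (a:D) - 2 * (m:D)) * x m) ?_ h1
      · intro m hm
        have := h3 m hm
        have hne : (2 * (a:D) - 2 * (m:D)) ≠ 0 := by
          have hcast : (2 * (a:D) - 2 * (m:D)) = (((2 * (a:ℤ) - 2 * (m:ℤ)) : ℤ) : D) := by
            push_cast; rfl
          rw [hcast]
          have : a ≠ m := fun h => ha (h ▸ hm)
          exact_mod_cast (by omega : (2 * (a:ℤ) - 2 * (m:ℤ)) ≠ 0)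
        exact (mul_eq_zero.1 this).resolve_left hne
      · intro m
        have hcast : (2 * (a:D) - 2 * (m:D)) = (((2 * (a:ℤ) - 2 * (m:ℤ)) : ℤ) : D) := by
          push_cast; rfl
        have hcast2 : (2 * (m:D)) = (((2 * (m:ℤ)) : ℤ) : D) := by
          push_cast; rfl
        rw [hcast, hcast2]
        have hx' := hx m
        rw [hcast2] at hx'
        rw [← mul_assoc, ← (Int.cast_commute _ v).eq, mul_assoc, mul_assoc, ← mul_sub, hx',
          ← mul_assoc, ← mul_assoc]
        congr 1
        rw [← Int.cast_neg, ← Int.cast_mul, ← Int.cast_mul, mul_comm]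
    intro m hm
    rw [Finset.mem_insert] at hm
    rcases hm with rfl | hm
    · rw [Finset.sum_insert ha, Finset.sum_eq_zero key, add_zero] at hs
      exact hs
    · exact key m hm

section
variable {k D : Type*} [Field k] [DivisionRing D] [Algebra k D]

/-- evaluation polynomial of a word -/
noncomputable def EE {n : ℕ} (p : Fin n → k[X]) : List (Fin n) → k[X]
  | [] => 1
  | i :: w => p i * (EE p w).comp (X + C 2)

theorem lift_word (u v : D) (huv : u * v = (v + 2) * u) {n : ℕ} (p : Fin n → k[X])
    (w : List (Fin n)) :
    (w.map (fun i => aeval v (p i) * u)).prod = aeval v (EE p w) * u ^ w.length := by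
  induction w with
  | nil => simp [EE]
  | cons i w ih =>
    rw [List.map_cons, List.prod_cons, ih, EE, map_mul, List.length_cons, pow_succ', mul_assoc,
      ← mul_assoc u, u_aeval u v huv]
    simp only [mul_assoc]

theorem eval_EE {n : ℕ} (p : Fin n → k[X]) :
    ∀ (w w0 : List (Fin n)) (s : ℕ), w.length = w0.length →
      (∀ (j : ℕ) (hj : j < w0.length) (i : Fin n),
        eval (2 * ((j + s : ℕ) : k)) (p i) = if w0[j] = i then 1 else 0) →
      eval (2 * (s : k)) (EE p w) = if w = w0 then 1 else 0 := by
  intro w
  induction w with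
  | nil =>
    intro w0 s hl _
    have : w0 = [] := by
      rw [List.length_nil] at hl
      exact List.length_eq_zero_iff.1 hl.symm
    rw [this]
    simp [EE]
  | cons i w ih =>
    intro w0 s hl h
    match w0, hl, h with
    | i0 :: w0, hl, h =>
      have hlen : w.length = w0.length := by simpa using hl
      have h0 := h 0 (by simp) i
      have h1 := ih w0 (s + 1) hlen (by
        intro j hj i'
        have := h (j + 1) (by simpa using hj) i'
        rw [show j + 1 + s = j + (s + 1) by ring] at this
        simpa using this)
      rw [EE, eval_mul, eval_comp]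
      simp only [eval_add, eval_X, eval_C]
      have h2 : (2 * (s:k) + 2) = 2 * ((s + 1 : ℕ) : k) := by push_cast; ring
      rw [h2, h1]
      simp only [zero_add, List.getElem_cons_zero] at h0
      rw [h0]
      by_cases hi : i0 = i
      · subst hi
        by_cases hw : w = w0
        · simp [hw]
        · simp [hw]
      · have : ¬ (i = i0) := fun h => hi h.symm
        simp [hi, this]

theorem lift_eq {n : ℕ} (a : Fin n → D) (f : FreeAlgebra k (Fin n)) :
    FreeAlgebra.lift k a f =
      (FreeAlgebra.equivMonoidAlgebraFreeMonoid f).coeff.sum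
        (fun w c => c • (w.toList.map a).prod) := by
  have h : FreeAlgebra.lift k a =
      (MonoidAlgebra.lift k D (FreeMonoid (Fin n)) (FreeMonoid.lift a)).comp
        (FreeAlgebra.equivMonoidAlgebraFreeMonoid (R := k) (X := Fin n)).toAlgHom := by
    apply FreeAlgebra.hom_ext
    funext i
    simp [FreeAlgebra.equivMonoidAlgebraFreeMonoid]
  rw [h]
  simp only [AlgHom.comp_apply]
  rw [MonoidAlgebra.lift_apply]
  apply Finsupp.sum_congr
  intro w _
  rw [FreeMonoid.lift_apply]

theorem main [CharZero k] {n : ℕ} (u v : D) (hu : u ≠ 0) (huv : u * v = (v + 2) * u)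
    (f : FreeAlgebra k (Fin n))
    (hf : f ≠ 0) : ∃ a : Fin n → D, FreeAlgebra.lift k a f ≠ 0 := by
  classical
  have : CharZero D := charZero_of_injective_algebraMap (algebraMap k D).injective
  by_contra hcon
  push Not at hcon
  obtain ⟨g, hg⟩ : ∃ g, g = (FreeAlgebra.equivMonoidAlgebraFreeMonoid f).coeff := ⟨_, rfl⟩
  have hc0 : g ≠ 0 := by
    intro h
    apply hf
    have h1 : FreeAlgebra.equivMonoidAlgebraFreeMonoid f = 0 := by
      apply MonoidAlgebra.ext
      rw [← hg, h]
      rfl
    have := congrArg FreeAlgebra.equivMonoidAlgebraFreeMonoid.symm h1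
    rw [AlgEquiv.symm_apply_apply, map_zero] at this
    exact this
  obtain ⟨w0, hw0⟩ := Finsupp.support_nonempty_iff.2 hc0
  set L0 := w0.toList with hL0
  set d := L0.length with hd
  -- interpolating polynomials
  let p : Fin n → k[X] := fun i => Lagrange.interpolate (Finset.range d) (fun j : ℕ => 2 * (j : k))
    (fun j => if L0[j]? = some i then 1 else 0)
  have hp : ∀ (j : ℕ) (hj : j < L0.length) (i : Fin n),
      eval (2 * ((j + 0 : ℕ) : k)) (p i) = if L0[j] = i then 1 else 0 := by
    intro j hj i
    have := Lagrange.eval_interpolate_at_node (s := Finset.range d) (v := fun j : ℕ => 2 * (j : k))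
      (i := j) (fun j => if L0[j]? = some i then (1:k) else 0) (by
        intro a _ b _ hab
        simpa using hab) (by rw [Finset.mem_range]; exact hj)
    rw [add_zero]
    refine this.trans ?_
    rw [List.getElem?_eq_getElem hj]
    simp
  have h0 := hcon (fun i => aeval v (p i) * u)
  rw [lift_eq, ← hg] at h0
  -- group by length
  have h1 : g.sum (fun w c => c • (w.toList.map (fun i => aeval v (p i) * u)).prod)
      = ∑ m ∈ g.support.image (fun w => w.toList.length),
        aeval v (∑ w ∈ g.support with w.toList.length = m, g w • EE p w.toList) * u ^ m := by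
    rw [Finsupp.sum, ← Finset.sum_fiberwise_of_maps_to
      (t := g.support.image (fun w => w.toList.length)) (g := fun w => w.toList.length)
      (fun x hx => Finset.mem_image_of_mem _ hx)]
    apply Finset.sum_congr rfl
    intro m _
    rw [map_sum, Finset.sum_mul]
    apply Finset.sum_congr rfl
    intro w hw
    rw [Finset.mem_filter] at hw
    rw [lift_word u v huv p, hw.2, map_smul, smul_mul_assoc]
  rw [h1] at h0
  have h2 := eig v _ (fun m => aeval v (∑ w ∈ g.support with w.toList.length = m,
    g w • EE p w.toList) * u ^ m) (by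
      intro m
      set q := ∑ w ∈ g.support with w.toList.length = m, g w • EE p w.toList
      have hvq : v * aeval v q = aeval v q * v := by
        have h3 : aeval v (X * q) = aeval v (q * X) := by rw [mul_comm]
        rwa [map_mul, map_mul, aeval_X] at h3
      have huj := upow_aeval u v huv m (X : k[X])
      rw [X_comp, aeval_X, map_add, aeval_X, aeval_C] at huj
      have hc : algebraMap k D (2 * (m:k)) = 2 * (m:D) := by
        rw [map_mul, map_ofNat, map_natCast]
      have hcq := Algebra.commutes (2 * (m:k)) (aeval v q)
      rw [hc] at huj hcq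
      rw [← mul_assoc v, hvq, mul_assoc (aeval v q) (u ^ m) v, huj, ← mul_assoc (aeval v q) _ (u ^ m),
        mul_add, ← hcq, add_mul, sub_add_cancel_left, neg_mul, mul_assoc (2 * (m:D))]) h0 d (by
      rw [Finset.mem_image]
      exact ⟨w0, hw0, rfl⟩)
  have h3 : aeval v (∑ w ∈ g.support with w.toList.length = d, g w • EE p w.toList) = 0 :=
    (mul_eq_zero.1 h2).resolve_right (pow_ne_zero _ hu)
  have h4 := transc u v hu huv _ _ le_rfl h3
  have h5 := congrArg (eval (2 * ((0 : ℕ) : k))) h4
  rw [eval_finsetSum, eval_zero, Finset.sum_eq_single w0] at h5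
  · rw [eval_smul, eval_EE p w0.toList L0 0 rfl hp, if_pos rfl] at h5
    rw [smul_eq_mul, mul_one] at h5
    exact (Finsupp.mem_support_iff.1 hw0) h5
  · intro w hw hne
    rw [Finset.mem_filter] at hw
    rw [eval_smul, eval_EE p w.toList L0 0 hw.2 hp, if_neg, smul_zero]
    intro h
    exact hne (FreeMonoid.toList.injective h)
  · intro hn
    exfalso
    apply hn
    rw [Finset.mem_filter]
    exact ⟨hw0, rfl⟩

end

theorem fin {D : Type*} [DivisionRing D] [CharZero D]
    (u v : D) (hu : u ≠ 0) (huv : u * v = (v + 2) * u) :
    ¬ Module.Finite (Subring.center D) D := by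
  intro hfin
  have : CharZero (Subring.center D) := by
    constructor
    intro a b hab
    have := congrArg (fun x : Subring.center D => (x : D)) hab
    simpa using this
  let Lu : D →ₗ[Subring.center D] D := LinearMap.mulLeft (Subring.center D) u
  let Lv : D →ₗ[Subring.center D] D := LinearMap.mulLeft (Subring.center D) v
  let Lu' : D →ₗ[Subring.center D] D := LinearMap.mulLeft (Subring.center D) u⁻¹
  have h1 : Lu * Lv * Lu' = Lv + 2 • 1 := by
    ext x
    simp only [Lu, Lv, Lu', Module.End.mul_apply, LinearMap.mulLeft_apply, LinearMap.add_apply,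
      LinearMap.smul_apply, Module.End.one_apply]
    rw [← mul_assoc, huv, mul_assoc, ← mul_assoc u, mul_inv_cancel₀ hu, one_mul, add_mul]
    simp [two_smul, two_mul]
  have h2 : Lu' * Lu = 1 := by
    ext x
    simp only [Lu, Lu', Module.End.mul_apply, LinearMap.mulLeft_apply, Module.End.one_apply]
    rw [← mul_assoc, inv_mul_cancel₀ hu, one_mul]
  have h3 := congrArg (LinearMap.trace (Subring.center D) D) h1
  rw [LinearMap.trace_mul_comm, ← mul_assoc, h2, one_mul, map_add, map_nsmul,
    LinearMap.trace_one] at h3
  have h4 : (2 • (Module.finrank (Subring.center D) D : Subring.center D)) = 0 := by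
    have := h3.symm
    rwa [add_eq_left] at this
  have h5 : 0 < Module.finrank (Subring.center D) D := Module.finrank_pos
  rw [nsmul_eq_mul] at h4
  have h6 : ((2 * Module.finrank (Subring.center D) D : ℕ) : Subring.center D) = 0 := by
    push_cast
    exact_mod_cast h4
  have h7 := Nat.cast_eq_zero.1 h6
  omega

end J1896

/-- TARGET: a division ring of characteristic zero containing `u ≠ 0`, `v` with `u v = (v+2) u`
satisfies no polynomial identity over any central field `k`. -/
theorem no_identity {k D : Type*} [Field k] [CharZero k] [DivisionRing D] [Algebra k D]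
    (u v : D) (hu : u ≠ 0) (huv : u * v = (v + 2) * u) (n : ℕ) (f : FreeAlgebra k (Fin n))
    (hf : f ≠ 0) : ∃ a : Fin n → D, FreeAlgebra.lift k a f ≠ 0 :=
  J1896.main u v hu huv f hf

/-- TARGET: such a division ring is not finite dimensional over its centre. -/
theorem not_finite_over_center {D : Type*} [DivisionRing D] [CharZero D]
    (u v : D) (hu : u ≠ 0) (huv : u * v = (v + 2) * u) :
    ¬ Module.Finite (Subring.center D) D :=
  J1896.fin u v hu huv

end Pool.Agent.Helper619.Weyl.W13
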