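import Mathlib
import Pool.Agent.Helper619.Weyl.Skew

namespace Pool.Agent.Helper619.Weyl.W14

open Polynomial

section centre

theorem polyD_injective (k : Type*) [Field k] : Function.Injective (polyD k) := by
  intro f g h
  by_contra hne
  have hsub : f - g ≠ 0 := sub_ne_zero.2 hne
  have hs : (Finsupp.single 0 (f - g) : ℕ →₀ k[X]) ≠ 0 := by
    intro h0
    exact hsub (Finsupp.single_eq_zero.1 h0)
  apply sum_ne_zero k _ hs
  rw [Finsupp.sum_single_index (by simp)]
  rw [pow_zero, mul_one, map_sub, h, sub_self]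

theorem xD_pow_mul_polyD (k : Type*) [Field k] (n : ℕ) (f : k[X]) :
    xD k ^ n * polyD k f = polyD k (shift k n f) * xD k ^ n := by
  induction n generalizing f with
  | zero => simp [shift_zero]
  | succ n ih =>
    rw [pow_succ', mul_assoc, ih, ← mul_assoc, xD_mul_polyD, ← shift_add, add_comm 1 n, mul_assoc,
      ← pow_succ']

theorem xD_ne_zero (k : Type*) [Field k] : xD k ≠ 0 := by
  have hs : (Finsupp.single 1 (1 : k[X]) : ℕ →₀ k[X]) ≠ 0 := by
    intro h0
    exact one_ne_zero (Finsupp.single_eq_zero.1 h0)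
  have := sum_ne_zero k _ hs
  rw [Finsupp.sum_single_index (by simp)] at this
  simpa using this

theorem const_of_shift {k : Type*} [Field k] [CharZero k] (Q : k[X]) (h : shift k 1 Q = Q) :
    ∃ c : k, Q = C c := by
  have hcomp : Q.comp (X + 2) = Q := by
    have : shift k 1 Q = Q.comp (X + 2 * ((1 : ℕ) : k[X])) := rfl
    rw [this] at h
    simpa using h
  have hev : ∀ n : ℕ, Q.eval (2 * (n : k)) = Q.eval 0 := by
    intro n
    induction n with
    | zero => simp
    | succ n ih =>
      rw [← ih]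
      conv_rhs => rw [← hcomp]
      rw [eval_comp]
      congr 1
      simp
      ring
  refine ⟨Q.eval 0, ?_⟩
  apply Polynomial.eq_of_infinite_eval_eq
  apply Set.infinite_of_injective_forall_mem (f := fun n : ℕ => 2 * (n : k))
  · intro a b hab
    have : (a : k) = b := mul_left_cancel₀ two_ne_zero hab
    exact_mod_cast this
  · intro n
    simp only [Set.mem_ofPred_eq, eval_C]
    exact hev n

/-- TARGET: the centre of `Dv k` is `k` in characteristic zero. -/
theorem centre_eq {k : Type*} [Field k] [CharZero k] (z : Dv k) (hz : ∀ d, z * d = d * z) :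
    ∃ c : k, z = polyD k (C c) := by
  classical
  obtain ⟨b, s, hs, hzbs⟩ := exists_frac k z
  have hs0 : num k s ≠ 0 := fun h => hs (num_injective k (h.trans (map_zero (num k)).symm))
  have h1 : z * num k s = num k b := by
    rw [hz, hzbs, mul_inv_cancel_left₀ hs0]
  obtain ⟨S, rfl⟩ := exists_toB k s
  obtain ⟨Bf, rfl⟩ := exists_toB k b
  rw [num_toB, num_toB] at h1
  have hS : S ≠ 0 := by
    rintro rfl
    exact hs (by simp [toB])
  obtain ⟨j0, hj0⟩ : ∃ j, S j ≠ 0 := by
    by_contra hc
    push Not at hc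
    exact hS (Finsupp.ext hc)
  set U : Finset ℕ := insert j0 (S.support ∪ Bf.support) with hU
  have hj0U : j0 ∈ U := Finset.mem_insert_self _ _
  -- restricted sums
  have e1 : ∀ f : ℕ →₀ k[X], f.support ⊆ U →
      (f.sum fun j c => polyD k c * xD k ^ j) = ∑ j ∈ U, polyD k (f j) * xD k ^ j := by
    intro f hf
    exact Finsupp.sum_of_support_subset f hf _ (by intro i _; simp)
  have hSU : S.support ⊆ U := fun i hi =>
    Finset.mem_insert_of_mem (Finset.mem_union_left _ hi)
  have hBU : Bf.support ⊆ U := fun i hi =>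
    Finset.mem_insert_of_mem (Finset.mem_union_right _ hi)
  rw [e1 S hSU, e1 Bf hBU] at h1
  -- commutator
  have hcomm : ∀ (w : ℕ → k) (i : ℕ) (f : ℕ → k[X]),
      (∑ j ∈ U, polyD k (C (w j) * f j) * xD k ^ j) * polyD k X
        - polyD k (X + C (2 * (i : k))) * (∑ j ∈ U, polyD k (C (w j) * f j) * xD k ^ j)
      = ∑ j ∈ U, polyD k (C (2 * (((j : k) - i) * w j)) * f j) * xD k ^ j := by
    intro w i f
    rw [Finset.sum_mul, Finset.mul_sum, ← Finset.sum_sub_distrib]
    apply Finset.sum_congr rfl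
    intro j _
    rw [mul_assoc, xD_pow_mul_polyD, ← mul_assoc, ← mul_assoc, ← map_mul, ← map_mul, ← sub_mul,
      ← map_sub]
    congr 2
    rw [shift_X]
    simp only [map_mul, map_sub, map_natCast, map_ofNat]
    ring
  have key : ∀ A : Finset ℕ,
      z * (∑ j ∈ U, polyD k (C (∏ i ∈ A, (2 * ((j : k) - i))) * S j) * xD k ^ j) =
        ∑ j ∈ U, polyD k (C (∏ i ∈ A, (2 * ((j : k) - i))) * Bf j) * xD k ^ j := by
    intro A
    induction A using Finset.induction_on with
    | empty => simpa using h1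
    | insert i A hi ih =>
      have hS' := hcomm (fun j => ∏ i ∈ A, (2 * ((j : k) - i))) i (fun j => S j)
      have hB' := hcomm (fun j => ∏ i ∈ A, (2 * ((j : k) - i))) i (fun j => Bf j)
      have e2 : ∀ (f : ℕ → k[X]),
          (∑ j ∈ U, polyD k (C (∏ i ∈ insert i A, (2 * ((j : k) - i))) * f j) * xD k ^ j) =
          ∑ j ∈ U, polyD k (C (2 * (((j : k) - i) * ∏ i ∈ A, (2 * ((j : k) - i)))) * f j)
            * xD k ^ j := by
        intro f
        apply Finset.sum_congr rfl
        intro j _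
        rw [Finset.prod_insert hi]
        congr 4
        ring
      rw [e2, e2, ← hS', ← hB', ← ih, mul_sub, ← mul_assoc, ← mul_assoc, ← mul_assoc, hz (polyD k _)]
  have hk := key (U.erase j0)
  have hone : ∀ f : ℕ → k[X],
      (∑ j ∈ U, polyD k (C (∏ i ∈ U.erase j0, (2 * ((j : k) - i))) * f j) * xD k ^ j) =
      polyD k (C (∏ i ∈ U.erase j0, (2 * ((j0 : k) - i))) * f j0) * xD k ^ j0 := by
    intro f
    apply Finset.sum_eq_single_of_mem j0 hj0U
    intro j hj hne
    rw [Finset.prod_eq_zero (Finset.mem_erase.2 ⟨hne, hj⟩) (by simp)]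
    simp
  rw [hone, hone, ← mul_assoc] at hk
  have hk2 := mul_right_cancel₀ (pow_ne_zero j0 (xD_ne_zero k)) hk
  set w := ∏ i ∈ U.erase j0, (2 * ((j0 : k) - i)) with hw
  have hw0 : w ≠ 0 := by
    rw [hw, Finset.prod_ne_zero_iff]
    intro i hi
    apply mul_ne_zero two_ne_zero
    rw [sub_ne_zero]
    exact_mod_cast (Finset.mem_erase.1 hi).1.symm
  -- minimal degree denominator
  have hex : ∃ n : ℕ, ∃ Q P : k[X], Q ≠ 0 ∧ Q.natDegree = n ∧ z * polyD k Q = polyD k P :=
    ⟨_, C w * S j0, C w * Bf j0, mul_ne_zero (by simpa using hw0) hj0, rfl, hk2⟩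
  obtain ⟨Q, P, hQ0, hQn, hQP⟩ := Nat.find_spec hex
  have hmin : ∀ Q' P' : k[X], Q' ≠ 0 → z * polyD k Q' = polyD k P' →
      Q.natDegree ≤ Q'.natDegree := by
    intro Q' P' h0 h
    rw [hQn]
    exact Nat.find_min' hex ⟨Q', P', h0, rfl, h⟩
  have hsh : z * polyD k (shift k 1 Q) = polyD k (shift k 1 P) := by
    apply mul_right_cancel₀ (xD_ne_zero k)
    rw [mul_assoc, ← xD_mul_polyD, ← xD_mul_polyD, ← mul_assoc, hz, mul_assoc, hQP]
  have hQs : shift k 1 Q = Q := by
    by_contra hne
    have hne' : shift k 1 Q - Q ≠ 0 := sub_ne_zero.2 hne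
    have hm := hmin (shift k 1 Q - Q) (shift k 1 P - P) hne' (by
      rw [map_sub, mul_sub, hsh, hQP, map_sub])
    have hc : shift k 1 Q = Q.comp (X + C 2) := by
      have h2 : shift k 1 Q = Q.comp (X + 2 * ((1 : ℕ) : k[X])) := rfl
      have h3 : (C 2 : k[X]) = 2 := map_ofNat C 2
      rw [h2, h3]; simp
    have hd : (shift k 1 Q).natDegree = Q.natDegree := by
      rw [hc, natDegree_comp, natDegree_X_add_C, mul_one]
    have hl : (shift k 1 Q).leadingCoeff = Q.leadingCoeff := by
      rw [hc, leadingCoeff_comp (by rw [natDegree_X_add_C]; exact one_ne_zero),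
        leadingCoeff_X_add_C, one_pow, mul_one]
    have hs0' : shift k 1 Q ≠ 0 := by
      intro h
      exact hQ0 (shift_injective 1 (h.trans (map_zero (shift k 1)).symm))
    have hdeg : (shift k 1 Q).degree = Q.degree := by
      rw [degree_eq_natDegree hs0', degree_eq_natDegree hQ0, hd]
    have hlt := degree_sub_lt_left hdeg hs0' hl
    have := natDegree_lt_natDegree hne' hlt
    omega
  obtain ⟨c, rfl⟩ := const_of_shift Q hQs
  have hc0 : c ≠ 0 := by
    rintro rfl
    exact hQ0 (map_zero C)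
  have hzP : z = polyD k (P * C c⁻¹) := by
    rw [map_mul, ← hQP, mul_assoc, ← map_mul, ← C_mul, mul_inv_cancel₀ hc0]
    simp
  have hPs : shift k 1 (P * C c⁻¹) = P * C c⁻¹ := by
    apply polyD_injective k
    apply mul_right_cancel₀ (xD_ne_zero k)
    rw [← xD_mul_polyD, ← hzP, hz]
  obtain ⟨c', hc'⟩ := const_of_shift _ hPs
  exact ⟨c', by rw [← hc', hzP]⟩

end centre

end Pool.Agent.Helper619.Weyl.W14
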