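import Mathlib

namespace Pool.Agent.Helper619.Weyl.W8

open Polynomial

theorem exists_prime_three_mod_four (n : ℕ) (hn : n % 4 = 3) : ∃ p, p.Prime ∧ p ∣ n ∧ p % 4 = 3 := by
  induction n using Nat.strong_induction_on with
  | _ n ih =>
    have h1 : n ≠ 1 := by omega
    have hp := Nat.minFac_prime h1
    have hd := Nat.minFac_dvd n
    obtain ⟨k, hk⟩ := hd
    have hk0 : 0 < k := by
      rcases Nat.eq_zero_or_pos k with h | h
      · subst h; omega
      · exact h
    by_cases h3 : n.minFac % 4 = 3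
    · exact ⟨_, hp, Nat.minFac_dvd n, h3⟩
    · have h4 : n.minFac % 4 = 1 := by
        have h5 : (n.minFac * k) % 4 = 3 := by rw [← hk]; exact hn
        rw [Nat.mul_mod] at h5
        have h6 : n.minFac % 4 < 4 := Nat.mod_lt _ (by norm_num)
        have h7 : k % 4 < 4 := Nat.mod_lt _ (by norm_num)
        generalize n.minFac % 4 = a at *
        generalize k % 4 = b at *
        interval_cases a <;> interval_cases b <;> omega
      have h5 : k % 4 = 3 := by
        have h5 : (n.minFac * k) % 4 = 3 := by rw [← hk]; exact hn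
        rw [Nat.mul_mod, h4] at h5
        have h7 : k % 4 < 4 := Nat.mod_lt _ (by norm_num)
        omega
      have h6 : k < n := by
        have := hp.two_le
        nlinarith
      obtain ⟨p, h7, h8, h9⟩ := ih k h6 h5
      exact ⟨p, h7, h8.trans ⟨n.minFac, by rw [mul_comm]; exact hk⟩, h9⟩

/-- Main number theoretic lemma, integral version. -/
theorem intPoly (F : ℤ[X]) (u v : ℝ) (h : F.aeval u * F.aeval v < 0) (M : ℕ) (hM : M ≠ 0)
    (h4 : 4 ∣ M) (hl : F.leadingCoeff ∣ (M : ℤ)) :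
    ∃ p : ℕ, p.Prime ∧ p % 4 = 3 ∧ ¬ p ∣ M ∧ ∃ (A : ℤ) (k : ℕ) (G : ℤ), (p : ℤ) ∣ G ∧
      (G : ℚ) = (M : ℚ) ^ (k * F.natDegree) * (F.leadingCoeff : ℚ) ^ (F.natDegree - 1)
        * F.aeval ((A : ℚ) / (F.leadingCoeff * (M : ℚ) ^ k)) := by
  have hF0 : F ≠ 0 := by
    rintro rfl
    simp at h
  have hl0 : F.leadingCoeff ≠ 0 := leadingCoeff_ne_zero.mpr hF0
  have hd : 1 ≤ F.natDegree := by
    by_contra hd
    have : F.natDegree = 0 := by omega
    obtain ⟨c, rfl⟩ := natDegree_eq_zero.mp this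
    simp at h
    nlinarith [mul_self_nonneg (c:ℝ)]
  set ℓ : ℤ := F.leadingCoeff with hℓ
  set d := F.natDegree with hdd
  -- the sign
  have hw : ∃ w : ℝ, (ℓ : ℝ) ^ (d - 1) * F.aeval w < 0 := by
    have h0 : (ℓ : ℝ) ^ (d - 1) ≠ 0 := pow_ne_zero _ (by exact_mod_cast hl0)
    by_contra hcon
    push Not at hcon
    have h1 := hcon u
    have h2 := hcon v
    have h3 := mul_nonneg h1 h2
    have h4 : 0 < (ℓ : ℝ) ^ (d - 1) * (ℓ : ℝ) ^ (d - 1) := mul_self_pos.mpr h0
    nlinarith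
  obtain ⟨w, hw⟩ := hw
  have hcont : Continuous (fun x : ℝ => (ℓ : ℝ) ^ (d - 1) * F.aeval x) := by fun_prop
  obtain ⟨δ, hδ, hball⟩ := Metric.isOpen_iff.mp (isOpen_Iio.preimage hcont) w hw
  -- choose k
  have hM4 : (4 : ℝ) ≤ M := by
    have := Nat.le_of_dvd (Nat.pos_of_ne_zero hM) h4
    exact_mod_cast this
  obtain ⟨k, hk⟩ := exists_pow_lt_of_lt_one hδ (show (1 / (M : ℝ)) < 1 by
    rw [div_lt_one (by linarith)]; linarith)
  -- take exponent k + 1
  have hℓ1 : (1 : ℝ) ≤ |(ℓ : ℝ)| := by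
    have := Int.one_le_abs hl0
    exact_mod_cast this
  set B : ℝ := (M : ℝ) ^ (k + 1) with hB
  have hBpos : 0 < B := by positivity
  set i : ℤ := ⌊(w * ℓ * B - 1) / M⌋ with hi
  set A : ℤ := 1 + M * i with hA
  have hAw : |(A : ℝ) - w * ℓ * B| ≤ M := by
    have h1 := Int.floor_le ((w * ℓ * B - 1) / M)
    have h2 := Int.lt_floor_add_one ((w * ℓ * B - 1) / M)
    rw [← hi] at h1 h2
    have hMpos : (0 : ℝ) < M := by linarith
    rw [le_div_iff₀ hMpos] at h1
    rw [div_lt_iff₀ hMpos] at h2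
    have h3 : (A : ℝ) = 1 + M * i := by simp [hA]
    rw [h3, abs_le]
    constructor <;> nlinarith
  have hx : |(A : ℝ) / (ℓ * B) - w| < δ := by
    have hlR : (ℓ : ℝ) ≠ 0 := by exact_mod_cast hl0
    have h1 : (A : ℝ) / (ℓ * B) - w = (A - w * ℓ * B) / (ℓ * B) := by
      field_simp
    rw [h1, abs_div, abs_mul, abs_of_pos hBpos]
    have h2 : |(A : ℝ) - w * ℓ * B| / (|(ℓ : ℝ)| * B) ≤ M / B := by
      apply div_le_div₀ (by positivity) hAw hBpos
      nlinarith
    have h3 : (M : ℝ) / B = (1 / (M : ℝ)) ^ k := by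
      rw [hB, pow_succ, one_div_pow]
      have : (M : ℝ) ≠ 0 := by positivity
      field_simp
    linarith [h3 ▸ h2]
  have hneg : (ℓ : ℝ) ^ (d - 1) * F.aeval ((A : ℝ) / (ℓ * B)) < 0 := by
    apply hball
    rw [Metric.mem_ball, Real.dist_eq]
    exact hx
  -- the integer G
  set g := F.integralNormalization with hg
  have hgm : g.Monic := monic_integralNormalization hF0
  have hgd : g.natDegree = d := natDegree_integralNormalization
  set G : ℤ := (scaleRoots g ((M : ℤ) ^ (k + 1))).eval A with hG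
  have hGQ : ∀ (K : Type) [Field K] [CharZero K], (G : K) = (M : K) ^ ((k + 1) * d) * (ℓ : K) ^ (d - 1)
        * F.aeval ((A : K) / (ℓ * (M : K) ^ (k + 1))) := by
    intro K _ _
    have hlK : (ℓ : K) ≠ 0 := by exact_mod_cast hl0
    have hMK : (M : K) ≠ 0 := by exact_mod_cast hM
    have e1 : (G : K) = eval₂ (Int.castRingHom K) (A : K) (scaleRoots g ((M : ℤ) ^ (k + 1))) := by
      rw [hG]
      have := Polynomial.hom_eval₂ (scaleRoots g ((M : ℤ) ^ (k + 1))) (RingHom.id ℤ) (Int.castRingHom K) A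
      simpa [eval₂_id] using this
    have e2 : (A : K) = (Int.castRingHom K) ((M : ℤ) ^ (k + 1)) * ((A : K) / (M : K) ^ (k + 1)) := by
      simp
      field_simp
    rw [e1, e2, scaleRoots_eval₂_mul, hgd]
    have e3 : (A : K) / (M : K) ^ (k + 1) = (Int.castRingHom K) F.leadingCoeff
        * ((A : K) / (ℓ * (M : K) ^ (k + 1))) := by
      simp only [eq_intCast, ← hℓ]
      field_simp
    rw [e3, hg, integralNormalization_eval₂_leadingCoeff_mul hd]
    simp only [eq_intCast, ← hℓ, ← hdd, Int.cast_pow, Int.cast_natCast]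
    rw [aeval_def, show (algebraMap ℤ K) = Int.castRingHom K from rfl, ← pow_mul]
    have e4 : (M : K) ^ (k + 1) * ((ℓ : K) * ((A : K) / (ℓ * (M : K) ^ (k + 1)))) / (ℓ * (M : K) ^ (k + 1))
      = (A : K) / (ℓ * (M : K) ^ (k + 1)) := by
      field_simp
    rw [e4]
    ring
  have hGneg : G < 0 := by
    have h1 := hGQ ℝ
    have h2 : (0 : ℝ) < (M : ℝ) ^ ((k + 1) * d) := by positivity
    have h3 : (G : ℝ) < 0 := by
      rw [h1, mul_assoc]
      exact mul_neg_of_pos_of_neg h2 hneg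
    exact_mod_cast h3
  have hGmod : (M : ℤ) ∣ G - 1 := by
    have h1 : ((G : ℤ) : ZMod M) = 1 := by
      have e1 : ((G : ℤ) : ZMod M) = eval₂ (Int.castRingHom (ZMod M)) (A : ZMod M) (scaleRoots g ((M : ℤ) ^ (k + 1))) := by
        rw [hG]
        have := Polynomial.hom_eval₂ (scaleRoots g ((M : ℤ) ^ (k + 1))) (RingHom.id ℤ) (Int.castRingHom (ZMod M)) A
        simpa [eval₂_id] using this
      rw [e1, eval₂_eq_sum_range, natDegree_scaleRoots, Finset.sum_range_succ, Finset.sum_eq_zero]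
      · rw [coeff_scaleRoots]
        simp [hgm.coeff_natDegree, hA]
      · intro j hj
        rw [Finset.mem_range] at hj
        rw [coeff_scaleRoots]
        have : 0 < g.natDegree - j := by omega
        obtain ⟨e, he⟩ : ∃ e, g.natDegree - j = e + 1 := ⟨_, (Nat.succ_pred_eq_of_pos this).symm⟩
        simp [he, pow_succ]
    rw [← ZMod.intCast_zmod_eq_zero_iff_dvd]
    push_cast
    rw [h1, sub_self]
  obtain ⟨p, hp, hpd, hp4⟩ := exists_prime_three_mod_four G.natAbs (by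
    have h1 : (4 : ℤ) ∣ G - 1 := (Int.natCast_dvd_natCast.mpr h4).trans hGmod
    omega)
  have hpG : (p : ℤ) ∣ G := Int.natCast_dvd.mpr hpd
  refine ⟨p, hp, hp4, ?_, A, k + 1, G, hpG, hGQ ℚ⟩
  intro hpM
  have h1 : (p : ℤ) ∣ G - 1 := (Int.natCast_dvd_natCast.mpr hpM).trans hGmod
  have h2 : (p : ℤ) ∣ 1 := by
    have := dvd_sub hpG h1
    simpa using this
  have h3 := Int.natCast_dvd_natCast.mp (by simpa using h2 : (p : ℤ) ∣ ((1 : ℕ) : ℤ))
  exact hp.one_lt.ne' (Nat.dvd_one.mp h3)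


/-- rational polynomial version, p-adic norms -/
theorem ratPoly (f : ℚ[X]) (u v : ℝ) (h : f.aeval u * f.aeval v < 0) (M0 : ℕ) (hM0 : M0 ≠ 0) :
    ∃ p : ℕ, ∃ hp : Fact p.Prime, p % 4 = 3 ∧ ¬ p ∣ M0 ∧ ∃ x : ℚ, ‖(x : ℚ_[p])‖ ≤ 1 ∧
      ‖((f.eval x : ℚ) : ℚ_[p])‖ < 1 := by
  obtain ⟨b, hb, hbf⟩ : ∃ b : ℤ, b ≠ 0 ∧ ∃ F : ℤ[X], F.map (Int.castRingHom ℚ) = C (b : ℚ) * f := by
    obtain ⟨b, hb, hbf⟩ := IsLocalization.integerNormalization_spec (nonZeroDivisors ℤ) f
    refine ⟨b, nonZeroDivisors.ne_zero hb, IsLocalization.integerNormalization (nonZeroDivisors ℤ) f, ?_⟩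
    rw [show (Int.castRingHom ℚ) = algebraMap ℤ ℚ from rfl, hbf]
    ext n
    simp
  obtain ⟨F, hF⟩ := hbf
  have hFR : ∀ x : ℝ, F.aeval x = (b : ℝ) * f.aeval x := by
    intro x
    have h1 : (F.map (Int.castRingHom ℚ)).aeval x = F.aeval x := by
      rw [show (Int.castRingHom ℚ) = algebraMap ℤ ℚ from rfl, aeval_map_algebraMap]
    rw [← h1, hF]
    simp
  have hFQ : ∀ x : ℚ, F.aeval x = (b : ℚ) * f.eval x := by
    intro x
    have h1 : (F.map (Int.castRingHom ℚ)).aeval x = F.aeval x := by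
      rw [show (Int.castRingHom ℚ) = algebraMap ℤ ℚ from rfl, aeval_map_algebraMap]
    rw [← h1, hF]
    simp
  have hF0 : F ≠ 0 := by
    rintro rfl
    have h1 := hFR u
    simp at h1
    rcases h1 with h1 | h1
    · exact hb h1
    · rw [h1] at h
      simp at h
  have hl0 : F.leadingCoeff ≠ 0 := leadingCoeff_ne_zero.mpr hF0
  have hbl : b.natAbs ≠ 0 := Int.natAbs_ne_zero.mpr hb
  have hll : F.leadingCoeff.natAbs ≠ 0 := Int.natAbs_ne_zero.mpr hl0
  obtain ⟨p, hp, hp4, hpM, A, k, G, hpG, hG⟩ := intPoly F u v (by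
    rw [hFR, hFR]
    have : (0 : ℝ) < (b : ℝ) * b := mul_self_pos.mpr (by exact_mod_cast hb)
    nlinarith) (4 * M0 * b.natAbs * F.leadingCoeff.natAbs)
    (by positivity) ⟨M0 * b.natAbs * F.leadingCoeff.natAbs, by ring⟩
    (by
      rw [← Int.natAbs_dvd_natAbs]
      simp only [Int.natAbs_natCast]
      exact ⟨4 * M0 * b.natAbs, by ring⟩)
  haveI : Fact p.Prime := ⟨hp⟩
  set M := 4 * M0 * b.natAbs * F.leadingCoeff.natAbs with hM
  have n1 : ∀ z : ℤ, z.natAbs ∣ M → ‖((z : ℚ) : ℚ_[p])‖ = 1 := by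
    intro z hz
    have h1 : ‖(z : ℚ_[p])‖ ≤ 1 := Padic.norm_int_le_one z
    have h2 : ¬ ‖(z : ℚ_[p])‖ < 1 := by
      rw [Padic.norm_intCast_lt_one_iff]
      intro h3
      exact hpM ((Int.natCast_dvd.mp h3).trans hz)
    have h3 : ‖(z : ℚ_[p])‖ = 1 := le_antisymm h1 (not_lt.mp h2)
    rw [← h3]
    norm_cast
  have nb := n1 b ⟨4 * M0 * F.leadingCoeff.natAbs, by rw [hM]; ring⟩
  have nl := n1 F.leadingCoeff ⟨4 * M0 * b.natAbs, by rw [hM]; ring⟩
  have nM := n1 (M : ℤ) (by simp)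
  refine ⟨p, inferInstance, hp4, fun h => hpM (h.trans ⟨4 * b.natAbs * F.leadingCoeff.natAbs, by rw [hM]; ring⟩),
    (A : ℚ) / (F.leadingCoeff * (M : ℚ) ^ k), ?_, ?_⟩
  · have hM' : ((M : ℤ) : ℚ) = (M : ℚ) := by simp
    rw [hM'] at nM
    rw [Rat.cast_div, Rat.cast_mul, Rat.cast_pow, norm_div, norm_mul, norm_pow, nM, nl]
    simp only [one_pow, mul_one, div_one]
    rw [Rat.cast_intCast]
    exact Padic.norm_int_le_one A
  · have hM' : ((M : ℤ) : ℚ) = (M : ℚ) := by simp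
    rw [hM'] at nM
    rw [hFQ] at hG
    have h1 : ‖((G : ℚ) : ℚ_[p])‖ < 1 := by
      rw [Rat.cast_intCast]
      exact Padic.norm_intCast_lt_one_iff.mpr hpG
    rw [hG] at h1
    rw [Rat.cast_mul, Rat.cast_mul, Rat.cast_mul, Rat.cast_pow, Rat.cast_pow, norm_mul, norm_mul,
      norm_mul, norm_pow, norm_pow, nM, nl, nb] at h1
    simpa using h1


theorem homC {R : Type} [CommRing R] (i : R →+* ℝ) (hi : Function.Injective i) (θ : ℝ) (m : R[X])
    (hm0 : m ≠ 0) (hmθ : m.eval₂ i θ = 0)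
    (hmin : ∀ q : R[X], q ≠ 0 → q.eval₂ i θ = 0 → m.natDegree ≤ q.natDegree)
    {F : Type} [Field F] (j : R →+* F) (y : F) (hy : m.eval₂ j y = 0)
    (hlc : j m.leadingCoeff ≠ 0) (D : R) (hD : j D ≠ 0) (S : Set ℝ)
    (hS : ∀ a ∈ S, ∃ P : R[X], a * i D = P.eval₂ i θ) : Nonempty (Subring.closure S →+* F) := by
  have hm1 : 0 < m.natDegree := by
    by_contra h
    obtain ⟨c, rfl⟩ := natDegree_eq_zero.mp (by omega : m.natDegree = 0)
    rw [eval₂_C] at hmθ
    have : c = 0 := hi (by rw [hmθ, map_zero])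
    subst this
    simp at hm0
  have hker : ∀ n : ℕ, ∀ q : R[X], q.natDegree = n → q.eval₂ i θ = 0 → q.eval₂ j y = 0 := by
    intro n
    induction n using Nat.strong_induction_on with
    | _ n ih =>
      intro q hqn hq
      by_cases hq0 : q = 0
      · subst hq0; simp
      have hle := hmin q hq0 hq
      have hlt : (m.cancelLeads q).natDegree < q.natDegree :=
        natDegree_cancelLeads_lt_of_natDegree_le_natDegree hle (by omega)
      have h1 : (m.cancelLeads q).eval₂ i θ = 0 := by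
        simp [cancelLeads, eval₂_sub, eval₂_mul, hmθ, hq]
      have h2 := ih _ (hqn ▸ hlt) _ rfl h1
      have h3 : m.natDegree - q.natDegree = 0 := by omega
      rw [cancelLeads, h3, eval₂_sub, eval₂_mul, eval₂_mul, eval₂_mul, eval₂_mul, hy] at h2
      simpa [hlc] using h2
  have hD0 : D ≠ 0 := by rintro rfl; simp at hD
  have hiD : i D ≠ 0 := fun h => hD0 (hi (by rw [h, map_zero]))
  let L := Localization.Away (C D : R[X])
  have u1 : IsUnit (eval₂RingHom i θ (C D)) := by simpa using hiD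
  have u2 : IsUnit (eval₂RingHom j y (C D)) := by simpa using hD
  let π : L →+* ℝ := IsLocalization.Away.lift (C D) u1
  let ψ : L →+* F := IsLocalization.Away.lift (C D) u2
  have hπ : ∀ q : R[X], π (algebraMap R[X] L q) = q.eval₂ i θ := fun q =>
    IsLocalization.Away.lift_eq (C D) u1 q
  have hψ : ∀ q : R[X], ψ (algebraMap R[X] L q) = q.eval₂ j y := fun q =>
    IsLocalization.Away.lift_eq (C D) u2 q
  have hk : RingHom.ker π ≤ RingHom.ker ψ := by
    intro z hz
    rw [RingHom.mem_ker] at hz ⊢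
    obtain ⟨⟨q, s⟩, h⟩ := IsLocalization.surj (Submonoid.powers (C D : R[X])) z
    have h1 : π (algebraMap R[X] L q) = 0 := by rw [← h, map_mul, hz, zero_mul]
    rw [hπ] at h1
    have h2 := hker _ q rfl h1
    rw [← hψ, ← h, map_mul] at h2
    rcases mul_eq_zero.mp h2 with h3 | h3
    · exact h3
    · exfalso
      obtain ⟨s, n, rfl⟩ := s
      have h3' : ψ (algebraMap R[X] L (C D ^ n)) = 0 := h3
      rw [hψ, eval₂_pow, eval₂_C] at h3'
      exact hD (eq_zero_of_pow_eq_zero h3')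
  have hk2 : RingHom.ker π.rangeRestrict ≤ RingHom.ker ψ := by
    intro z hz
    apply hk
    rw [RingHom.mem_ker] at hz ⊢
    exact congrArg Subtype.val hz
  let φ : π.range →+* F := RingHom.liftOfSurjective π.rangeRestrict π.rangeRestrict_surjective ⟨ψ, hk2⟩
  have hcl : Subring.closure S ≤ π.range := by
    rw [Subring.closure_le]
    intro a ha
    obtain ⟨P, hP⟩ := hS a ha
    refine ⟨algebraMap R[X] L P * IsLocalization.Away.invSelf (C D), ?_⟩
    have h1 : algebraMap R[X] L (C D) * IsLocalization.Away.invSelf (C D) = 1 :=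
      IsLocalization.Away.mul_invSelf (C D)
    have h2 := congrArg π h1
    rw [map_mul, hπ, eval₂_C, map_one] at h2
    rw [map_mul, hπ, ← hP, mul_assoc, h2, mul_one]
  exact ⟨φ.comp (Subring.inclusion hcl)⟩

theorem partA' {R : Type} [CommRing R] [IsDomain R] [CharZero R] [Algebra R ℝ]
    [FaithfulSMul R ℝ] (S : Finset ℝ) (hS : ∀ a ∈ S, IsAlgebraic R a) :
    ∃ θ : ℝ, IsAlgebraic R θ ∧ ∀ a ∈ S, ∃ (D : R) (P : R[X]), D ≠ 0 ∧
      a * algebraMap R ℝ D = aeval θ P := by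
  let K := FractionRing R
  letI : Algebra K ℝ := FractionRing.liftAlgebra R ℝ
  haveI : IsScalarTower R K ℝ := FractionRing.isScalarTower_liftAlgebra R ℝ
  haveI : CharZero K := IsFractionRing.charZero R
  have hint : ∀ x ∈ (S : Set ℝ), IsIntegral K x := by
    intro x hx
    have h1 := (IsFractionRing.isAlgebraic_iff R K ℝ).mp (hS x hx)
    exact h1.isIntegral
  haveI : FiniteDimensional K (IntermediateField.adjoin K (S : Set ℝ)) :=
    IntermediateField.finiteDimensional_adjoin hint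
  obtain ⟨α, hα⟩ := Field.exists_primitive_element K (IntermediateField.adjoin K (S : Set ℝ))
  refine ⟨(α : ℝ), ?_, ?_⟩
  · rw [IsFractionRing.isAlgebraic_iff R K ℝ]
    have h1 : IsAlgebraic K α := Algebra.IsAlgebraic.isAlgebraic α
    exact h1.algebraMap (A := ℝ)
  · intro a ha
    have ha' : a ∈ IntermediateField.adjoin K (S : Set ℝ) := IntermediateField.subset_adjoin K _ ha
    have h1 : (⟨a, ha'⟩ : IntermediateField.adjoin K (S : Set ℝ)) ∈ (IntermediateField.adjoin K {α}).toSubalgebra := by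
      rw [hα]; trivial
    have hαi : IsIntegral K α := Algebra.IsIntegral.isIntegral α
    rw [IntermediateField.adjoin_simple_toSubalgebra_of_isAlgebraic hαi.isAlgebraic,
      Algebra.adjoin_singleton_eq_range_aeval] at h1
    obtain ⟨P, hP⟩ := h1
    have hP' : aeval (α : ℝ) P = a := by
      have := congrArg Subtype.val hP
      simpa using this
    obtain ⟨b, hb, hbP⟩ := IsLocalization.integerNormalization_spec (nonZeroDivisors R) P
    refine ⟨b, IsLocalization.integerNormalization (nonZeroDivisors R) P, nonZeroDivisors.ne_zero hb, ?_⟩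
    rw [← aeval_map_algebraMap K, hbP, ← hP']
    rw [show (b • P) = C (algebraMap R K b) * P by
      ext n; simp [Algebra.smul_def]]
    rw [map_mul, aeval_C, ← IsScalarTower.algebraMap_apply, mul_comm]


theorem partT (S : Finset ℝ) : ∃ T : Finset ℝ, AlgebraicIndependent ℤ (fun x : T => (x : ℝ)) ∧
    ∀ a ∈ S, IsAlgebraic (Algebra.adjoin ℤ (T : Set ℝ)) a := by
  classical
  let A := S.powerset.filter (fun T : Finset ℝ => AlgebraicIndependent ℤ (fun x : T => (x : ℝ)))
  have hA : A.Nonempty := by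
    refine ⟨∅, ?_⟩
    simp only [A, Finset.mem_filter, Finset.empty_mem_powerset, true_and]
    exact algebraicIndependent_empty_type_iff.mpr (RingHom.injective_int _)
  obtain ⟨T, hT⟩ := A.exists_maximal hA
  have hTA := hT.prop
  simp only [A, Finset.mem_filter, Finset.mem_powerset] at hTA
  refine ⟨T, hTA.2, ?_⟩
  intro a ha
  by_cases haT : a ∈ T
  · exact isAlgebraic_algebraMap (⟨a, Algebra.subset_adjoin haT⟩ : Algebra.adjoin ℤ (T : Set ℝ))
  · by_contra hcon
    have h1 : AlgebraicIndepOn ℤ (id : ℝ → ℝ) (insert a (T : Set ℝ)) := by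
      rw [AlgebraicIndepOn.insert_iff (by simpa using haT)]
      refine ⟨?_, ?_⟩
      · exact hTA.2
      · rw [Set.image_id]
        exact hcon
    have h2 : insert a T ∈ A := by
      simp only [A, Finset.mem_filter, Finset.mem_powerset]
      refine ⟨Finset.insert_subset ha hTA.1, ?_⟩
      have e : (insert a (T : Set ℝ)) = ((insert a T : Finset ℝ) : Set ℝ) := by simp
      rw [e] at h1
      exact h1
    have h3 := hT.le_of_ge h2 (Finset.subset_insert a T)
    exact haT (h3 (Finset.mem_insert_self a T))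

theorem partAlg (S : Finset ℝ) : ∃ T : Finset ℝ, AlgebraicIndependent ℤ (fun x : T => (x : ℝ)) ∧
    ∀ a ∈ S, ∃ q : (MvPolynomial T ℤ)[X], q ≠ 0 ∧
      q.eval₂ (MvPolynomial.aeval (R := ℤ) (fun x : T => (x : ℝ))).toRingHom a = 0 := by
  obtain ⟨T, hT, hS⟩ := partT S
  refine ⟨T, hT, ?_⟩
  intro a ha
  obtain ⟨q, hq, hq0⟩ := hS a ha
  have hr : Set.range (fun x : T => (x : ℝ)) = (T : Set ℝ) := by ext; simp
  let e : MvPolynomial T ℤ ≃ₐ[ℤ] Algebra.adjoin ℤ (Set.range (fun x : T => (x : ℝ))) := hT.aevalEquiv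
  let e2 : Algebra.adjoin ℤ (Set.range (fun x : T => (x : ℝ))) ≃ₐ[ℤ] Algebra.adjoin ℤ (T : Set ℝ) :=
    Subalgebra.equivOfEq _ _ (by rw [hr])
  let e3 := (e.trans e2).symm
  refine ⟨q.map (e3 : _ →+* MvPolynomial T ℤ), ?_, ?_⟩
  · intro h
    exact hq ((Polynomial.map_eq_zero_iff e3.injective).mp h)
  · rw [eval₂_map]
    rw [aeval_def] at hq0
    rw [← hq0]
    congr 1
    ext x
    have hx : (e.trans e2) (e3 x) = x := (e.trans e2).apply_symm_apply x
    have h1 : ∀ r : MvPolynomial T ℤ, (((e.trans e2) r : Algebra.adjoin ℤ (T : Set ℝ)) : ℝ)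
        = MvPolynomial.aeval (R := ℤ) (fun x : T => (x : ℝ)) r := by
      intro r
      simp [e, e2]
    have h2 := h1 (e3 x)
    rw [hx] at h2
    exact h2.symm

/-- a rational specialisation keeping a sign change and a nonvanishing -/
theorem ratSpec {ι : Type} [Fintype ι] (t : ι → ℝ) (m : (MvPolynomial ι ℤ)[X]) (u v : ℝ)
    (h : m.eval₂ (MvPolynomial.aeval (R := ℤ) t).toRingHom u *
      m.eval₂ (MvPolynomial.aeval (R := ℤ) t).toRingHom v < 0) (D : MvPolynomial ι ℤ)
    (hD : MvPolynomial.aeval (R := ℤ) t D ≠ 0) :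
    ∃ t0 : ι → ℚ, MvPolynomial.aeval (R := ℤ) t0 D ≠ 0 ∧
      (m.map (MvPolynomial.aeval (R := ℤ) t0).toRingHom).aeval u *
      (m.map (MvPolynomial.aeval (R := ℤ) t0).toRingHom).aeval v < 0 := by
  have hc1 : ∀ r : MvPolynomial ι ℤ, Continuous (fun s : ι → ℝ => MvPolynomial.aeval (R := ℤ) s r) := by
    intro r
    have : ∀ s : ι → ℝ, MvPolynomial.aeval (R := ℤ) s r
        = MvPolynomial.eval s (MvPolynomial.map (Int.castRingHom ℝ) r) := by
      intro s
      rw [MvPolynomial.eval_map]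
      rfl
    simp_rw [this]
    exact MvPolynomial.continuous_eval _
  have hc2 : ∀ x : ℝ, Continuous (fun s : ι → ℝ => m.eval₂ (MvPolynomial.aeval (R := ℤ) s).toRingHom x) := by
    intro x
    simp_rw [eval₂_eq_sum_range]
    apply continuous_finsetSum
    intro i _
    exact (hc1 _).mul continuous_const
  have ho : IsOpen {s : ι → ℝ | m.eval₂ (MvPolynomial.aeval (R := ℤ) s).toRingHom u *
      m.eval₂ (MvPolynomial.aeval (R := ℤ) s).toRingHom v < 0 ∧ MvPolynomial.aeval (R := ℤ) s D ≠ 0} := by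
    apply IsOpen.inter
    · exact isOpen_Iio.preimage ((hc2 u).mul (hc2 v))
    · exact isOpen_ne.preimage (hc1 D)
  have hd : DenseRange (Pi.map (fun _ : ι => ((↑) : ℚ → ℝ))) := DenseRange.piMap (fun _ => Rat.denseRange_cast)
  obtain ⟨t0, ht0⟩ := hd.exists_mem_open ho ⟨t, h, hD⟩
  have key : ∀ r : MvPolynomial ι ℤ, MvPolynomial.aeval (R := ℤ) (Pi.map (fun _ : ι => ((↑) : ℚ → ℝ)) t0) r
      = ((MvPolynomial.aeval (R := ℤ) t0 r : ℚ) : ℝ) := by
    intro r
    have : (MvPolynomial.aeval (R := ℤ) (Pi.map (fun _ : ι => ((↑) : ℚ → ℝ)) t0)).toRingHom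
        = (Rat.castHom ℝ).comp (MvPolynomial.aeval (R := ℤ) t0).toRingHom := by
      apply MvPolynomial.ringHom_ext
      · intro n; simp
      · intro i; simp
    exact congrArg (fun f : MvPolynomial ι ℤ →+* ℝ => f r) this
  have key2 : ∀ x : ℝ, (m.map (MvPolynomial.aeval (R := ℤ) t0).toRingHom).aeval x
      = m.eval₂ (MvPolynomial.aeval (R := ℤ) (Pi.map (fun _ : ι => ((↑) : ℚ → ℝ)) t0)).toRingHom x := by
    intro x
    rw [aeval_def, eval₂_map]
    have e : (algebraMap ℚ ℝ).comp (MvPolynomial.aeval (R := ℤ) t0).toRingHom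
        = (MvPolynomial.aeval (R := ℤ) (Pi.map (fun _ : ι => ((↑) : ℚ → ℝ)) t0)).toRingHom :=
      RingHom.ext fun r => (key r).symm
    rw [e]
  refine ⟨t0, ?_, ?_⟩
  · have := ht0.2
    rw [key] at this
    exact_mod_cast this
  · rw [key2, key2]
    exact ht0.1

/-- a polynomial with a simple real root takes values of both signs -/
theorem signChange (g : ℝ[X]) (θ : ℝ) (h0 : g.eval θ = 0) (h1 : g.derivative.eval θ ≠ 0) :
    ∃ u v : ℝ, g.eval u * g.eval v < 0 := by
  by_contra hcon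
  push Not at hcon
  apply h1
  have hd := g.hasDerivAt θ
  by_cases h2 : ∀ x, 0 ≤ g.eval x
  · have h3 : IsLocalMin (fun x => g.eval x) θ := by
      apply Filter.Eventually.of_forall
      intro x
      show g.eval θ ≤ g.eval x
      rw [h0]; exact h2 x
    exact h3.hasDerivAt_eq_zero hd
  · push Not at h2
    obtain ⟨x0, hx0⟩ := h2
    have h3 : IsLocalMax (fun x => g.eval x) θ := by
      apply Filter.Eventually.of_forall
      intro x
      show g.eval x ≤ g.eval θ
      rw [h0]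
      have := hcon x0 x
      nlinarith
    exact h3.hasDerivAt_eq_zero hd

/-- Every finitely generated subring of the reals maps to `F_p` for arbitrarily large primes
`p = 3 mod 4`. -/
theorem real_subring_reduction (S : Finset ℝ) (N : ℕ) :
    ∃ p : ℕ, p.Prime ∧ p % 4 = 3 ∧ N < p ∧
      Nonempty (Subring.closure (S : Set ℝ) →+* ZMod p) := by
  classical
  obtain ⟨T, hT, hS⟩ := partAlg S
  let i : MvPolynomial T ℤ →+* ℝ := (MvPolynomial.aeval (R := ℤ) (fun x : T => (x : ℝ))).toRingHom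
  have hi : Function.Injective i := hT
  letI : Algebra (MvPolynomial T ℤ) ℝ := i.toAlgebra
  haveI : FaithfulSMul (MvPolynomial T ℤ) ℝ := (faithfulSMul_iff_algebraMap_injective _ _).mpr hi
  obtain ⟨θ, hθ, hSθ⟩ := partA' (R := MvPolynomial T ℤ) S (by
    intro a ha
    obtain ⟨q, hq, hq0⟩ := hS a ha
    exact ⟨q, hq, hq0⟩)
  -- minimal polynomial
  have hex : ∃ n : ℕ, ∃ q : (MvPolynomial T ℤ)[X], q ≠ 0 ∧ q.eval₂ i θ = 0 ∧ q.natDegree = n := by
    obtain ⟨q, hq, hq0⟩ := hθ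
    exact ⟨_, q, hq, hq0, rfl⟩
  obtain ⟨m, hm0, hmθ, hmn⟩ := Nat.find_spec hex
  have hmin : ∀ q : (MvPolynomial T ℤ)[X], q ≠ 0 → q.eval₂ i θ = 0 → m.natDegree ≤ q.natDegree := by
    intro q hq hq0
    rw [hmn]
    exact Nat.find_min' hex ⟨q, hq, hq0, rfl⟩
  have hm1 : 0 < m.natDegree := by
    by_contra h
    obtain ⟨c, hc⟩ := natDegree_eq_zero.mp (by omega : m.natDegree = 0)
    rw [← hc, eval₂_C] at hmθ
    have : c = 0 := hi (by rw [hmθ, map_zero])
    subst this
    rw [map_zero] at hc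
    exact hm0 hc.symm
  have hder : (m.map i).derivative.eval θ ≠ 0 := by
    intro h
    rw [derivative_map, eval_map] at h
    have h1 := hmin m.derivative (by
      intro h2
      have := Polynomial.derivative_eq_zero.mp h2
      omega) h
    have h2 := natDegree_derivative_lt (p := m) (by omega)
    omega
  obtain ⟨u, v, huv⟩ := signChange (m.map i) θ (by rw [eval_map]; exact hmθ) hder
  rw [eval_map, eval_map] at huv
  -- the common denominator
  choose! D P hD0 hDP using hSθ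
  let Δ : MvPolynomial T ℤ := m.leadingCoeff * ∏ a ∈ S, D a
  have hΔ : Δ ≠ 0 := mul_ne_zero (leadingCoeff_ne_zero.mpr hm0) (Finset.prod_ne_zero_iff.mpr hD0)
  have hΔi : i Δ ≠ 0 := fun h => hΔ (hi (by rw [h, map_zero]))
  obtain ⟨t0, ht0, hsc⟩ := ratSpec (fun x : T => (x : ℝ)) m u v huv Δ hΔi
  -- the prime
  set δ : ℚ := MvPolynomial.aeval (R := ℤ) t0 Δ with hδ
  obtain ⟨p, hp, hp4, hpM, x, hx1, hx2⟩ := ratPoly _ u v hsc
    (N.factorial * (∏ k : T, (t0 k).den) * δ.num.natAbs) (by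
      have h1 : δ.num.natAbs ≠ 0 := by simpa using ht0
      have h2 : (∏ k : T, (t0 k).den) ≠ 0 := Finset.prod_ne_zero_iff.mpr (fun k _ => (t0 k).den_ne_zero)
      have h3 := N.factorial_ne_zero
      positivity)
  have hpN : N < p := by
    by_contra h
    exact hpM ((((hp.out.dvd_factorial).mpr (by omega)).mul_right _).mul_right _)
  have hpt : ∀ k : T, ‖((t0 k : ℚ) : ℚ_[p])‖ ≤ 1 := by
    intro k
    apply Padic.norm_rat_le_one
    intro h
    have h1 : p ∣ ∏ k : T, (t0 k).den :=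
      h.trans (Finset.dvd_prod_of_mem (fun k : T => (t0 k).den) (Finset.mem_univ k))
    exact hpM ((h1.mul_left _).mul_right _)
  have hpδ : ¬ ‖((δ : ℚ) : ℚ_[p])‖ < 1 := by
    intro h
    have h1 : ((δ.num : ℤ) : ℚ_[p]) = (δ : ℚ_[p]) * ((δ.den : ℤ) : ℚ_[p]) := by
      have := Rat.mul_den_eq_num δ
      have h2 := congrArg (Rat.cast : ℚ → ℚ_[p]) this
      push_cast at h2 ⊢
      exact h2.symm
    have h2 : ‖((δ.num : ℤ) : ℚ_[p])‖ < 1 := by
      rw [h1, norm_mul]
      have h3 := Padic.norm_int_le_one (p := p) (δ.den : ℤ)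
      have h4 := norm_nonneg ((δ : ℚ_[p]))
      nlinarith [norm_nonneg (((δ.den : ℤ) : ℚ_[p]))]
    rw [Padic.norm_intCast_lt_one_iff] at h2
    exact hpM ((Int.natCast_dvd.mp h2).mul_left _)
  -- the homomorphism
  let th : T → ℤ_[p] := fun k => ⟨(t0 k : ℚ_[p]), hpt k⟩
  let xh : ℤ_[p] := ⟨(x : ℚ_[p]), hx1⟩
  let jh : MvPolynomial T ℤ →+* ℤ_[p] := (MvPolynomial.aeval (R := ℤ) th).toRingHom
  have hj : ∀ r, ((jh r : ℤ_[p]) : ℚ_[p]) = ((MvPolynomial.aeval (R := ℤ) t0 r : ℚ) : ℚ_[p]) := by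
    intro r
    have : (PadicInt.Coe.ringHom (p := p)).comp jh = (Rat.castHom ℚ_[p]).comp (MvPolynomial.aeval (R := ℤ) t0).toRingHom := by
      apply MvPolynomial.ringHom_ext
      · intro n; simp
      · intro k
        show ((MvPolynomial.aeval (R := ℤ) th (MvPolynomial.X k) : ℤ_[p]) : ℚ_[p])
          = ((MvPolynomial.aeval (R := ℤ) t0 (MvPolynomial.X k) : ℚ) : ℚ_[p])
        rw [MvPolynomial.aeval_X, MvPolynomial.aeval_X]
    exact congrArg (fun f : MvPolynomial T ℤ →+* ℚ_[p] => f r) this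
  have hev : ((m.eval₂ jh xh : ℤ_[p]) : ℚ_[p]) = (((m.map (MvPolynomial.aeval (R := ℤ) t0).toRingHom).eval x : ℚ) : ℚ_[p]) := by
    have h1 := Polynomial.hom_eval₂ m jh (PadicInt.Coe.ringHom (p := p)) xh
    have h2 := Polynomial.hom_eval₂ m (MvPolynomial.aeval (R := ℤ) t0).toRingHom (Rat.castHom ℚ_[p]) x
    rw [eval_map]
    refine h1.trans (Eq.trans ?_ h2.symm)
    have e : (PadicInt.Coe.ringHom (p := p)).comp jh
        = (Rat.castHom ℚ_[p]).comp (MvPolynomial.aeval (R := ℤ) t0).toRingHom :=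
      RingHom.ext fun r => hj r
    rw [e]
    rfl
  have hz : ∀ z : ℤ_[p], PadicInt.toZMod z = 0 ↔ ‖(z : ℚ_[p])‖ < 1 := by
    intro z
    rw [← RingHom.mem_ker, PadicInt.ker_toZMod, IsLocalRing.mem_maximalIdeal, PadicInt.mem_nonunits]
    rfl
  have hjΔ : (PadicInt.toZMod.comp jh) Δ ≠ 0 := by
    rw [RingHom.comp_apply, Ne, hz, hj]
    exact hpδ
  refine ⟨p, hp.out, hp4, hpN, ?_⟩
  refine homC i hi θ m hm0 hmθ hmin (F := ZMod p) (PadicInt.toZMod.comp jh) (PadicInt.toZMod xh) ?_ ?_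
    (∏ a ∈ S, D a) ?_ (S : Set ℝ) ?_
  · rw [← Polynomial.hom_eval₂, hz, hev]
    exact hx2
  · intro h
    apply hjΔ
    rw [map_mul, h, zero_mul]
  · intro h
    apply hjΔ
    rw [map_mul, h, mul_zero]
  · intro a ha
    have ha' : a ∈ S := ha
    refine ⟨C (∏ b ∈ S.erase a, D b) * P a, ?_⟩
    rw [← Finset.mul_prod_erase S D ha', map_mul, eval₂_mul, eval₂_C]
    have := hDP a ha'
    have h2 : a * i (D a) = (P a).eval₂ i θ := this
    rw [← h2]
    ring

end Pool.Agent.Helper619.Weyl.W8
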