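import Mathlib
import Pool.Agent.Helper619.Weyl.W8

namespace Pool.Agent.Helper619.Weyl.W16

open Pool.Agent.Helper619.Weyl.W8

/-- approximate homomorphisms from a real field to prime fields -/
theorem exists_approx (k : Type) [Field k] (e : k →+* ℝ) :
    ∃ (I : Type) (F : Filter I) (p : I → ℕ) (rep : k → ∀ i, ZMod (p i)),
      F.NeBot ∧ (∀ i, (p i).Prime) ∧ (∀ i, p i % 4 = 3) ∧ (∀ N, ∀ᶠ i in F, N < p i) ∧
      (∀ᶠ i in F, rep 1 i = 1) ∧
      (∀ c d, ∀ᶠ i in F, rep (c + d) i = rep c i + rep d i) ∧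
      (∀ c d, ∀ᶠ i in F, rep (c * d) i = rep c i * rep d i) := by
  classical
  choose p hp h3 hN hom using fun i : Finset k × ℕ => real_subring_reduction (i.1.image e) i.2
  let φ : ∀ i : Finset k × ℕ,
      Subring.closure ((i.1.image e : Finset ℝ) : Set ℝ) →+* ZMod (p i) := fun i => (hom i).some
  let rep : k → ∀ i : Finset k × ℕ, ZMod (p i) := fun c i =>
    if h : e c ∈ Subring.closure ((i.1.image e : Finset ℝ) : Set ℝ) then φ i ⟨e c, h⟩ else 0
  have hrep : ∀ (c : k) (i : Finset k × ℕ)
      (h : e c ∈ Subring.closure ((i.1.image e : Finset ℝ) : Set ℝ)),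
      rep c i = φ i ⟨e c, h⟩ := fun c i h => dif_pos h
  have hmem : ∀ (c : k) (i : Finset k × ℕ), c ∈ i.1 →
      e c ∈ Subring.closure ((i.1.image e : Finset ℝ) : Set ℝ) := by
    intro c i hc
    apply Subring.subset_closure
    rw [Finset.coe_image]
    exact ⟨c, hc, rfl⟩
  have hev : ∀ c : k, ∀ᶠ i : Finset k × ℕ in Filter.atTop, c ∈ i.1 := by
    intro c
    filter_upwards [Filter.eventually_ge_atTop (({c} : Finset k), 0)] with i hi
    exact hi.1 (Finset.mem_singleton_self c)
  refine ⟨Finset k × ℕ, Filter.atTop, p, rep, inferInstance, hp, h3, ?_, ?_, ?_, ?_⟩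
  · intro N
    filter_upwards [Filter.eventually_ge_atTop ((∅ : Finset k), N)] with i hi
    exact lt_of_le_of_lt hi.2 (hN i)
  · refine Filter.Eventually.of_forall fun i => ?_
    have h1 : e 1 ∈ Subring.closure ((i.1.image e : Finset ℝ) : Set ℝ) := by
      rw [map_one]
      exact Subring.one_mem _
    rw [hrep 1 i h1]
    have : (⟨e 1, h1⟩ : Subring.closure ((i.1.image e : Finset ℝ) : Set ℝ)) = 1 :=
      Subtype.ext (map_one e)
    rw [this, map_one]
  · intro c d
    filter_upwards [hev c, hev d] with i hc hd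
    have hc' := hmem c i hc
    have hd' := hmem d i hd
    have hs : e (c + d) ∈ Subring.closure ((i.1.image e : Finset ℝ) : Set ℝ) := by
      rw [map_add]
      exact Subring.add_mem _ hc' hd'
    rw [hrep _ i hs, hrep _ i hc', hrep _ i hd', ← map_add]
    congr 1
    exact Subtype.ext (map_add e c d)
  · intro c d
    filter_upwards [hev c, hev d] with i hc hd
    have hc' := hmem c i hc
    have hd' := hmem d i hd
    have hs : e (c * d) ∈ Subring.closure ((i.1.image e : Finset ℝ) : Set ℝ) := by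
      rw [map_mul]
      exact Subring.mul_mem _ hc' hd'
    rw [hrep _ i hs, hrep _ i hc', hrep _ i hd', ← map_mul]
    congr 1
    exact Subtype.ext (map_mul e c d)

end Pool.Agent.Helper619.Weyl.W16
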