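import Mathlib
import Pool.Agent.Helper619.Weyl.Skew
import Pool.Agent.Helper619.Weyl.Tau
import Pool.Agent.Helper619.Weyl.Apx
import Pool.Agent.Helper619.Weyl.Pair
import Pool.Agent.Helper619.Weyl.W11
import Pool.Agent.Helper619.Weyl.W12
import Pool.Agent.Helper619.Weyl.W13
import Pool.Agent.Helper619.Weyl.W14
import Pool.Agent.Helper619.Weyl.W16

namespace Pool.Agent.Helper619.Weyl

open Polynomial

/-- The division ring of elements fixed by `tau`. -/
noncomputable def FixD (K : Type*) [CommRing K] [IsDomain K] : Subfield (Dv K) :=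
  (tau K).eqLocusField (RingHom.id (Dv K))

section general
variable (K : Type*) [CommRing K] [IsDomain K]

theorem mem_FixD (d : Dv K) : d ∈ FixD K ↔ tau K d = d := Iff.rfl

theorem xD_mul_gD : xD K * gD K = (gD K + 2) * xD K := by
  have := xD_mul_polyD K X
  rw [shift_X] at this
  rw [gD, this, Nat.cast_one, mul_one, map_add, map_ofNat]

theorem closure_consts :
    Subfield.closure (Set.range (fun c => polyD K (C c)) ∪ {gD K, xD K}) = ⊤ := by
  rw [eq_top_iff, ← closure_eq_top K, Subfield.closure_le]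
  rintro d (⟨f, rfl⟩ | hd)
  · show polyD K f ∈ Subfield.closure _
    induction f using Polynomial.induction_on' with
    | add p q hp hq => rw [map_add]; exact add_mem hp hq
    | monomial n a =>
      rw [← C_mul_X_pow_eq_monomial, map_mul, map_pow]
      apply mul_mem
      · exact Subfield.subset_closure (Set.mem_union_left _ ⟨a, rfl⟩)
      · apply pow_mem
        exact Subfield.subset_closure (Set.mem_union_right _ (Set.mem_insert _ _))
  · rw [Set.mem_singleton_iff.1 hd]
    exact Subfield.subset_closure (Set.mem_union_right _ (Set.mem_insert_of_mem _ rfl))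

end general

theorem closure_zmod (p : ℕ) [Fact p.Prime] :
    Subfield.closure ({gD (ZMod p), xD (ZMod p)} : Set (Dv (ZMod p))) = ⊤ := by
  rw [eq_top_iff, ← closure_consts (ZMod p), Subfield.closure_le]
  rintro d (⟨c, rfl⟩ | hd)
  · show polyD (ZMod p) (C c) ∈ Subfield.closure _
    obtain ⟨n, rfl⟩ := ZMod.natCast_zmod_surjective c
    rw [map_natCast, map_natCast]
    exact natCast_mem _ n
  · exact Subfield.subset_closure hd

instance charP_zmod (p : ℕ) [Fact p.Prime] : CharP (Dv (ZMod p)) p :=
  charP_of_injective_ringHom (f := (polyD (ZMod p)).comp C)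
    ((polyD_injective (ZMod p)).comp C_injective) p

instance charZero_Dv (k : Type*) [Field k] [CharZero k] : CharZero (Dv k) :=
  charZero_of_injective_ringHom (f := (polyD k).comp C) ((polyD_injective k).comp C_injective)

/-- In characteristic `p` the element `g ^ p - g` is central. -/
theorem central_zmod (p : ℕ) [Fact p.Prime] (d : Dv (ZMod p)) :
    (gD (ZMod p) ^ p - gD (ZMod p)) * d = d * (gD (ZMod p) ^ p - gD (ZMod p)) := by
  set g := gD (ZMod p)
  set x := xD (ZMod p)
  have hG : g ^ p - g = polyD (ZMod p) (X ^ p - X) := by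
    rw [map_sub, map_pow]; rfl
  have hx : (g ^ p - g) * x = x * (g ^ p - g) := by
    rw [hG, xD_mul_polyD]
    congr 2
    rw [map_sub, map_pow, shift_X]
    simp only [Nat.cast_one, mul_one]
    have h2 : (2 : (ZMod p)[X]) ^ p = 2 := by
      have : (2 : (ZMod p)[X]) = C 2 := (map_ofNat C 2).symm
      rw [this, ← C_pow, ZMod.pow_card]
    rw [add_pow_char (X : (ZMod p)[X]) 2 p, h2]
    ring
  have hd : d ∈ Subfield.closure ({g, x} : Set (Dv (ZMod p))) := by
    rw [closure_zmod]; trivial
  induction hd using Subfield.closure_induction with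
  | mem y hy =>
    rcases hy with rfl | hy
    · show (g ^ p - g) * g = g * (g ^ p - g)
      rw [sub_mul, mul_sub, ← pow_succ, ← pow_succ']
    · rw [Set.mem_singleton_iff.1 hy]; exact hx
  | one => rw [mul_one, one_mul]
  | add y z _ _ hy hz => rw [mul_add, add_mul, hy, hz]
  | neg y _ hy => rw [mul_neg, neg_mul, hy]
  | inv y _ hy => exact (show Commute (g ^ p - g) y from hy).inv_right₀
  | mul y z _ _ hy hz => rw [← mul_assoc, hy, mul_assoc, hz, mul_assoc]

/-- `w` cannot anticommute with `g`. -/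
theorem anticomm_zmod (p : ℕ) [Fact p.Prime] (hp : p % 2 = 1) (w : Dv (ZMod p))
    (hw : gD (ZMod p) * w = -(w * gD (ZMod p))) : w = 0 := by
  by_contra h0
  set g := gD (ZMod p)
  have hpow : ∀ n : ℕ, g ^ n * w = (-1) ^ n * (w * g ^ n) := by
    intro n
    induction n with
    | zero => simp
    | succ n ih =>
      rw [pow_succ, mul_assoc, hw, mul_neg, ← mul_assoc, ih, pow_succ' (-1 : Dv (ZMod p)),
        neg_one_mul, neg_mul, mul_assoc, mul_assoc, ← pow_succ]
  have h1 : (g ^ p - g) * w = -(w * (g ^ p - g)) := by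
    rw [sub_mul, hpow p, hw]
    have : Odd p := Nat.odd_iff.2 hp
    rw [this.neg_one_pow]
    noncomm_ring
  rw [central_zmod p w] at h1
  have h2 : w * (g ^ p - g) = 0 := by
    have hne : (2 : Dv (ZMod p)) ≠ 0 := by
      intro h
      have h3 := (CharP.cast_eq_zero_iff (Dv (ZMod p)) p 2).1 (by exact_mod_cast h)
      have h4 := (Nat.prime_dvd_prime_iff_eq (Fact.out : p.Prime) Nat.prime_two).1 h3
      omega
    have h5 : 2 * (w * (g ^ p - g)) = 0 := by
      rw [two_mul]
      nth_rewrite 1 [h1]
      rw [neg_add_cancel]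
    exact (mul_eq_zero.1 h5).resolve_left hne
  rcases mul_eq_zero.1 h2 with h | h
  · exact h0 h
  · have hG : g ^ p - g = polyD (ZMod p) (X ^ p - X) := by
      rw [map_sub, map_pow]; rfl
    rw [hG] at h
    have h3 := polyD_injective (ZMod p) (h.trans (map_zero _).symm)
    exact FiniteField.X_pow_card_sub_X_ne_zero (ZMod p) (Fact.out : p.Prime).one_lt h3

theorem gD_ne_zero (K : Type*) [CommRing K] [IsDomain K] : gD K ≠ 0 := by
  intro h
  exact X_ne_zero (polyD_injective K (h.trans (map_zero _).symm))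

section real
variable {k : Type} [Field k] [CharZero k] {I : Type} {F : Filter I} [F.NeBot] {p : I → ℕ}
  [∀ i, Fact (p i).Prime] {Rep : Dv k → ∀ i, Dv (ZMod (p i))}

/-- The centre of the fixed division ring consists of scalars. -/
theorem fix_central (h34 : ∀ i, p i % 4 = 3) (hR : Apx F Rep)
    (Rg : ∀ᶠ i in F, Rep (gD k) i = gD (ZMod (p i)))
    (z : Dv k) (hc : ∀ d ∈ FixD k, z * d = d * z) : ∃ c : k, z = polyD k (C c) := by
  set g := gD k with hgdef
  have hg2 : g ^ 2 ∈ FixD k := by
    rw [mem_FixD, map_pow, hgdef, tau_gD, neg_sq]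
  have hzg2 := hc _ hg2
  set w := g * z - z * g with hw
  have hgw : g * w = -(w * g) := by
    have : g * w + w * g = g ^ 2 * z - z * g ^ 2 := by rw [hw]; noncomm_ring
    rw [← hzg2, sub_self] at this
    exact eq_neg_of_add_eq_zero_left this
  have hw0 : w = 0 := by
    by_contra h0
    have hev : ∀ᶠ i in F, False := by
      filter_upwards [hR.ne_zero w h0, hR.mul g w, hR.mul w g, hR.neg (w * g), Rg]
        with i h1 h2 h3 h4 h5
      apply h1
      apply anticomm_zmod (p i) (by have := h34 i; omega)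
      rw [← h5, ← h2, ← h3, ← h4, hgw]
    exact hev.exists.choose_spec
  have hzg : z * g = g * z := (sub_eq_zero.1 (hw.symm.trans hw0)).symm
  apply W14.centre_eq z
  intro d
  have h2 : (2 : Dv k) ≠ 0 := by norm_num
  have hg0 : g ≠ 0 := gD_ne_zero k
  have ht2 : tau k (2 : Dv k)⁻¹ = 2⁻¹ := by rw [map_inv₀, map_ofNat]
  have ha : 2⁻¹ * (d + tau k d) ∈ FixD k := by
    rw [mem_FixD, map_mul, ht2, map_add, tau_tau, add_comm]
  have hb : g⁻¹ * (2⁻¹ * (d - tau k d)) ∈ FixD k := by
    rw [mem_FixD, map_mul, map_mul, ht2, map_sub, tau_tau, map_inv₀, hgdef, tau_gD, inv_neg,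
      neg_mul, ← mul_neg, ← mul_neg, neg_sub]
  have hd : d = 2⁻¹ * (d + tau k d) + g * (g⁻¹ * (2⁻¹ * (d - tau k d))) := by
    rw [mul_inv_cancel_left₀ hg0, ← mul_add]
    have : d + tau k d + (d - tau k d) = 2 * d := by rw [two_mul]; abel
    rw [this, inv_mul_cancel_left₀ h2]
  have e1 := hc _ ha
  have e2 := hc _ hb
  generalize 2⁻¹ * (d + tau k d) = a at hd e1
  generalize g⁻¹ * (2⁻¹ * (d - tau k d)) = b at hd e2
  rw [hd, mul_add, add_mul, e1, ← mul_assoc, hzg, mul_assoc, e2, ← mul_assoc]

end real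

/-- The fixed division ring is not isomorphic to any of the division rings `Dv l`. -/
theorem no_iso (k : Type) [Field k] (e : k →+* ℝ) (l : Type) [Field l] [CharZero l]
    (φ : FixD k ≃+* Dv l) : False := by
  have : CharZero k := e.charZero
  obtain ⟨I, F, p, rep, hF, hp, h34, hlarge, r1, radd, rmul⟩ := W16.exists_approx k e
  have := hF
  have : ∀ i, Fact (p i).Prime := fun i => ⟨hp i⟩
  obtain ⟨Rep, R1, Radd, Rmul, RC, Rg, Rx⟩ := W12.exists_reduction F p rep r1 radd rmul
  have hR : Apx F Rep := ⟨R1, Radd, Rmul⟩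
  -- compatibility with the involutions
  have hRtau : ∀ d, ∀ᶠ i in F, Rep (tau k d) i = tau (ZMod (p i)) (Rep d i) := by
    intro d
    apply Apx.ext_closure (hR.comp (tau k)) (hR.map fun i => tau (ZMod (p i))) _ _ d
      (by rw [closure_consts k]; trivial)
    rintro a (⟨c, rfl⟩ | ha)
    · have hc : refl k (C c) = C c := by simp [refl]
      filter_upwards [RC c] with i hi
      have hc' : refl (ZMod (p i)) (C (rep c i)) = C (rep c i) := by simp [refl]
      show Rep (tau k (polyD k (C c))) i = tau (ZMod (p i)) (Rep (polyD k (C c)) i)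
      rw [tau_polyD, hc, hi, tau_polyD, hc']
    · rcases ha with rfl | ha
      · filter_upwards [Rg, hR.neg (gD k)] with i hi hn
        rw [tau_gD, hn, hi, tau_gD]
      · rw [Set.mem_singleton_iff.1 ha]
        set g := gD k with hg
        set x := xD k with hx
        filter_upwards [Rg, Rx,
          hR.mul (-(((g - 1) ^ 2 + 1) * ((g - 1) ^ 2 + 4))) x⁻¹,
          hR.neg (((g - 1) ^ 2 + 1) * ((g - 1) ^ 2 + 4)),
          hR.mul ((g - 1) ^ 2 + 1) ((g - 1) ^ 2 + 4),
          hR.add ((g - 1) ^ 2) 1, hR.add ((g - 1) ^ 2) 4, hR.pow (g - 1) 2, hR.sub g 1,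
          hR.natCast 4, hR.one, hR.inv x] with i h1 h2 h3 h4 h5 h6 h7 h8 h9 h10 h11 h12
        have h10' : Rep 4 i = 4 := by exact_mod_cast h10
        rw [hx, tau_xD', ← hx, ← hg, h3, h4, h5, h6, h7, h8, h9, h10', h11, h12, h1, h2, tau_xD']
  -- the pair
  set X : Dv k := ((φ.symm (xD l) : FixD k) : Dv k) with hX
  set y : Dv l := (2⁻¹ * (gD l - 1)) * (xD l)⁻¹ with hy
  set Y : Dv k := ((φ.symm y : FixD k) : Dv k) with hY
  have hx0 := xD_ne_zero l
  have h2k : (2 : Dv l) ≠ 0 := by norm_num
  have hxg := xD_mul_gD l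
  have hxy : xD l * y - y * xD l = 1 := by
    have h2x : xD l * 2⁻¹ = 2⁻¹ * xD l := by
      have : Commute (xD l) 2 := by
        show xD l * 2 = 2 * xD l
        rw [mul_two, two_mul]
      exact this.inv_right₀
    have e1 : xD l * y = 2⁻¹ * (gD l + 1) := by
      rw [hy, ← mul_assoc, ← mul_assoc, h2x, mul_assoc 2⁻¹, mul_sub, hxg, mul_one,
        mul_assoc, sub_mul, mul_assoc, mul_inv_cancel₀ hx0, mul_one]
      congr 1
      rw [add_sub_assoc]
      congr 1
      norm_num
    have e2 : y * xD l = 2⁻¹ * (gD l - 1) := by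
      rw [hy, mul_assoc, inv_mul_cancel₀ hx0, mul_one]
    rw [e1, e2, ← mul_sub]
    have : gD l + 1 - (gD l - 1) = 2 := by
      rw [add_sub_sub_cancel]; norm_num
    rw [this, inv_mul_cancel₀ h2k]
  have hXY : X * Y - Y * X = 1 := by
    have := congrArg (fun d => ((φ.symm d : FixD k) : Dv k)) hxy
    simpa using this
  have hgxy : gD l = 2 * (y * xD l) + 1 := by
    rw [hy, mul_assoc, mul_assoc, inv_mul_cancel₀ hx0, mul_one, mul_inv_cancel_left₀ h2k,
      sub_add_cancel]
  -- the subfields generated by the reduced pair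
  let S : ∀ i, Subfield (Dv (ZMod (p i))) := fun i => Subfield.closure {Rep X i, Rep Y i}
  have hψ : Apx F (fun (d : Dv l) i => Rep ((φ.symm d : FixD k) : Dv k) i) :=
    hR.comp ((FixD k).subtype.comp φ.symm.toRingHom)
  have hS : ∀ d : Dv l, ∀ᶠ i in F, Rep ((φ.symm d : FixD k) : Dv k) i ∈ S i := by
    intro d
    apply hψ.mem_of_closure S (Set.range (fun c => polyD l (C c)) ∪ {gD l, xD l}) _ d
      (by rw [closure_consts l]; trivial)
    have hxS : ∀ᶠ i in F, Rep ((φ.symm (xD l) : FixD k) : Dv k) i ∈ S i :=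
      Filter.Eventually.of_forall fun i => Subfield.subset_closure (Set.mem_insert _ _)
    have hyS : ∀ᶠ i in F, Rep ((φ.symm y : FixD k) : Dv k) i ∈ S i :=
      Filter.Eventually.of_forall fun i =>
        Subfield.subset_closure (Set.mem_insert_of_mem _ rfl)
    rintro a (⟨c, rfl⟩ | ha)
    · obtain ⟨c', hc'⟩ : ∃ c' : k, ((φ.symm (polyD l (C c)) : FixD k) : Dv k) =
          polyD k (C c') := by
        apply fix_central h34 hR Rg
        intro d hd
        have hcent : ∀ d : Dv l, polyD l (C c) * d = d * polyD l (C c) := by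
          intro d
          have hd : d ∈ Subfield.closure (Set.range (fun c => polyD l (C c)) ∪
              {gD l, xD l}) := by rw [closure_consts l]; trivial
          induction hd using Subfield.closure_induction with
          | mem z hz =>
            rcases hz with ⟨b, rfl⟩ | hz
            · show polyD l (C c) * polyD l (C b) = polyD l (C b) * polyD l (C c)
              rw [← map_mul (polyD l), ← map_mul (polyD l), mul_comm]
            · rcases hz with rfl | hz
              · rw [gD, ← map_mul, ← map_mul, mul_comm]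
              · rw [Set.mem_singleton_iff.1 hz, xD_mul_polyD, shift_C]
          | one => rw [mul_one, one_mul]
          | add y z _ _ hy hz => rw [mul_add, add_mul, hy, hz]
          | neg y _ hy => rw [mul_neg, neg_mul, hy]
          | inv y _ hy => exact (show Commute (polyD l (C c)) y from hy).inv_right₀
          | mul y z _ _ hy hz => rw [← mul_assoc, hy, mul_assoc, hz, mul_assoc]
        have h1 := congrArg (fun d => ((φ.symm d : FixD k) : Dv k)) (hcent (φ ⟨d, hd⟩))
        simpa using h1
      filter_upwards [RC c'] with i hi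
      show Rep ((φ.symm (polyD l (C c)) : FixD k) : Dv k) i ∈ S i
      rw [hc', hi]
      obtain ⟨n, hn⟩ := ZMod.natCast_zmod_surjective (rep c' i)
      rw [← hn, map_natCast, map_natCast]
      exact natCast_mem _ n
    · have hgS : ∀ᶠ i in F, Rep ((φ.symm (gD l) : FixD k) : Dv k) i ∈ S i := by
        apply hψ.mem_of_closure S {xD l, y} _ (gD l)
        · rw [hgxy]
          apply add_mem _ (one_mem _)
          apply mul_mem (ofNat_mem _ 2)
          exact mul_mem (Subfield.subset_closure (Set.mem_insert_of_mem _ rfl))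
            (Subfield.subset_closure (Set.mem_insert _ _))
        · rintro a (rfl | ha)
          · exact hxS
          · rw [Set.mem_singleton_iff.1 ha]; exact hyS
      rcases ha with rfl | ha
      · exact hgS
      · rw [Set.mem_singleton_iff.1 ha]; exact hxS
  have hS' : ∀ d ∈ FixD k, ∀ᶠ i in F, Rep d i ∈ S i := by
    intro d hd
    have := hS (φ ⟨d, hd⟩)
    simpa using this
  have m1 : (gD k) ^ 2 ∈ FixD k := by rw [mem_FixD, map_pow, tau_gD, neg_sq]
  have m2 : xD k + tau k (xD k) ∈ FixD k := by rw [mem_FixD, map_add, tau_tau, add_comm]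
  have m3 : gD k * (xD k - tau k (xD k)) ∈ FixD k := by
    rw [mem_FixD, map_mul, map_sub, tau_tau, tau_gD, neg_mul, ← mul_neg, neg_sub]
  have hXF : tau k X = X := (φ.symm (xD l)).2
  have hYF : tau k Y = Y := (φ.symm y).2
  have hev : ∀ᶠ i in F, False := by
    filter_upwards [hS' _ m1, hS' _ m2, hS' _ m3, hRtau X, hRtau Y, hRtau (xD k), Rg, Rx,
      hlarge 3, hR.pow (gD k) 2, hR.add (xD k) (tau k (xD k)),
      hR.mul (gD k) (xD k - tau k (xD k)), hR.sub (xD k) (tau k (xD k)),
      hR.mul X Y, hR.mul Y X, hR.sub (X * Y) (Y * X), hR.one]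
      with i a1 a2 a3 a4 a5 a6 a7 a8 a9 b1 b2 b3 b4 b5 b6 b7 b8
    refine W11.char_p_core (p i) (h34 i) a9 (polyD (ZMod (p i))) (gD (ZMod (p i)))
      (xD (ZMod (p i))) rfl (xD_ne_zero _) (xD_mul_gD _) (closure_zmod _) (sum_ne_zero _)
      (tau (ZMod (p i))) (tau_tau _) (tau_gD _) (tau_xD' _) (Rep X i) (Rep Y i) ?_ ?_ ?_ ?_ ?_ ?_
    · rw [← a4, hXF]
    · rw [← a5, hYF]
    · rw [← b5, ← b6, ← b7, hXY, b8]
    · rw [b1, a7] at a1; exact a1
    · rw [b2, a6, a8] at a2; exact a2
    · rw [b3, b4, a6, a7, a8] at a3; exact a3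
  exact hev.exists.choose_spec

end Pool.Agent.Helper619.Weyl
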