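import Mathlib
import Pool.Agent.Helper619.Weyl.Main

namespace Pool.Agent.Helper619.Weyl

open Polynomial

section
variable (K : Type*) [CommRing K] [IsDomain K]

theorem inv_xD_sq_mul_polyD (f : K[X]) :
    ((xD K) ^ 2)⁻¹ * polyD K f = polyD K (unshift K 1 (unshift K 1 f)) * ((xD K) ^ 2)⁻¹ := by
  rw [pow_two, mul_inv_rev, mul_assoc, inv_xD_mul_polyD, ← mul_assoc, inv_xD_mul_polyD, mul_assoc]

/-- The polynomial `((g+1)^2+1)((g+1)^2+4)`. -/
noncomputable def R1 : K[X] := ((X + 1) ^ 2 + 1) * ((X + 1) ^ 2 + 4)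

theorem refl_R1 : refl K (R1 K) = -rho K := by
  simp [refl, rho, R1]
  ring

theorem unshift_R1 : unshift K 1 (unshift K 1 (R1 K)) = -unshift K 1 (rho K) := by
  simp [unshift, rho, R1]
  ring

theorem R1_ne_zero : R1 K ≠ 0 := by
  intro h
  have := refl_R1 K
  rw [h, map_zero] at this
  exact rho_ne_zero K (neg_eq_zero.1 this.symm)

theorem polyD_ne_zero (f : K[X]) (hf : f ≠ 0) : polyD K f ≠ 0 := by
  intro h
  exact hf (polyD_injective K (h.trans (map_zero _).symm))

/-- the element `ξ` -/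
noncomputable def xi : Dv K := (polyD K (R1 K))⁻¹ * xD K ^ 2

theorem xi_ne_zero : xi K ≠ 0 :=
  mul_ne_zero (inv_ne_zero (polyD_ne_zero K _ (R1_ne_zero K))) (pow_ne_zero _ (xD_ne_zero K))

theorem xi_mul_gD : xi K * gD K = (gD K + 4) * xi K := by
  have h1 : xD K ^ 2 * gD K = (gD K + 4) * xD K ^ 2 := by
    rw [pow_two, mul_assoc, xD_mul_gD, ← mul_assoc, mul_add, xD_mul_gD]
    have : xD K * 2 = 2 * xD K := by rw [mul_two, two_mul]
    rw [this, ← add_mul, add_assoc, mul_assoc]
    norm_num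
  have h2 : Commute (gD K + 4) (polyD K (R1 K)) := by
    have h3 : gD K + 4 = polyD K (X + 4) := by rw [map_add, map_ofNat]; rfl
    rw [h3]
    show polyD K _ * polyD K _ = polyD K _ * polyD K _
    rw [← map_mul, ← map_mul, mul_comm]
  rw [xi, mul_assoc, h1, ← mul_assoc, ← mul_assoc, h2.inv_right₀.eq]

theorem tau_xi : tau K (xi K) = (xi K)⁻¹ := by
  have hr : polyD K (rho K) ≠ 0 := polyD_ne_zero K _ (rho_ne_zero K)
  have h1 : tau K (xi K) = -(polyD K (unshift K 1 (rho K)) * ((xD K) ^ 2)⁻¹) := by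
    rw [xi, map_mul, map_inv₀, tau_polyD, refl_R1, map_pow, tau_xD, map_neg, inv_neg, neg_mul]
    congr 1
    rw [pow_two, mul_assoc, ← mul_assoc (xD K)⁻¹, inv_xD_mul_polyD, inv_mul_cancel_left₀ hr,
      pow_two, mul_inv_rev, mul_assoc]
  rw [h1, xi, mul_inv_rev, inv_inv, inv_xD_sq_mul_polyD, unshift_R1, map_neg, neg_mul]

end

theorem exists_pair_FixD (k : Type*) [Field k] [CharZero k] :
    ∃ u v : Dv k, u ∈ FixD k ∧ v ∈ FixD k ∧ u ≠ 0 ∧ u * v = (v + 2) * u := by
  obtain ⟨u, v, h1, h2, h3, h4⟩ := Pair.exists_pair (tau k) (gD k) (xi k) (xi_ne_zero k)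
    (xi_mul_gD k) (tau_gD k) (tau_xi k)
  exact ⟨u, v, h1, h2, h3, h4⟩

theorem const_mem_FixD (k : Type*) [Field k] (c : k) : polyD k (C c) ∈ FixD k := by
  rw [mem_FixD, tau_polyD]
  simp [refl]

/-- the map of division rings induced by a ring homomorphism of fields -/
theorem exists_map {k l : Type*} [Field k] [Field l] (e : k →+* l) :
    ∃ F : Dv k →+* Dv l, (∀ f, F (polyD k f) = polyD l (f.map e)) ∧ F (xD k) = xD l := by
  apply exists_lift k ((polyD l).comp (mapRingHom e)) (xD l)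
  · intro f
    simp only [RingHom.comp_apply, coe_mapRingHom]
    rw [xD_mul_polyD]
    congr 2
    simp [shift, Polynomial.map_comp]
  · intro f hf
    apply Ne.isUnit
    have h1 : f.mapRange (mapRingHom e) (map_zero _) ≠ 0 := by
      intro h
      apply hf
      ext1 n
      have := DFunLike.congr_fun h n
      rw [Finsupp.mapRange_apply, Finsupp.zero_apply] at this
      rw [Finsupp.zero_apply]
      exact Polynomial.map_injective e e.injective (this.trans (Polynomial.map_zero e).symm)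
    have h2 := sum_ne_zero l _ h1
    rw [Finsupp.sum_mapRange_index (by intro a; simp)] at h2
    exact h2

end Pool.Agent.Helper619.Weyl
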